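import Pool.Agent.Lib.MP_a0c85e_lc.Defs

/-! Recursion, clubs and cofinal sequences. -/

open Cardinal Set Order

namespace Pool.Agent.Lib.MP_a0c85e_lc

universe u v

theorem exists_rec {I : Type u} [LinearOrder I] [WellFoundedLT I] {β : Type v}
    (P : ∀ i : I, (Iio i → β) → β → Prop) (hP : ∀ i T, ∃ x, P i T x) :
    ∃ T : I → β, ∀ i, P i (fun j => T j) (T i) := by
  choose F hF using hP
  refine ⟨(wellFounded_lt (α := I)).fix fun i IH => F i fun j => IH j j.2, fun i => ?_⟩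
  rw [WellFounded.fix_eq]
  exact hF i _

variable {A : Type u} [LinearOrder A]

theorem bdd_of_small {s : Set A} (h : #s < cof A) : ∃ b, ∀ a ∈ s, a < b := by
  have : ¬ IsCofinal s := fun hs => (cof_le hs).not_gt h
  exact not_isCofinal_iff.1 this

theorem bdd_below {s : Set A} {a : A} (hs : s ⊆ Iio a) (h : #s < cof (Iio a)) :
    ∃ b < a, ∀ c ∈ s, c < b := by
  obtain ⟨b, hb⟩ := bdd_of_small (A := Iio a) (s := Subtype.val ⁻¹' s)
    ((mk_preimage_of_injective _ _ Subtype.val_injective).trans_lt h)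
  exact ⟨b, b.2, fun c hc => hb ⟨c, hs hc⟩ hc⟩

theorem cof_Iio_le {s : Set A} {a : A} (h : ∀ b < a, ∃ c ∈ s, b ≤ c ∧ c < a) :
    cof (Iio a) ≤ #(s ∩ Iio a : Set A) := by
  refine (cof_le (s := Subtype.val ⁻¹' (s ∩ Iio a)) fun b => ?_).trans
    (mk_preimage_of_injective _ _ Subtype.val_injective)
  obtain ⟨c, hc, h1, h2⟩ := h b b.2
  exact ⟨⟨c, h2⟩, ⟨hc, h2⟩, h1⟩

theorem exists_lub [WellFoundedLT A] {s : Set A} {b : A} (hb : ∀ a ∈ s, a ≤ b) :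
    ∃ c, IsLUB s c := by
  have hne : (upperBounds s).Nonempty := ⟨b, hb⟩
  exact ⟨wellFounded_lt.min _ hne, wellFounded_lt.min_mem _ hne,
    fun c hc => not_lt.1 (wellFounded_lt.not_lt_min _ hc)⟩

theorem exists_succ [WellFoundedLT A] {a b : A} (h : a < b) :
    ∃ c, a < c ∧ ∀ d, d < c ↔ d ≤ a := by
  have hne : (Ioi a).Nonempty := ⟨b, h⟩
  have h1 : a < wellFounded_lt.min _ hne := wellFounded_lt.min_mem _ hne
  refine ⟨_, h1, fun d => ⟨fun hd => not_lt.1 fun h2 => wellFounded_lt.not_lt_min _ h2 hd,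
    fun hd => hd.trans_lt h1⟩⟩

/-- `x` is a limit of elements of `s`. -/
def Lim (s : Set A) (x : A) : Prop := (∃ a, a < x) ∧ ∀ a < x, ∃ c ∈ s, a < c ∧ c < x

theorem Lim.cof_le {s : Set A} {x : A} (h : Lim s x) : cof (Iio x) ≤ #(s ∩ Iio x : Set A) :=
  cof_Iio_le fun b hb => by
    obtain ⟨c, h1, h2, h3⟩ := h.2 b hb
    exact ⟨c, h1, h2.le, h3⟩

theorem lim_of_lub {s : Set A} {x : A} (h : IsLUB s x) (hx : x ∉ s) (hs : s.Nonempty) :
    Lim s x := by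
  have h1 : ∀ c ∈ s, c < x := fun c hc => (h.1 hc).lt_of_ne fun e => hx (e ▸ hc)
  obtain ⟨a, ha⟩ := hs
  refine ⟨⟨a, h1 a ha⟩, fun b hb => ?_⟩
  obtain ⟨c, hc, h2⟩ := (lt_isLUB_iff h).1 hb
  exact ⟨c, hc, h2, h1 c hc⟩

theorem Lim.mem {s : Set A} {x : A} (h : Lim s x) (hs : IsClub s) : x ∈ s := by
  obtain ⟨a, ha⟩ := h.1
  obtain ⟨c, h1, -, h3⟩ := h.2 a ha
  refine hs.isLUB_mem (t := s ∩ Iio x) inter_subset_left ⟨c, h1, h3⟩
    ⟨fun d hd => le_of_lt hd.2, fun d hd => not_lt.1 fun h4 => ?_⟩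
  obtain ⟨e, h5, h6, h7⟩ := h.2 d h4
  exact (hd ⟨h5, h7⟩).not_gt h6

variable [WellFoundedLT A]

/-- A point of prescribed cofinality that is a limit of points chosen above small sets. -/
theorem exists_seq {M : Type u} [LinearOrder M] [WellFoundedLT M] (hM : #M < cof A)
    (g : A → A) (C : Set A) (hC : IsCofinal C) (a : A) :
    ∃ (γ : M → A) (b : A), StrictMono γ ∧ (∀ i, γ i ∈ C ∧ a < γ i) ∧
      (∀ i j, i < j → g (γ i) < γ j) ∧ IsLUB (range γ) b := by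
  obtain ⟨γ, hγ⟩ := exists_rec (I := M) (β := A)
    (fun i T x => cof A ≤ 1 ∨ (x ∈ C ∧ a < x ∧ ∀ j, T j < x ∧ g (T j) < x)) fun i T => by
      by_cases h1 : cof A ≤ 1
      · exact ⟨a, Or.inl h1⟩
      have h2 : ℵ₀ ≤ cof A := aleph0_le_cof_iff.2 (not_le.1 h1)
      have h3 : #(Iio i) < cof A := (mk_set_le _).trans_lt hM
      obtain ⟨b, hb⟩ := bdd_of_small (s := insert a (range T ∪ range fun j => g (T j)))
        (mk_insert_le.trans_lt (add_lt_of_lt h2 ((mk_union_le _ _).trans_lt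
          (add_lt_of_lt h2 (mk_range_le.trans_lt h3) (mk_range_le.trans_lt h3)))
          (one_lt_aleph0.trans_le h2)))
      obtain ⟨c, hc, hbc⟩ := hC b
      exact ⟨c, Or.inr ⟨hc, (hb a (by simp)).trans_le hbc,
        fun j => ⟨(hb _ (by simp)).trans_le hbc, (hb _ (by simp)).trans_le hbc⟩⟩⟩
  obtain ⟨b, hb⟩ := bdd_of_small (s := range γ) (mk_range_le.trans_lt hM)
  obtain ⟨c, hc⟩ := exists_lub fun x hx => (hb x hx).le
  have h1 : ∀ i, γ i ∈ C ∧ a < γ i ∧ ∀ j : Iio i, γ j < γ i ∧ g (γ j) < γ i := fun i => by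
    refine (hγ i).resolve_left fun h => ?_
    have : Nonempty M := ⟨i⟩
    exact (hM.trans_le h).not_ge (Cardinal.one_le_iff_ne_zero.2 (mk_ne_zero M))
  exact ⟨γ, c, fun i j h => ((h1 j).2.2 ⟨i, h⟩).1, fun i => ⟨(h1 i).1, (h1 i).2.1⟩,
    fun i j h => ((h1 j).2.2 ⟨i, h⟩).2, hc⟩

theorem club_closure (h0 : ℵ₀ < cof A) (h1 : ∀ a : A, #(Iio a) < cof A) (g : A → A) :
    IsClub {b | ∀ a < b, g a < b} := by
  refine ⟨fun s hs _ _ x hx a ha => ?_, fun a => ?_⟩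
  · obtain ⟨c, hc, h2⟩ := (lt_isLUB_iff hx).1 ha
    exact (hs hc a h2).trans_le (hx.1 hc)
  · have h2 : ∀ b : A, ∃ c, ∀ d < b, g d < c := fun b => by
      obtain ⟨c, hc⟩ := bdd_of_small (s := g '' Iio b) (mk_image_le.trans_lt (h1 b))
      exact ⟨c, fun d hd => hc _ ⟨d, hd, rfl⟩⟩
    choose G hG using h2
    obtain ⟨γ, b, h3, h4, h5, h6⟩ := exists_seq (M := ULift.{u} ℕ) (by simpa using h0) G univ
      IsCofinal.univ a
    refine ⟨b, fun d hd => ?_, (h4 ⟨0⟩).2.le.trans (h6.1 ⟨_, rfl⟩)⟩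
    obtain ⟨_, ⟨i, rfl⟩, h7⟩ := (lt_isLUB_iff h6).1 hd
    exact ((hG _ d h7).trans (h5 i ⟨i.down + 1⟩ (Nat.lt_succ_self i.down))).trans_le
      (h6.1 ⟨_, rfl⟩)

omit [WellFoundedLT A] in
theorem cof_of_lub {M : Type u} [LinearOrder M] {γ : M → A} {b : A} (h : StrictMono γ)
    (h1 : ∀ i, γ i < b) (h2 : IsLUB (range γ) b) : cof (Iio b) = cof M := by
  refine (cof_congr_of_strictMono (f := fun i => (⟨γ i, h1 i⟩ : Iio b)) (fun i j hij => h hij)
    fun c => ?_).symm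
  obtain ⟨_, ⟨i, rfl⟩, h3⟩ := (lt_isLUB_iff h2).1 c.2
  exact ⟨_, ⟨i, rfl⟩, h3.le⟩

theorem stat_cof {m : Cardinal.{u}} (hm : m.IsRegular) (h : m < cof A) :
    IsStationary {b : A | cof (Iio b) = m} := by
  intro C hC
  have hA : Nonempty A := cof_ne_zero_iff.1 (hm.pos.trans h).ne'
  obtain ⟨a⟩ := hA
  obtain ⟨γ, b, h3, h4, -, h6⟩ := exists_seq (M := m.ord.ToType) (by simpa using h) id C
    hC.isCofinal a
  have hc : cof m.ord.ToType = m := by rw [Ordinal.cof_toType, hm.cof_ord]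
  have hne : Nonempty m.ord.ToType := cof_ne_zero_iff.1 (by rw [hc]; exact hm.pos.ne')
  have hno : NoMaxOrder m.ord.ToType := (noTopOrder_iff_noMaxOrder _).1
    (cof_ne_one_iff.1 (by rw [hc]; exact (one_lt_aleph0.trans_le hm.aleph0_le).ne'))
  refine ⟨b, (cof_of_lub h3 (fun i => ?_) h6).trans hc,
    hC.isLUB_mem (by rintro _ ⟨i, rfl⟩; exact (h4 i).1) (range_nonempty _) h6⟩
  obtain ⟨j, hj⟩ := exists_gt i
  exact (h3 hj).trans_le (h6.1 ⟨_, rfl⟩)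

/-- A cofinal set of minimal order type. -/
theorem exists_thin (a : A) : ∃ C : Set A, C ⊆ Iio a ∧ (∀ b < a, ∃ c ∈ C, b ≤ c) ∧
    #C = cof (Iio a) ∧ ∀ b < a, #(C ∩ Iio b : Set A) < cof (Iio a) := by
  obtain ⟨s, hs, ht⟩ := Ordinal.exists_ord_cof_eq (Iio a)
  have hcard : #s = cof (Iio a) := by
    rw [← Ordinal.card_type (α := s) (· < ·), ht, card_ord]
  refine ⟨Subtype.val '' s, by rintro _ ⟨c, -, rfl⟩; exact c.2, fun b hb => ?_,
    by rw [mk_image_eq Subtype.val_injective, hcard], fun b hb => ?_⟩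
  · obtain ⟨c, hc, h⟩ := hs ⟨b, hb⟩
    exact ⟨c, ⟨c, hc, rfl⟩, h⟩
  · obtain ⟨c, hc, h⟩ := hs ⟨b, hb⟩
    have h1 := mk_Iio_lt (⟨c, hc⟩ : s) (by rw [hcard, ht])
    rw [hcard] at h1
    refine lt_of_le_of_lt ?_ h1
    refine (mk_le_mk_of_subset (t := range fun d : Iio (⟨c, hc⟩ : s) => d.1.1.1) ?_).trans
      mk_range_le
    rintro _ ⟨⟨d, hd, rfl⟩, h2⟩
    exact ⟨⟨⟨d, hd⟩, lt_of_lt_of_le (show d < ⟨b, hb⟩ from h2) h⟩, rfl⟩

/-- A continuous increasing enumeration of a club in `a`. -/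
structure Ladder {K : Type u} [LinearOrder K] (γ : K → A) (a : A) : Prop where
  mono : StrictMono γ
  lt : ∀ i, γ i < a
  cof : ∀ b < a, ∃ i, b ≤ γ i
  cont : ∀ i, Lim univ i → ∀ b < γ i, ∃ j < i, b < γ j

theorem exists_ladder {K : Type u} [LinearOrder K] [WellFoundedLT K] (h0 : ℵ₀ ≤ #K)
    (h1 : ∀ i : K, #(Iio i) < #K) {a : A} (ha : cof (Iio a) = #K) : ∃ γ : K → A, Ladder γ a := by
  obtain ⟨C, hC, hC1, hC2, -⟩ := exists_thin a
  obtain ⟨e⟩ := Cardinal.eq.1 (hC2.trans ha)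
  obtain ⟨γ, hγ⟩ := exists_rec (I := K) (β := A)
    (fun i T x => (∀ j, T j < a) → x < a ∧ IsLeast {y | ∀ j, T j < y ∧ (e.symm j : A) < y} x)
    fun i T => by
      by_cases hT : ∀ j, T j < a
      swap
      · exact ⟨a, fun h => absurd h hT⟩
      obtain ⟨b, hb, hb'⟩ := bdd_below (s := range T ∪ range fun j : Iio i => (e.symm j : A))
        (a := a) (by
          rintro _ (⟨j, rfl⟩ | ⟨j, rfl⟩)
          exacts [hT j, hC (e.symm j).2])
        (by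
          rw [ha]
          exact (mk_union_le _ _).trans_lt
            (add_lt_of_lt h0 (mk_range_le.trans_lt (h1 i)) (mk_range_le.trans_lt (h1 i))))
      have hne : {y | ∀ j, T j < y ∧ (e.symm j : A) < y}.Nonempty :=
        ⟨b, fun j => ⟨hb' _ (by simp), hb' _ (by simp)⟩⟩
      have hmin : ∀ c ∈ {y | ∀ j, T j < y ∧ (e.symm j : A) < y},
          wellFounded_lt.min _ hne ≤ c := fun c hc => not_lt.1 (wellFounded_lt.not_lt_min _ hc)
      exact ⟨_, fun _ => ⟨(hmin b fun j => ⟨hb' _ (by simp), hb' _ (by simp)⟩).trans_lt hb,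
        wellFounded_lt.min_mem _ hne, hmin⟩⟩
  have h2 : ∀ i, γ i < a := fun i => by
    induction i using WellFoundedLT.induction with
    | ind i ih => exact (hγ i fun j => ih j j.2).1
  have h3 := fun i => (hγ i fun j => h2 j).2
  refine ⟨γ, fun i j h => ((h3 j).1 ⟨i, h⟩).1, h2, fun b hb => ?_, fun i hi b hb => ?_⟩
  · obtain ⟨c, hc, h4⟩ := hC1 b hb
    have : ∃ j, e ⟨c, hc⟩ < j := by
      by_contra! h5
      have h6 : (univ : Set K) ⊆ insert (e ⟨c, hc⟩) (Iio (e ⟨c, hc⟩)) :=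
        fun j _ => (h5 j).eq_or_lt
      have h7 := (mk_le_mk_of_subset h6).trans mk_insert_le
      rw [mk_univ] at h7
      exact h7.not_gt (add_lt_of_lt h0 (h1 _) (one_lt_aleph0.trans_le h0))
    obtain ⟨j, hj⟩ := this
    have h5 := ((h3 j).1 ⟨_, hj⟩).2
    rw [Equiv.symm_apply_apply] at h5
    exact ⟨j, h4.trans h5.le⟩
  · by_contra! h4
    refine ((h3 i).2 (show b ∈ _ from fun j => ?_)).not_gt hb
    obtain ⟨k, -, h5, h6⟩ := hi.2 j j.2
    exact ⟨((h3 k).1 ⟨j, h5⟩).1.trans_le (h4 k h6), ((h3 k).1 ⟨j, h5⟩).2.trans_le (h4 k h6)⟩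

omit [WellFoundedLT A] in
theorem Ladder.cof_eq {K : Type u} [LinearOrder K] {γ : K → A} {a : A} (h : Ladder γ a) {i : K}
    (hi : Lim univ i) : Order.cof (Iio (γ i)) = Order.cof (Iio i) := by
  refine cof_of_lub (γ := fun j : Iio i => γ j) (fun j k hjk => h.mono hjk)
    (fun j => h.mono j.2) ⟨?_, fun b hb => not_lt.1 fun h1 => ?_⟩
  · rintro _ ⟨j, rfl⟩
    exact (h.mono j.2).le
  · obtain ⟨j, hj, h2⟩ := h.cont i hi b h1
    exact (hb ⟨⟨j, hj⟩, rfl⟩).not_gt h2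

end Pool.Agent.Lib.MP_a0c85e_lc
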