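import Pool.Agent.Lib.MP_a0c85e_lc.Diamond

/-! Binary trees given by their levels, and the construction of branches. -/

open Cardinal Set Order

namespace Pool.Agent.Lib.MP_a0c85e_lc

universe u

variable {A : Type u} [LinearOrder A]

/-- The branches through the levels below `a`. -/
def Br (T : A → Set (Set A)) (a : A) : Set (Set A) :=
  {s | s ⊆ Iio a ∧ ∀ b < a, s ∩ Iio b ∈ T b}

open Classical in
/-- An enumeration of a small set. -/
noncomputable def en (K : Type u) (X : Set (Set A)) : K → Set A :=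
  if h : ∃ e : K → Set A, X ⊆ range e then h.choose else fun _ => ∅

omit [LinearOrder A] in
theorem en_spec {K : Type u} {X : Set (Set A)} (h : #X ≤ #K) {s : Set A} (hs : s ∈ X) :
    ∃ k, en K X k = s := by
  have : Nonempty X := ⟨⟨s, hs⟩⟩
  obtain ⟨e, he⟩ := exists_surj h
  have h1 : ∃ e : K → Set A, X ⊆ range e := ⟨fun k => e k, fun t ht => by
    obtain ⟨k, hk⟩ := he ⟨t, ht⟩
    exact ⟨k, by simp only [hk]⟩⟩
  rw [en, dif_pos h1]
  exact h1.choose_spec hs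

structure Nice (K : Type u) (N : Set A) (T : A → Set (Set A)) (a : A) : Prop where
  sub : ∀ b, T b ⊆ Br T b
  full : ∀ b ∉ N, Br T b ⊆ T b
  card : ∀ b < a, #(T b) ≤ #K
  norm : ∀ c < a, ∀ b ≤ c, ∀ x ∈ T b, ∃ y ∈ T c, y ∩ Iio b = x

theorem inter_Iio {s : Set A} {a b : A} (h : a ≤ b) : s ∩ Iio b ∩ Iio a = s ∩ Iio a := by
  rw [inter_assoc, inter_eq_right.2 (Iio_subset_Iio h)]

theorem down {T : A → Set (Set A)} (h : ∀ b, T b ⊆ Br T b) {b c : A} (hb : b ≤ c) {x : Set A}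
    (hx : x ∈ T c) : x ∩ Iio b ∈ T b := by
  rcases hb.eq_or_lt with rfl | hb
  · rwa [inter_eq_left.2 (h _ hx).1]
  · exact (h _ hx).2 b hb

theorem union_coh {J : Type u} [LinearOrder J] {γ : J → A} {y : J → Set A}
    (hc : ∀ j j', j ≤ j' → y j' ∩ Iio (γ j) = y j) (j : J) :
    (⋃ i, y i) ∩ Iio (γ j) = y j := by
  refine Subset.antisymm ?_ fun t ht => ⟨mem_iUnion.2 ⟨j, ht⟩, ((hc j j le_rfl).ge ht).2⟩
  rintro t ⟨ht, h1⟩
  obtain ⟨i, hi⟩ := mem_iUnion.1 ht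
  rcases le_total j i with h | h
  · exact (hc j i h).le ⟨hi, h1⟩
  · exact ((hc i j h).ge hi).1

theorem union_br {T : A → Set (Set A)} (h : ∀ b, T b ⊆ Br T b) {J : Type u} [LinearOrder J]
    {γ : J → A} {y : J → Set A} (hy : ∀ j, y j ∈ T (γ j))
    (hc : ∀ j j', j ≤ j' → y j' ∩ Iio (γ j) = y j) {a : A} (h1 : ∀ j, γ j ≤ a)
    (h2 : ∀ b < a, ∃ j, b ≤ γ j) : (⋃ i, y i) ∈ Br T a := by
  refine ⟨iUnion_subset fun j => (h _ (hy j)).1.trans (Iio_subset_Iio (h1 j)), fun b hb => ?_⟩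
  obtain ⟨j, hj⟩ := h2 b hb
  rw [← inter_Iio hj, union_coh hc]
  exact down h hj (hy j)

variable [WellFoundedLT A] {K : Type u} {N : Set A} {T : A → Set (Set A)} {a : A}

theorem Nice.step (h : Nice K N T a) {J : Type u} [LinearOrder J] {γ : J → A} (hγ : StrictMono γ)
    {c : A} (hc : c < a) (h1 : ∀ j, γ j < c) (hN : ∀ σ < a, Lim (range γ) σ → σ ∉ N)
    {y : J → Set A} (hy : ∀ j, y j ∈ T (γ j)) (hco : ∀ j j', j ≤ j' → y j' ∩ Iio (γ j) = y j)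
    {ξ : A} {x : Set A} (hx : x ∈ T ξ) (hcx : ∀ j, y j ∩ Iio ξ = x ∩ Iio (γ j)) :
    ∃ z ∈ T c, (∀ j, z ∩ Iio (γ j) = y j) ∧ z ∩ Iio ξ = x ∩ Iio c := by
  have hx' := (h.sub _ hx).1
  have e1 : ∀ j, γ j ≤ ξ → x ∩ Iio (γ j) = y j := fun j hj => by
    rw [← hcx, inter_eq_left.2 ((h.sub _ (hy j)).1.trans (Iio_subset_Iio hj))]
  rcases le_or_gt c ξ with h2 | h2
  · refine ⟨x ∩ Iio c, down h.sub h2 hx, fun j => ?_,
      inter_eq_left.2 (inter_subset_left.trans hx')⟩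
    rw [inter_Iio (h1 j).le, e1 j ((h1 j).le.trans h2)]
  have e2 : x ∩ Iio c = x := inter_eq_left.2 (hx'.trans (Iio_subset_Iio h2.le))
  by_cases h3 : ∀ j, γ j ≤ ξ
  · obtain ⟨z, hz, h4⟩ := h.norm c hc ξ h2.le x hx
    exact ⟨z, hz, fun j => by rw [← inter_Iio (h3 j), h4, e1 j (h3 j)], by rw [h4, e2]⟩
  push Not at h3
  obtain ⟨j0, h3⟩ := h3
  suffices ∃ z ∈ T c, ∀ j, z ∩ Iio (γ j) = y j by
    obtain ⟨z, hz, h4⟩ := this
    refine ⟨z, hz, h4, ?_⟩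
    rw [← inter_Iio h3.le, h4, hcx, e2, inter_eq_left.2 (hx'.trans (Iio_subset_Iio h3.le))]
  obtain ⟨σ, hσ⟩ := exists_lub (s := range γ) (b := c) (by rintro _ ⟨j, rfl⟩; exact (h1 j).le)
  have hσc : σ ≤ c := hσ.2 (by rintro _ ⟨j, rfl⟩; exact (h1 j).le)
  by_cases h4 : σ ∈ range γ
  · obtain ⟨j1, rfl⟩ := h4
    obtain ⟨z, hz, h5⟩ := h.norm c hc _ hσc _ (hy j1)
    refine ⟨z, hz, fun j => ?_⟩
    have h6 : γ j ≤ γ j1 := hσ.1 ⟨j, rfl⟩
    rw [← inter_Iio h6, h5, hco j j1 (hγ.le_iff_le.1 h6)]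
  · have h5 := lim_of_lub hσ h4 ⟨_, j0, rfl⟩
    have h6 := union_br h.sub hy hco (a := σ) (fun j => hσ.1 ⟨j, rfl⟩) fun b hb => by
      obtain ⟨_, ⟨j, rfl⟩, h7, -⟩ := h5.2 b hb
      exact ⟨j, h7.le⟩
    obtain ⟨z, hz, h7⟩ := h.norm c hc σ hσc _ (h.full σ (hN σ (hσc.trans_lt hc) h5) h6)
    refine ⟨z, hz, fun j => ?_⟩
    rw [← inter_Iio (hσ.1 ⟨j, rfl⟩), h7, union_coh hco]

theorem Nice.climb (h : Nice K N T a) {I : Type u} [LinearOrder I] [WellFoundedLT I] {γ : I → A}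
    (hγ : StrictMono γ) (h1 : ∀ i, γ i < a) (hN : ∀ σ < a, Lim (range γ) σ → σ ∉ N)
    {ξ : A} {x : Set A} (hx : x ∈ T ξ) : ∃ y : (I → K) → I → Set A,
      (∀ f i, y f i ∈ T (γ i) ∧ (∀ j ≤ i, y f i ∩ Iio (γ j) = y f j) ∧
        y f i ∩ Iio ξ = x ∩ Iio (γ i)) ∧
      (∀ f g i, (∀ j ≤ i, f j = g j) → y f i = y g i) ∧
      ∀ f i w, en K (T (γ i)) (f i) = w → w ∈ T (γ i) → (∀ j < i, w ∩ Iio (γ j) = y f j) →
        w ∩ Iio ξ = x ∩ Iio (γ i) → y f i = w := by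
  classical
  let V : ∀ i : I, (Iio i → Set A) → Set A → Prop := fun i y z =>
    z ∈ T (γ i) ∧ (∀ j : Iio i, z ∩ Iio (γ j) = y j) ∧ z ∩ Iio ξ = x ∩ Iio (γ i)
  let Φ : ∀ i : I, (Iio i → Set A) → K → Set A := fun i y k =>
    if V i y (en K (T (γ i)) k) then en K (T (γ i)) k else Classical.epsilon (V i y)
  choose y hy using fun f : I → K => exists_rec (I := I) (β := Set A)
    (fun i y z => z = Φ i y (f i)) fun i y => ⟨_, rfl⟩
  refine ⟨y, fun f i => ?_, fun f g i => ?_, fun f i w h2 h3 h4 h5 => ?_⟩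
  · induction i using WellFoundedLT.induction with
    | ind i ih =>
      have h2 : V i (fun j => y f j) (y f i) := by
        rw [hy f i]
        simp only [Φ]
        split_ifs with h3
        · exact h3
        refine Classical.epsilon_spec ?_
        obtain ⟨z, h4, h5⟩ := h.step (J := Iio i) (γ := fun j => γ j) (fun j k hjk => hγ hjk)
          (h1 i) (fun j => hγ j.2) (fun σ h4 h5 => hN σ h4 ⟨h5.1, fun b hb => by
            obtain ⟨_, ⟨j, rfl⟩, h6⟩ := h5.2 b hb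
            exact ⟨_, ⟨j, rfl⟩, h6⟩⟩) (y := fun j => y f j) (fun j => (ih j j.2).1)
          (fun j k hjk => (ih k k.2).2.1 j hjk) hx fun j => (ih j j.2).2.2
        exact ⟨z, h4, h5⟩
      refine ⟨h2.1, fun j hj => ?_, h2.2.2⟩
      rcases hj.eq_or_lt with rfl | hj
      · exact inter_eq_left.2 (h.sub _ h2.1).1
      · exact h2.2.1 ⟨j, hj⟩
  · induction i using WellFoundedLT.induction with
    | ind i ih =>
      intro h2
      have h3 : (fun j : Iio i => y f j) = fun j : Iio i => y g j :=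
        funext fun j => ih j j.2 fun k hk => h2 k (hk.trans (le_of_lt j.2))
      rw [hy f i, hy g i, h3, h2 i le_rfl]
  · rw [hy f i]
    simp only [Φ]
    rw [h2, if_pos ⟨h3, fun j => h4 j j.2, h5⟩]

omit [WellFoundedLT A] in
theorem Nice.top (h : Nice K N T a) {I : Type u} [LinearOrder I] {γ : I → A} (h1 : ∀ i, γ i < a)
    (h2 : ∀ b < a, ∃ i, b ≤ γ i) {ξ : A} (hξ : ξ < a) {x : Set A} (hx : x ∈ T ξ) {y : I → Set A}
    (hy : ∀ i, y i ∈ T (γ i) ∧ (∀ j ≤ i, y i ∩ Iio (γ j) = y j) ∧ y i ∩ Iio ξ = x ∩ Iio (γ i)) :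
    (⋃ i, y i) ∈ Br T a ∧ (⋃ i, y i) ∩ Iio ξ = x ∧ ∀ j, (⋃ i, y i) ∩ Iio (γ j) = y j := by
  have hc : ∀ j j', j ≤ j' → y j' ∩ Iio (γ j) = y j := fun j j' hj => (hy j').2.1 j hj
  refine ⟨union_br h.sub (fun j => (hy j).1) hc (fun j => (h1 j).le) h2, ?_, union_coh hc⟩
  obtain ⟨i, hi⟩ := h2 ξ hξ
  rw [← inter_Iio hi, union_coh hc, (hy i).2.2,
    inter_eq_left.2 ((h.sub _ hx).1.trans (Iio_subset_Iio hi))]

theorem Nice.branch [Nonempty K] (h : Nice K N T a) {C : Set A} (h1 : C ⊆ Iio a)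
    (h2 : ∀ b < a, ∃ c ∈ C, b ≤ c) (hN : ∀ σ < a, Lim C σ → σ ∉ N) {ξ : A} (hξ : ξ < a)
    {x : Set A} (hx : x ∈ T ξ) : ∃ s ∈ Br T a, s ∩ Iio ξ = x := by
  obtain ⟨y, h3, -⟩ := h.climb (I := C) (γ := Subtype.val) (Subtype.strictMono_coe _)
    (fun c => h1 c.2) (by simpa using hN) hx
  obtain ⟨h4, h5, -⟩ := h.top (I := C) (γ := Subtype.val) (fun c => h1 c.2) (fun b hb => by
    obtain ⟨c, hc, h4⟩ := h2 b hb
    exact ⟨⟨c, hc⟩, h4⟩) hξ hx (h3 fun _ => Classical.arbitrary K)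
  exact ⟨_, h4, h5⟩

/-- A branch at a point whose cofinality is at most the cofinality of the points of `N`. -/
theorem Nice.branch' [Nonempty K] (h : Nice K N T a) (hN : ∀ σ ∈ N, cof (Iio a) ≤ cof (Iio σ))
    {ξ : A} (hξ : ξ < a) {x : Set A} (hx : x ∈ T ξ) : ∃ s ∈ Br T a, s ∩ Iio ξ = x := by
  obtain ⟨C, h1, h2, -, h3⟩ := exists_thin a
  exact h.branch h1 h2 (fun σ h4 h5 h6 => ((hN σ h6).trans h5.cof_le).not_gt (h3 σ h4)) hξ hx

end Pool.Agent.Lib.MP_a0c85e_lc
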