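import Mathlib

/-!
Souslin trees, and nowhere dense subtrees of the tree of bounded sequences.
-/

open Cardinal Set

namespace Pool.Agent.Lib.MP_a0c85e_lc

universe u

/-- The height of a node: its rank in the well founded order. -/
noncomputable def height {T : Type u} [PartialOrder T] [WellFoundedLT T] (t : T) : Ordinal.{u} :=
  IsWellFounded.rank (α := T) (· < ·) t

/-- `T` is a Souslin tree of height the successor of `k`. -/
structure IsSouslin (k : Cardinal.{u}) (T : Type u) [PartialOrder T] [WellFoundedLT T] : Prop where
  tree : ∀ t : T, IsChain (· ≤ ·) (Iio t)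
  height_lt : ∀ t : T, height t < (Order.succ k).ord
  level_nonempty : ∀ o < (Order.succ k).ord, ∃ t : T, height t = o
  level_small : ∀ o : Ordinal.{u}, #{t : T | height t = o} ≤ k
  chain : ∀ C : Set T, IsChain (· ≤ ·) C → #C ≠ Order.succ k
  antichain : ∀ A : Set T, IsAntichain (· ≤ ·) A → #A ≠ Order.succ k

/-- Sequences of elements of `K` whose domain is a proper initial segment of `K`. -/
def Seq (K : Type u) [LinearOrder K] : Type u := Σ i : K, (Iio i → K)

/-- The restriction of `f` to the elements below `i`. -/
def res {K : Type u} [LinearOrder K] (f : K → K) (i : K) : Seq K := ⟨i, fun j => f j⟩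

/-- `U` is closed under initial segments, and every sequence has an extension outside `U`. -/
def NowhereDenseTree {K : Type u} [LinearOrder K] (U : Set (Seq K)) : Prop :=
  (∀ (f : K → K) (i j : K), i ≤ j → res f j ∈ U → res f i ∈ U) ∧
    ∀ (f : K → K) (i : K), ∃ (g : K → K) (j : K), i ≤ j ∧ res g i = res f i ∧ res g j ∉ U

end Pool.Agent.Lib.MP_a0c85e_lc
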