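import Pool.Agent.Lib.MP_a0c85e_lc.Base

/-! The diamond principle at points of small cofinality (Gregory, Kunen). -/

open Cardinal Set Order

namespace Pool.Agent.Lib.MP_a0c85e_lc

universe u

theorem exists_surj {X Y : Type u} [Nonempty Y] (h : #Y ≤ #X) :
    ∃ e : X → Y, Function.Surjective e := by
  obtain ⟨f⟩ := (Cardinal.le_def _ _).1 h
  exact ⟨_, Function.invFun_surjective f.injective⟩

/-- The cardinal arithmetic of the index orders. -/
structure Setup (A K : Type u) [LinearOrder A] [LinearOrder K] (m : Cardinal.{u}) : Prop where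
  reg : m.IsRegular
  cardK : #K = succ m
  cofK : cof K = succ m
  segK : ∀ i : K, #(Iio i) ≤ m
  pow : 2 ^ m = succ m
  cardA : #A = 2 ^ #K
  cofA : #K < cof A
  segA : ∀ a : A, #(Iio a) ≤ #K

variable {A K : Type u} [LinearOrder A] [LinearOrder K] {m : Cardinal.{u}}

theorem Setup.lt (h : Setup A K m) : m < #K := h.cardK ▸ lt_succ m

theorem Setup.inf (h : Setup A K m) : ℵ₀ < #K := h.reg.aleph0_le.trans_lt h.lt

theorem Setup.pow_le (h : Setup A K m) {n c : Cardinal.{u}} (hn : n ≤ m) (hc : c ≤ #K) :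
    c ^ n ≤ #K := by
  have h0 : #K ≠ 0 := (aleph0_pos.trans h.inf).ne'
  refine (power_le_power_right hc).trans ((power_le_power_left h0 hn).trans_eq ?_)
  rw [h.cardK, ← h.pow, ← power_mul, mul_eq_self h.reg.aleph0_le]

theorem Setup.pow_le' (h : Setup A K m) {n c : Cardinal.{u}} (hn : n ≤ #K) (hc : c ≤ #A) :
    c ^ n ≤ #A := by
  have h0 : #A ≠ 0 := by
    rw [h.cardA]
    exact power_ne_zero _ two_ne_zero
  refine (power_le_power_right hc).trans ((power_le_power_left h0 hn).trans_eq ?_)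
  rw [h.cardA, ← power_mul, mul_eq_self h.inf.le]

theorem Setup.neK (h : Setup A K m) : Nonempty K := mk_ne_zero_iff.1 (aleph0_pos.trans h.inf).ne'

theorem Setup.neA (h : Setup A K m) : Nonempty A :=
  cof_ne_zero_iff.1 (aleph0_pos.trans (h.inf.trans h.cofA)).ne'

theorem Setup.exists_gt (h : Setup A K m) (a : A) : ∃ b, a < b := by
  obtain ⟨b, hb⟩ := bdd_of_small (s := {a})
    (by rw [mk_singleton]; exact one_lt_aleph0.trans (h.inf.trans h.cofA))
  exact ⟨b, hb a rfl⟩

theorem Setup.exists_gtK (h : Setup A K m) (a : K) : ∃ b, a < b := by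
  obtain ⟨b, hb⟩ := bdd_of_small (s := {a})
    (by rw [mk_singleton, h.cofK, ← h.cardK]; exact one_lt_aleph0.trans h.inf)
  exact ⟨b, hb a rfl⟩

variable [WellFoundedLT A]

theorem Setup.club (h : Setup A K m) (g : A → A) : IsClub {b | ∀ a < b, g a < b} :=
  club_closure (h.inf.trans h.cofA) (fun a => (h.segA a).trans_lt h.cofA) g

theorem Setup.diamond (h : Setup A K m) {S : Set A} (hS : IsStationary S)
    (hm : ∀ b ∈ S, cof (Iio b) = m) :
    ∃ G : A → A → Set K, ∀ F : A → Set K, IsStationary {b | b ∈ S ∧ ∀ a < b, G b a = F a} := by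
  classical
  have := h.neA
  have := h.neK
  have hA : ℵ₀ ≤ #A := (h.inf.trans h.cofA).le.trans (cof_le_cardinalMk A)
  have h1 : #(K → Set K) ≤ #A := by
    rw [← power_def]
    exact h.pow_le' le_rfl (by rw [mk_set, h.cardA])
  have h2 : #(Σ a : A, (Iio a → K → Set K)) ≤ #A := by
    rw [mk_sigma]
    refine (sum_le_sum _ (fun _ => #A) fun a => ?_).trans ?_
    · rw [← power_def]
      exact h.pow_le' (h.segA a) h1
    · rw [sum_const', mul_eq_self hA]
  have : Nonempty (Σ a : A, (Iio a → K → Set K)) := ⟨⟨Classical.arbitrary A, fun _ _ => ∅⟩⟩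
  obtain ⟨e, he⟩ := exists_surj h2
  let x : A → A → K → Set K := fun η a => if ha : a < (e η).1 then (e η).2 ⟨a, ha⟩ else fun _ => ∅
  have hx : ∀ (F : A → K → Set K) (c : A), ∃ η, ∀ a < c, x η a = F a := fun F c => by
    obtain ⟨η, hη⟩ := he ⟨c, fun a => F a⟩
    refine ⟨η, fun a ha => ?_⟩
    simp only [x]
    generalize e η = p at hη
    subst hη
    exact dif_pos ha
  have h3 : ∀ b : A, ∃ P : K → A → K → Set K, b ∈ S → ∀ (F : A → K → Set K) (η : A → A),
      (∀ c, ∀ a < c, x (η c) a = F a) → (∀ c < b, η c < b) → ∃ j, ∀ a < b, P j a = F a := by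
    intro b
    by_cases hb : b ∈ S
    swap
    · exact ⟨fun _ _ _ => ∅, fun h => absurd h hb⟩
    obtain ⟨C, hC, hC1, hC2, -⟩ := exists_thin b
    have h4 : #(C → Iio b) ≤ #K := by
      rw [← power_def]
      exact h.pow_le (hC2.trans (hm b hb)).le (h.segA b)
    have : Nonempty (C → Iio b) := ⟨fun c => ⟨c, hC c.2⟩⟩
    obtain ⟨q, hq⟩ := exists_surj h4
    have h5 : ∀ a, ∃ c : C, a < b → a < c := fun a => by
      have h6 : ∀ a < b, ∃ c : C, a < c := fun a ha => by
        obtain ⟨d, hd, h7⟩ := bdd_below (s := {a}) (a := b) (singleton_subset_iff.2 ha)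
          (by rw [mk_singleton, hm b hb]; exact one_lt_aleph0.trans_le h.reg.aleph0_le)
        obtain ⟨c, hc, h8⟩ := hC1 d hd
        exact ⟨⟨c, hc⟩, (h7 a rfl).trans_le h8⟩
      by_cases ha : a < b
      · obtain ⟨c, hc⟩ := h6 a ha
        exact ⟨c, fun _ => hc⟩
      · have : Nonempty C := mk_ne_zero_iff.1 (by rw [hC2, hm b hb]; exact h.reg.pos.ne')
        exact ⟨Classical.arbitrary C, fun h => absurd h ha⟩
    choose c hc using h5
    refine ⟨fun j a => x (q j (c a)) a, fun _ F η h6 h7 => ?_⟩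
    obtain ⟨j, hj⟩ := hq fun d => ⟨η d, h7 d (hC d.2)⟩
    exact ⟨j, fun a ha => by simp only [hj]; exact h6 _ a (hc a ha)⟩
  choose P hP using h3
  by_contra! hcon
  choose F hF using fun j => hcon fun b a => P b j a j
  choose D hD hD' using fun j => not_isStationary_iff.1 (hF j)
  choose η hη using hx fun a j => F j a
  have hne : cof A ≠ ℵ₀ := (h.inf.trans h.cofA).ne'
  obtain ⟨b, hb, h6, h7⟩ := hS ((h.club η).inter hne
    (IsClub.iInter hne (by simpa using h.cofA) hD))
  obtain ⟨j, hj⟩ := hP b hb _ η hη h6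
  exact disjoint_left.1 (hD' j) ⟨hb, fun a ha => congrFun (hj a ha) j⟩ (mem_iInter.1 h7 j)

end Pool.Agent.Lib.MP_a0c85e_lc
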