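import Pool.Agent.Lib.MP_a0c85e_lc.H1Tree

/-! If no sequence guesses a cofinal family of clubs, reflection gives ladders that meet every
cofinal set at isolated points. -/

open Cardinal Set Order

namespace Pool.Agent.Lib.MP_a0c85e_lc

universe u

variable {A K : Type u} [LinearOrder A] [LinearOrder K] [WellFoundedLT A] [WellFoundedLT K]
  {m : Cardinal.{u}}

omit [WellFoundedLT A] in
theorem Setup.clubK (h : Setup A K m) (g : K → K) : IsClub {b | ∀ a < b, g a < b} :=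
  club_closure (by rw [h.cofK, ← h.cardK]; exact h.inf)
    (fun a => by rw [h.cofK]; exact (h.segK a).trans_lt (lt_succ m)) g

omit [WellFoundedLT A] [WellFoundedLT K] in
theorem Setup.club_Ioi (h : Setup A K m) (i : K) : IsClub (Ioi i) :=
  ⟨fun s hs ⟨e, he⟩ _ x hx => (hs he).trans_le (hx.1 he), fun e => by
    obtain ⟨j, hj⟩ := h.exists_gtK i
    exact ⟨max e j, hj.trans_le (le_max_right _ _), le_max_left _ _⟩⟩

omit [WellFoundedLT A] in
/-- No guessed club is almost contained in a suitable club. -/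
theorem Setup.tail (h : Setup A K m)
    (hW : ∀ W : K → Set K, ∃ D, IsClub D ∧ ∀ C ⊆ D, IsClub C →
      ¬ IsStationary {d : K | cof (Iio d) = m ∧ C ∩ Iio d = W d}) (W : K → Set K) :
    ∃ D, IsClub D ∧ ∀ C, IsClub C → IsStationary {d : K | cof (Iio d) = m ∧ C ∩ Iio d = W d} →
      ∀ i, ∃ c ∈ C, i < c ∧ c ∉ D := by
  choose D hD hD' using fun i => hW fun d => W d ∩ Ioi i
  have h1 : ∀ j : K, ∃ g, ∀ i ≤ j, ∃ c ∈ D i, j < c ∧ c < g := fun j => by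
    obtain ⟨j', hj'⟩ := h.exists_gtK j
    choose c hc hc' using fun i => (hD i).isCofinal j'
    obtain ⟨g, hg⟩ := bdd_of_small (s := c '' Iio j') (mk_image_le.trans_lt (by
      rw [h.cofK]; exact (h.segK j').trans_lt (lt_succ m)))
    exact ⟨g, fun i hi => ⟨c i, hc i, hj'.trans_le (hc' i), hg _ ⟨i, hi.trans_lt hj', rfl⟩⟩⟩
  choose g hg using h1
  refine ⟨_, h.clubK g, fun C hC hs i => ?_⟩
  by_contra! h2
  have hne : cof K ≠ ℵ₀ := by rw [h.cofK, ← h.cardK]; exact h.inf.ne'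
  refine hD' i (C ∩ Ioi i) (fun c hc => Lim.mem ⟨⟨i, hc.2⟩, fun b hb => ?_⟩ (hD i))
    (hC.inter hne (h.club_Ioi i)) (hs.mono fun d hd => ⟨hd.1, by rw [inter_right_comm, hd.2]⟩)
  obtain ⟨e, h3, h4, h5⟩ := hg (max b i) i (le_max_right _ _)
  exact ⟨e, h3, (le_max_left _ _).trans_lt h4, h5.trans (h2 c hc.1 hc.2 _ (max_lt hb hc.2))⟩

omit [WellFoundedLT A] [WellFoundedLT K] in
theorem Setup.exists_enum (h : Setup A K m) (a : A) :
    ∃ E : K → m.out → A, ∀ y : m.out → A, (∀ ξ, y ξ < a) → ∃ k, E k = y := by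
  by_cases hne : Nonempty (m.out → Iio a)
  · obtain ⟨e, he⟩ := exists_surj (X := K) (Y := m.out → Iio a) (by
      rw [← power_def, mk_out]
      exact h.pow_le le_rfl (h.segA a))
    refine ⟨fun k ξ => e k ξ, fun y hy => ?_⟩
    obtain ⟨k, hk⟩ := he fun ξ => ⟨y ξ, hy ξ⟩
    exact ⟨k, by simp only [hk]⟩
  · exact ⟨fun _ _ => a, fun y hy => absurd ⟨fun ξ => ⟨y ξ, hy ξ⟩⟩ hne⟩

/-- The indices below which selectors for the family `X` are enumerated cofinally. -/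
def Clo {M : Type u} (γ : K → A) (E : K → M → A) (X : M → Set A) : Set K :=
  {i | ∀ j < i, ∃ k < i, ∃ j' < i, ∀ ξ, E k ξ ∈ X ξ ∧ γ j < E k ξ ∧ E k ξ < γ j'}

theorem Setup.hit (h : Setup A K m) {γ : A → K → A} (hγ : ∀ a, cof (Iio a) = #K → Ladder (γ a) a)
    (hr : ∀ S : Set A, IsStationary S → (∀ b ∈ S, cof (Iio b) = m) →
      ∃ a, cof (Iio a) = #K ∧ IsStationary {d : K | cof (Iio d) = m ∧ γ a d ∈ S})
    (hW : ∀ W : K → Set K, ∃ D, IsClub D ∧ ∀ C ⊆ D, IsClub C →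
      ¬ IsStationary {d : K | cof (Iio d) = m ∧ C ∩ Iio d = W d}) :
    ∃ (z : A → K → A) (D : A → Set K), (∀ a, IsCofinal (D a)) ∧
      (∀ a, cof (Iio a) = #K → ∀ j, γ a j ≤ z a j ∧ ∀ j' ∈ D a, j < j' → z a j < γ a j') ∧
      ∀ X : Set A, IsCofinal X → ∃ a, cof (Iio a) = #K ∧
        ∀ i, ∃ j ∈ D a, i ≤ j ∧ γ a j < z a j ∧ z a j ∈ X := by
  classical
  obtain ⟨G, hG⟩ := h.diamond (stat_cof h.reg (h.lt.trans h.cofA)) fun b hb => hb
  obtain ⟨e⟩ := (Cardinal.le_def m.out K).1 (by rw [mk_out]; exact h.lt.le)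
  choose E hE using h.exists_enum
  choose D hD hD' using fun a => h.tail hW fun d =>
    Clo (γ a) (E a) (fun ξ => {b | e ξ ∈ G (γ a d) b}) ∩ Iio d
  have h1 : ∀ a j, ∃ n, (n ∈ D a ∧ j < n) ∧ ∀ j' ∈ D a, j < j' → n ≤ j' := fun a j => by
    obtain ⟨i, hi⟩ := h.exists_gtK j
    obtain ⟨d, h1, h2⟩ := (hD a).isCofinal i
    obtain ⟨n, h3, h4⟩ := wellFounded_lt.has_min {n | n ∈ D a ∧ j < n} ⟨d, h1, hi.trans_le h2⟩
    exact ⟨n, h3, fun j' h5 h6 => not_lt.1 (h4 j' ⟨h5, h6⟩)⟩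
  choose n hn hn' using h1
  have h2 : ∀ a j, ∃ s : m.out → Iio (n a j), Function.Surjective s := fun a j => by
    have : Nonempty (Iio (n a j)) := ⟨⟨j, (hn a j).2⟩⟩
    exact exists_surj (by rw [mk_out]; exact h.segK _)
  choose s hs using h2
  let z : m.out → A → K → A := fun ξ a j =>
    if γ a j < E a (s a j ξ) ξ ∧ E a (s a j ξ) ξ < γ a (n a j) then E a (s a j ξ) ξ else γ a j
  suffices ∃ ξ, ∀ X : Set A, IsCofinal X → ∃ a, cof (Iio a) = #K ∧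
      ∀ i, ∃ j ∈ D a, i ≤ j ∧ γ a j < z ξ a j ∧ z ξ a j ∈ X by
    obtain ⟨ξ, hξ⟩ := this
    refine ⟨z ξ, D, fun a => (hD a).isCofinal, fun a ha j => ?_, hξ⟩
    simp only [z]
    split_ifs with h3
    · exact ⟨h3.1.le, fun j' h4 h5 => h3.2.trans_le ((hγ a ha).mono.monotone (hn' a j j' h4 h5))⟩
    · exact ⟨le_rfl, fun j' _ h5 => (hγ a ha).mono h5⟩
  by_contra! hc
  choose X hX hX' using hc
  have h3 : ∀ b : A, ∃ g, ∃ y : m.out → A, ∀ ξ, y ξ ∈ X ξ ∧ b < y ξ ∧ y ξ < g := fun b => by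
    obtain ⟨b', hb'⟩ := h.exists_gt b
    choose y hy hy' using fun ξ => hX ξ b'
    obtain ⟨g, hg⟩ := bdd_of_small (s := range y)
      (mk_range_le.trans_lt (by rw [mk_out]; exact h.lt.trans h.cofA))
    exact ⟨g, y, fun ξ => ⟨hy ξ, hb'.trans_le (hy' ξ), hg _ ⟨ξ, rfl⟩⟩⟩
  choose g y hy using h3
  have hne : cof A ≠ ℵ₀ := (h.inf.trans h.cofA).ne'
  obtain ⟨a, ha, hS⟩ := hr ({b | cof (Iio b) = m ∧ ∀ c < b, G b c = e '' {ξ | c ∈ X ξ}} ∩
      {b | ∀ c < b, g c < b})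
    (fun C hC => by
      obtain ⟨b, h3, h4, h5⟩ := hG (fun c => e '' {ξ | c ∈ X ξ}) ((h.club g).inter hne hC)
      exact ⟨b, ⟨h3, h4⟩, h5⟩) fun b hb => hb.1.1
  have hl := hγ a ha
  have h4 : ∀ j, ∃ q, ∃ k < q, ∃ j' < q, ∀ ξ,
      E a k ξ ∈ X ξ ∧ γ a j < E a k ξ ∧ E a k ξ < γ a j' := fun j => by
    obtain ⟨d, h4, h5⟩ := hS (h.club_Ioi j)
    have h6 := h4.2.2 _ (hl.mono h5)
    obtain ⟨k, hk⟩ := hE a (y (γ a j)) fun ξ => ((hy _ ξ).2.2.trans h6).trans (hl.lt d)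
    obtain ⟨q, hq⟩ := h.exists_gtK (max k d)
    refine ⟨q, k, (le_max_left _ _).trans_lt hq, d, (le_max_right _ _).trans_lt hq, fun ξ => ?_⟩
    rw [hk]
    exact ⟨(hy _ ξ).1, (hy _ ξ).2.1, (hy _ ξ).2.2.trans h6⟩
  choose q hq using h4
  have hC : IsClub (Clo (γ a) (E a) X) := ⟨fun t ht _ _ x hx j hj => by
      obtain ⟨c, h5, h6⟩ := (lt_isLUB_iff hx).1 hj
      obtain ⟨k, h7, j', h8, h9⟩ := ht h5 j h6
      exact ⟨k, h7.trans_le (hx.1 h5), j', h8.trans_le (hx.1 h5), h9⟩,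
    fun i => by
      obtain ⟨c, h5, h6⟩ := (h.clubK q).isCofinal i
      refine ⟨c, fun j hj => ?_, h6⟩
      obtain ⟨k, h7, j', h8, h9⟩ := hq j
      exact ⟨k, h7.trans (h5 j hj), j', h8.trans (h5 j hj), h9⟩⟩
  have h5 := hD' a _ hC (hS.mono fun d hd => ⟨hd.1, Set.ext fun i => and_congr_left fun hi =>
    forall₂_congr fun j _ => exists_congr fun k => and_congr_right fun _ => exists_congr fun j' =>
      and_congr_right fun hj' => forall_congr' fun ξ => and_congr_left fun h5 => by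
        rw [mem_ofPred_eq, hd.2.1.2 _ (h5.2.trans (hl.mono (hj'.trans hi))),
          e.injective.mem_set_image, mem_ofPred_eq]⟩)
  choose i hi using fun ξ => hX' ξ a ha
  obtain ⟨i₀, h6⟩ := bdd_of_small (s := range i)
    (mk_range_le.trans_lt (by rw [mk_out, h.cofK]; exact lt_succ m))
  obtain ⟨i₁, h7, h8⟩ := (hD a).isCofinal i₀
  obtain ⟨c, h9, h10, h11⟩ := h5 i₁
  obtain ⟨j, hj⟩ := exists_lub (s := D a ∩ Iio c) (b := c) fun d hd => le_of_lt hd.2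
  have h12 : j ∈ D a := (hD a).isLUB_mem inter_subset_left ⟨i₁, h7, h10⟩ hj
  have h13 : j < c := (hj.2 fun d hd => le_of_lt hd.2).lt_of_ne fun e => h11 (e ▸ h12)
  have h14 : c ≤ n a j := not_lt.1 fun h14 => (hj.1 ⟨(hn a j).1, h14⟩).not_gt (hn a j).2
  obtain ⟨k, h15, j', h16, h17⟩ := h9 j h13
  obtain ⟨ξ, hξ⟩ := hs a j ⟨k, h15.trans_le h14⟩
  have h18 : z ξ a j = E a k ξ := by
    simp only [z, hξ]
    exact if_pos ⟨(h17 ξ).2.1, (h17 ξ).2.2.trans (hl.mono (h16.trans_le h14))⟩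
  refine hi ξ j h12 ((h6 _ ⟨ξ, rfl⟩).le.trans (h8.trans (hj.1 ⟨h7, h10⟩))) ?_ ?_
  · rw [h18]
    exact (h17 ξ).2.1
  · rw [h18]
    exact (h17 ξ).1

theorem Setup.main_club (h : Setup A K m) (ht : Ordinal.type (α := A) (· < ·) = (succ #K).ord)
    (hW : ∀ W : K → Set K, ∃ D, IsClub D ∧ ∀ C ⊆ D, IsClub C →
      ¬ IsStationary {d : K | cof (Iio d) = m ∧ C ∩ Iio d = W d}) :
    ∃ T : A → Set (Set A), IsSouslin #K (Node T) := by
  have h1 : ∀ a : A, ∃ γ : K → A, cof (Iio a) = #K → Ladder γ a := fun a => by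
    by_cases ha : cof (Iio a) = #K
    · obtain ⟨γ, hγ⟩ := exists_ladder h.inf.le (fun i => (h.segK i).trans_lt h.lt) ha
      exact ⟨γ, fun _ => hγ⟩
    · exact ⟨fun _ => a, fun h => absurd h ha⟩
  choose γ hγ using h1
  by_cases hr : ∀ S : Set A, IsStationary S → (∀ b ∈ S, cof (Iio b) = m) →
      ∃ a, cof (Iio a) = #K ∧ IsStationary {d : K | cof (Iio d) = m ∧ γ a d ∈ S}
  · obtain ⟨z, D, h2, h3, h4⟩ := h.hit hγ hr hW
    exact h.tree_of_hit ht hγ h2 h3 h4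
  · push Not at hr
    obtain ⟨S, h2, h3, h4⟩ := hr
    exact h.caseA ht h2 h3 hγ h4

end Pool.Agent.Lib.MP_a0c85e_lc
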