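import Pool.Agent.Lib.MP_a0c85e_lc.Main

/-! A tree built from a family of ladders that meets every cofinal set at isolated points. -/

open Cardinal Set Order

namespace Pool.Agent.Lib.MP_a0c85e_lc

universe u

variable {A : Type u} [LinearOrder A]

structure RuleP (K : Type u) (N : Set A) (P : Set A → Prop) (T : A → Set (Set A)) (a : A)
    (X : Set (Set A)) : Prop where
  sub : X ⊆ Br T a
  full : a ∉ N → Br T a ⊆ X
  card : a ∈ N → #X ≤ #K
  good : a ∈ N → ∀ s ∈ X, P s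
  ext : a ∈ N → ∀ b < a, ∀ k, (∃ s ∈ Br T a, P s ∧ s ∩ Iio b = en K (T b) k) →
    ∃ s ∈ X, s ∩ Iio b = en K (T b) k

variable {K : Type u} {N : Set A}

theorem RuleP.congr {P : Set A → Prop} {T T' : A → Set (Set A)} {a : A} {X : Set (Set A)}
    (h : RuleP K N P T a X) (e : ∀ b < a, T b = T' b) : RuleP K N P T' a X := by
  have e1 : Br T a = Br T' a := Set.ext fun s =>
    and_congr_right fun _ => forall₂_congr fun b hb => by rw [e b hb]
  refine ⟨e1 ▸ h.sub, e1 ▸ h.full, h.card, h.good, fun ha b hb k => ?_⟩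
  rw [← e1, ← e b hb]
  exact h.ext ha b hb k

/-- `G` guesses `U` at `b`, and `U` is nowhere dense below `b`. -/
def Hit (K : Type u) (G : A → A → Set K) (T U : A → Set (Set A)) (b : A) : Prop :=
  NWD T U b ∧ ∀ c < b, G b c = en K (T c) ⁻¹' U c

theorem Hit.congr {G : A → A → Set K} {T T' U : A → Set (Set A)} {a : A}
    (e : ∀ b < a, T b = T' b) : Hit K G T U a ↔ Hit K G T' U a := by
  refine and_congr (forall₂_congr fun b hb => ?_) (forall₂_congr fun b hb => by rw [e b hb])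
  rw [e b hb]
  exact forall₂_congr fun x _ => exists_congr fun c => and_congr_right fun hc => by rw [e c hc]

variable [LinearOrder K] {m : Cardinal.{u}}

theorem Setup.exists_ruleP (h : Setup A K m) (P : Set A → Prop) (T : A → Set (Set A)) (a : A) :
    ∃ X, RuleP K N P T a X := by
  by_cases ha : a ∈ N
  swap
  · exact ⟨Br T a, Subset.rfl, fun _ => Subset.rfl, fun h => absurd h ha, fun h => absurd h ha,
      fun h => absurd h ha⟩
  let Q : Iio a × K → Set A → Prop := fun p s =>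
    s ∈ Br T a ∧ P s ∧ s ∩ Iio p.1.1 = en K (T p.1) p.2
  refine ⟨(fun p => Classical.epsilon (Q p)) '' {p | ∃ s, Q p s}, ?_, fun h => absurd ha h,
    fun _ => mk_image_le.trans ((mk_set_le _).trans ?_), fun _ => ?_, fun _ b hb k hs => ?_⟩
  · rintro _ ⟨p, hp, rfl⟩
    exact (Classical.epsilon_spec hp).1
  · rw [← mul_def]
    exact (mul_le_mul_left (h.segA a) _).trans_eq (mul_eq_self h.inf.le)
  · rintro _ ⟨p, hp, rfl⟩
    exact (Classical.epsilon_spec hp).2.1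
  · exact ⟨_, ⟨(⟨b, hb⟩, k), hs, rfl⟩, (Classical.epsilon_spec (p := Q (⟨b, hb⟩, k)) hs).2.2⟩

variable [WellFoundedLT A]

theorem Setup.exists_treeP (h : Setup A K m) (h1 : ∀ a ∉ N, cof (Iio a) ≤ m)
    (h2 : ∀ a ∈ N, m ≤ cof (Iio a)) (P : (A → Set (Set A)) → A → Set A → Prop)
    (hP : ∀ T T' a, (∀ b < a, T b = T' b) → P T a = P T' a)
    (hex : ∀ T a, Nice K N T a → a ∈ N → ∀ ξ < a, ∀ x ∈ T ξ,
      ∃ s ∈ Br T a, P T a s ∧ s ∩ Iio ξ = x) :
    ∃ T : A → Set (Set A), (∀ a, Nice K N T a) ∧ ∀ a ∈ N, ∀ s ∈ T a, P T a s := by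
  classical
  have := h.neK
  obtain ⟨T, hT⟩ := exists_rec (I := A) (β := Set (Set A))
    (fun a T X => RuleP K N (P (fun b => if hb : b < a then T ⟨b, hb⟩ else ∅) a)
      (fun b => if hb : b < a then T ⟨b, hb⟩ else ∅) a X)
    fun a T => h.exists_ruleP _ _ a
  have hR : ∀ a, RuleP K N (P T a) T a (T a) := fun a => by
    have := (hT a).congr (T' := T) fun b hb => dif_pos hb
    rwa [hP _ T a fun b hb => dif_pos hb] at this
  have key : ∀ c, #(T c) ≤ #K ∧ ∀ b ≤ c, ∀ x ∈ T b, ∃ y ∈ T c, y ∩ Iio b = x := fun c => by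
    induction c using WellFoundedLT.induction with
    | ind c ih =>
      have hn : Nice K N T c := ⟨fun b => (hR b).sub, fun b => (hR b).full,
        fun b hb => (ih b hb).1, fun b hb => (ih b hb).2⟩
      refine ⟨?_, fun b hb x hx => ?_⟩
      · by_cases hc : c ∈ N
        · exact (hR c).card hc
        · exact (mk_le_mk_of_subset (hR c).sub).trans (h.card_br hn.card (h1 c hc))
      rcases hb.eq_or_lt with rfl | hb
      · exact ⟨x, hx, inter_eq_left.2 ((hR b).sub hx).1⟩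
      by_cases hc : c ∈ N
      · obtain ⟨k, rfl⟩ := en_spec (hn.card b hb) hx
        exact (hR c).ext hc b hb k (hex T c hn hc b hb _ hx)
      · obtain ⟨s, h3, h4⟩ := hn.branch' (fun σ hσ => (h1 c hc).trans (h2 σ hσ)) hb hx
        exact ⟨s, (hR c).full hc h3, h4⟩
  exact ⟨T, fun a => ⟨fun b => (hR b).sub, fun b => (hR b).full, fun b _ => (key b).1,
    fun b _ => (key b).2⟩, fun a ha => (hR a).good ha⟩

omit [LinearOrder K] in
/-- Climbing along a ladder, taking a node with property `R` whenever there is one. -/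
theorem Nice.climbR {T : A → Set (Set A)} {a : A} (h : Nice K N T a) {I : Type u} [LinearOrder I]
    [WellFoundedLT I] {γ : I → A} (hγ : StrictMono γ) (h1 : ∀ i, γ i < a)
    (hN : ∀ σ < a, Lim (range γ) σ → σ ∉ N) {ξ : A} {x : Set A} (hx : x ∈ T ξ)
    (R : I → Set A → Prop) : ∃ y : I → Set A,
      (∀ i, y i ∈ T (γ i) ∧ (∀ j ≤ i, y i ∩ Iio (γ j) = y j) ∧ y i ∩ Iio ξ = x ∩ Iio (γ i)) ∧
      ∀ i w, w ∈ T (γ i) → (∀ j < i, w ∩ Iio (γ j) = y j) → w ∩ Iio ξ = x ∩ Iio (γ i) →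
        R i w → R i (y i) := by
  classical
  let V : ∀ i : I, (Iio i → Set A) → Set A → Prop := fun i y z =>
    z ∈ T (γ i) ∧ (∀ j : Iio i, z ∩ Iio (γ j) = y j) ∧ z ∩ Iio ξ = x ∩ Iio (γ i)
  obtain ⟨y, hy⟩ := exists_rec (I := I) (β := Set A)
    (fun i y z => ((∃ w, V i y w) → V i y z) ∧ ((∃ w, V i y w ∧ R i w) → R i z)) fun i y => by
      by_cases h2 : ∃ w, V i y w ∧ R i w
      · obtain ⟨w, h3, h4⟩ := h2
        exact ⟨w, fun _ => h3, fun _ => h4⟩
      by_cases h3 : ∃ w, V i y w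
      · obtain ⟨w, h4⟩ := h3
        exact ⟨w, fun _ => h4, fun h5 => absurd h5 h2⟩
      · exact ⟨∅, fun h5 => absurd h5 h3, fun h5 => absurd h5 h2⟩
  refine ⟨y, fun i => ?_, fun i w h2 h3 h4 h5 => (hy i).2 ⟨w, ⟨h2, fun j => h3 j j.2, h4⟩, h5⟩⟩
  induction i using WellFoundedLT.induction with
  | ind i ih =>
    have h2 : V i (fun j => y j) (y i) := by
      refine (hy i).1 ?_
      obtain ⟨z, h4, h5⟩ := h.step (J := Iio i) (γ := fun j => γ j) (fun j k hjk => hγ hjk)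
        (h1 i) (fun j => hγ j.2) (fun σ h4 h5 => hN σ h4 ⟨h5.1, fun b hb => by
          obtain ⟨_, ⟨j, rfl⟩, h6⟩ := h5.2 b hb
          exact ⟨_, ⟨j, rfl⟩, h6⟩⟩) (y := fun j => y j) (fun j => (ih j j.2).1)
        (fun j k hjk => (ih k k.2).2.1 j hjk) hx fun j => (ih j j.2).2.2
      exact ⟨z, h4, h5⟩
    refine ⟨h2.1, fun j hj => ?_, h2.2.2⟩
    rcases hj.eq_or_lt with rfl | hj
    · exact inter_eq_left.2 (h.sub _ h2.1).1
    · exact h2.2.1 ⟨j, hj⟩

variable [WellFoundedLT K]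

/-- Ladders that meet every cofinal set at isolated points give a Souslin tree. -/
theorem Setup.tree_of_hit (h : Setup A K m) (ht : Ordinal.type (α := A) (· < ·) = (succ #K).ord)
    {γ z : A → K → A} {D : A → Set K} (hγ : ∀ a, cof (Iio a) = #K → Ladder (γ a) a)
    (hD : ∀ a, IsCofinal (D a))
    (hz : ∀ a, cof (Iio a) = #K → ∀ j, γ a j ≤ z a j ∧ ∀ j' ∈ D a, j < j' → z a j < γ a j')
    (hX : ∀ X : Set A, IsCofinal X → ∃ a, cof (Iio a) = #K ∧
      ∀ i, ∃ j ∈ D a, i ≤ j ∧ γ a j < z a j ∧ z a j ∈ X) :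
    ∃ T : A → Set (Set A), IsSouslin #K (Node T) := by
  classical
  obtain ⟨G, hG⟩ := h.diamond (stat_cof h.reg (h.lt.trans h.cofA)) fun b hb => hb
  have h2 : ∀ a ∈ {a : A | cof (Iio a) = #K}, m ≤ cof (Iio a) := fun a ha =>
    h.lt.le.trans (Eq.ge ha)
  have hlt : ∀ a, cof (Iio a) = #K → ∀ j, z a j < a := fun a ha j => by
    obtain ⟨i, hi⟩ := h.exists_gtK j
    obtain ⟨d, h3, h4⟩ := hD a i
    exact ((hz a ha j).2 d h3 (hi.trans_le h4)).trans ((hγ a ha).lt d)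
  obtain ⟨T, h3, h4⟩ := h.exists_treeP (N := {a | cof (Iio a) = #K}) (fun a ha => h.cof_le ha) h2
    (fun T a s => ∀ U, (∀ i, ∃ j ∈ D a, i ≤ j ∧ γ a j < z a j ∧ z a j < a ∧ Hit K G T U (z a j)) →
      ∃ b < a, s ∩ Iio b ∉ U b)
    (fun T T' a e => funext fun s => propext (forall_congr' fun U => imp_congr_left
      (forall_congr' fun i => exists_congr fun j => and_congr_right fun _ =>
        and_congr_right fun _ => and_congr_right fun _ => and_congr_right fun h5 =>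
          Hit.congr fun b hb => e b (hb.trans h5))))
    fun T a hT ha ξ hξ x hx => by
      have hl := hγ a ha
      have hm : StrictMono fun j : D a => z a j := fun j j' hj =>
        ((hz a ha j).2 j' j'.2 hj).trans_le (hz a ha j').1
      have hc : ∀ b < a, ∃ j : D a, b ≤ z a j := fun b hb => by
        obtain ⟨i, hi⟩ := hl.cof b hb
        obtain ⟨d, h3, h4⟩ := hD a i
        exact ⟨⟨d, h3⟩, hi.trans ((hl.mono.monotone h4).trans (hz a ha d).1)⟩
      obtain ⟨y, h3, h4⟩ := hT.climbR hm (fun j => hlt a ha j) (fun σ hσ h3 h4 => by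
        obtain ⟨i, hi⟩ := hl.cof σ hσ
        refine h.lt.not_ge ((Eq.ge h4).trans (h3.cof_le.trans (le_trans ?_ (h.segK i))))
        refine (mk_le_mk_of_subset (t := z a '' Iio i) ?_).trans mk_image_le
        rintro _ ⟨⟨j, rfl⟩, hj⟩
        exact ⟨j, hl.mono.lt_iff_lt.1 ((hz a ha j).1.trans_lt (lt_of_lt_of_le hj hi)), rfl⟩) hx
        fun j w => ∃ c < z a j, w ∩ Iio c ∉ en K (T c) '' G (z a j) c
      obtain ⟨h6, h7, h8⟩ := hT.top (γ := fun j : D a => z a j) (fun j => hlt a ha j) hc hξ hx h3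
      refine ⟨_, h6, fun U hU => ?_, h7⟩
      obtain ⟨i, hi⟩ := hl.cof ξ hξ
      obtain ⟨j, hj, h9, h10, h11, h12, h13⟩ := hU i
      have h14 : ξ ≤ γ a j := hi.trans (hl.mono.monotone h9)
      obtain ⟨c, hc1, hc2, w, hw, hw1, hw2⟩ := h12 _ h10 _ (down hT.sub h10.le (h3 ⟨j, hj⟩).1)
      obtain ⟨v, hv, hv1⟩ := hT.norm _ h11 c hc1.le w hw
      have e : v ∩ Iio (γ a j) = y ⟨j, hj⟩ ∩ Iio (γ a j) := by rw [← inter_Iio hc2, hv1, hw1]
      obtain ⟨b, hb, h15⟩ := h4 ⟨j, hj⟩ v hv (fun k hk => by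
          have h15 : z a k ≤ γ a j := ((hz a ha k).2 j hj hk).le
          rw [← inter_Iio h15, e, inter_Iio h15]
          exact (h3 ⟨j, hj⟩).2.1 k hk.le)
        (by rw [← inter_Iio h14, e, inter_Iio h14]; exact (h3 ⟨j, hj⟩).2.2)
        ⟨c, hc1, by
          rw [hv1, h13 c hc1]
          exact fun h15 => hw2 (image_preimage_subset _ _ h15)⟩
      refine ⟨b, hb.trans h11, fun h16 => h15 ?_⟩
      have hb' : b < z a j := hb
      rw [← inter_Iio hb'.le, h8 ⟨j, hj⟩] at h16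
      obtain ⟨k, hk⟩ := en_spec (hT.card b (hb'.trans h11)) (down hT.sub hb'.le (h3 ⟨j, hj⟩).1)
      refine ⟨k, ?_, hk⟩
      rw [h13 b hb', mem_preimage, hk]
      exact h16
  refine ⟨T, h.souslin ht h2 h3 fun U hU hU' => ?_⟩
  have h5 : ∀ b, ∃ d, ∀ x ∈ T b, ∃ c < d, b ≤ c ∧ ∃ w ∈ T c, w ∩ Iio b = x ∧ w ∉ U c := by
    intro b
    obtain ⟨b', hb'⟩ := h.exists_gt b
    choose c hc using fun x : T b => hU' b x x.2
    obtain ⟨d, hd⟩ := bdd_of_small (s := range c)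
      (mk_range_le.trans_lt (((h3 b').card b hb').trans_lt h.cofA))
    exact ⟨d, fun x hx => ⟨c ⟨x, hx⟩, hd _ ⟨_, rfl⟩, hc ⟨x, hx⟩⟩⟩
  choose g hg using h5
  obtain ⟨a, ha, h6⟩ := hX {b | Hit K G T U b} fun b => by
    have hne : cof A ≠ ℵ₀ := (h.inf.trans h.cofA).ne'
    obtain ⟨c, h6, h7, h8⟩ := hG (fun b => en K (T b) ⁻¹' U b) ((h.club g).inter hne
      (t := Ici b) ⟨fun s hs ⟨e, he⟩ _ x hx => (hs he).trans (hx.1 he),
        fun e => ⟨max e b, le_max_right _ _, le_max_left _ _⟩⟩)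
    refine ⟨c, ⟨fun d hd x hx => ?_, h6.2⟩, h8⟩
    obtain ⟨e, h9, h10⟩ := hg d x hx
    exact ⟨e, h9.trans (h7 d hd), h10⟩
  refine ⟨a, fun s hs h7 => ?_⟩
  obtain ⟨b, hb, h8⟩ := h4 a ha s hs U fun i => by
    obtain ⟨j, h8, h9, h10, h11⟩ := h6 i
    exact ⟨j, h8, h9, h10, hlt a ha j, h11⟩
  exact h8 (hU b a hb.le s h7)

end Pool.Agent.Lib.MP_a0c85e_lc
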