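import Pool.Agent.Lib.MP_a0c85e_lc.Defs

/-! Normal closed Aronszajn trees and club embeddings. -/

open Cardinal Set

namespace Pool.Agent.Lib.MP_a0c85e_lc

universe u

/-- `T` is a normal `k`-closed Aronszajn tree of height the successor of `k`. -/
structure IsClosedAronszajn (k : Cardinal.{u}) (T : Type u) [PartialOrder T] [WellFoundedLT T] :
    Prop where
  tree : ∀ t : T, IsChain (· ≤ ·) (Iio t)
  height_lt : ∀ t : T, height t < (Order.succ k).ord
  level_small : ∀ o : Ordinal.{u}, #{t : T | height t = o} ≤ k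
  chain : ∀ C : Set T, IsChain (· ≤ ·) C → #C ≠ Order.succ k
  root : ∃ r : T, ∀ t, r ≤ t
  extend : ∀ (t : T) (o : Ordinal.{u}), height t ≤ o → o < (Order.succ k).ord →
    ∃ s, t ≤ s ∧ height s = o
  split : ∀ t : T, ∃ s s', t ⋖ s ∧ t ⋖ s' ∧ s ≠ s'
  limit : ∀ s t : T, Iio s = Iio t → (∀ p < s, ∃ r, p < r ∧ r < s) → s = t
  closed : ∀ C : Set T, IsChain (· ≤ ·) C → #C < k → BddAbove C

/-- The nodes of `U` on a club of levels embed into `T₀`, preserving order and height. -/
def ClubEmbeds (k : Cardinal.{u}) {T : Type u} [PartialOrder T] [WellFoundedLT T] (U : Set T)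
    (T₀ : Type u) [PartialOrder T₀] [WellFoundedLT T₀] : Prop :=
  ∃ (C : Set (Order.succ k).ord.ToType) (f : T → T₀), IsClub C ∧
    InjOn f {t ∈ U | ∃ c ∈ C, height t = height c} ∧
    StrictMonoOn f {t ∈ U | ∃ c ∈ C, height t = height c} ∧
    ∀ t ∈ U, (∃ c ∈ C, height t = height c) → height (f t) = height t

end Pool.Agent.Lib.MP_a0c85e_lc
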