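import Pool.Agent.Lib.MP_a0c85e_lc.H1Club

/-! Branches that evade small sets of nodes. -/

open Cardinal Set Order

namespace Pool.Agent.Lib.MP_a0c85e_lc

universe u

variable {A K : Type u} [LinearOrder A] [LinearOrder K] [WellFoundedLT A] [WellFoundedLT K]
  {m : Cardinal.{u}}

omit [WellFoundedLT A] [WellFoundedLT K] in
theorem Setup.neK0 (h : Setup A K m) : cof K ≠ ℵ₀ := by
  rw [h.cofK, ← h.cardK]
  exact h.inf.ne'

omit [WellFoundedLT A] in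
/-- Kunen: if diamond fails then it fails for small families of guesses. -/
theorem Setup.kunen (h : Setup A K m)
    (hW : ∀ W : K → Set K, ∃ X, ¬ IsStationary {d : K | cof (Iio d) = m ∧ X ∩ Iio d = W d})
    (W : K → Set (Set K)) (hc : ∀ d, #(W d) ≤ m) :
    ∃ X, ¬ IsStationary {d : K | cof (Iio d) = m ∧ X ∩ Iio d ∈ W d} := by
  have h1 : ∀ d, ∃ w : m.out → Set K, W d ⊆ range w := fun d => by
    rcases (W d).eq_empty_or_nonempty with e | ⟨s, hs⟩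
    · exact ⟨fun _ => ∅, by simp [e]⟩
    have : Nonempty (W d) := ⟨⟨s, hs⟩⟩
    obtain ⟨e, he⟩ := exists_surj (X := m.out) (Y := W d) (by rw [mk_out]; exact hc d)
    refine ⟨fun n => e n, fun t ht => ?_⟩
    obtain ⟨n, hn⟩ := he ⟨t, ht⟩
    exact ⟨n, by simp only [hn]⟩
  choose w hw using h1
  obtain ⟨p⟩ : Nonempty (m.out × K ↪ K) := by
    rw [← Cardinal.le_def, ← mul_def, mk_out]
    exact (mul_le_mul_left h.lt.le _).trans_eq (mul_eq_self h.inf.le)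
  have h2 : ∀ j : K, ∃ g, ∀ n, p (n, j) < g := fun j => by
    obtain ⟨g, hg⟩ := bdd_of_small (s := range fun n => p (n, j))
      (mk_range_le.trans_lt (by rw [mk_out, h.cofK]; exact lt_succ m))
    exact ⟨g, fun n => hg _ ⟨n, rfl⟩⟩
  choose g hg using h2
  choose X hX using fun n => hW fun d => {j | j < d ∧ p (n, j) ∈ w d n}
  choose D hD hD' using fun n => not_isStationary_iff.1 (hX n)
  refine ⟨{k | ∃ n j, p (n, j) = k ∧ j ∈ X n}, fun hs => ?_⟩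
  obtain ⟨d, ⟨h3, h4⟩, h5, h6⟩ := hs ((h.clubK g).inter h.neK0
    (IsClub.iInter h.neK0 (by simp [h.cofK]) hD))
  obtain ⟨n, hn⟩ := hw d h4
  refine disjoint_left.1 (hD' n) ⟨h3, Set.ext fun j => ?_⟩ (mem_iInter.1 h6 n)
  rw [mem_ofPred_eq, hn]
  constructor
  · rintro ⟨h7, h8⟩
    exact ⟨h8, ⟨n, j, rfl, h7⟩, (hg j n).trans (h5 j h8)⟩
  · rintro ⟨h7, ⟨n', j', h8, h9⟩, -⟩
    obtain ⟨rfl, rfl⟩ := Prod.mk.inj (p.injective h8)
    exact ⟨h9, h7⟩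

variable {N : Set A} {T : A → Set (Set A)} {a : A}

omit [LinearOrder K] [WellFoundedLT K] in
/-- Every node has both one point extensions, continued to any higher level. -/
theorem Nice.bit (hT : Nice K N T a) (hN : ∀ σ ∈ N, 1 < cof (Iio σ)) {b c : A} (hb : b < c)
    (hc : c < a) {x : Set A} (hx : x ∈ T b) (P : Prop) :
    ∃ w ∈ T c, w ∩ Iio b = x ∧ (b ∈ w ↔ P) := by
  classical
  obtain ⟨e, he, he'⟩ := exists_succ hb
  have h1 : e ≤ c := not_lt.1 fun h => ((he' c).1 h).not_gt hb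
  have h3 : e ∉ N := fun h3 => by
    have h4 := (cof_Iio_le (s := {b}) (a := e) fun f hf => ⟨b, rfl, (he' f).1 hf, he⟩).trans
      (mk_le_mk_of_subset inter_subset_left)
    rw [mk_singleton] at h4
    exact h4.not_gt (hN e h3)
  have hx' := (hT.sub _ hx).1
  have h4 : ∀ w : Set A, w ⊆ Iio e → w ∩ Iio b = x → w ∈ T e := fun w h4 h5 =>
    hT.full e h3 ⟨h4, fun f hf => by
      rw [← inter_Iio ((he' f).1 hf), h5]
      exact down hT.sub ((he' f).1 hf) hx⟩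
  have h5 : (x ∪ {f | f = b ∧ P}) ∩ Iio b = x := by
    refine Subset.antisymm ?_ fun f hf => ⟨Or.inl hf, hx' hf⟩
    rintro f ⟨h5 | h5, h6⟩
    exacts [h5, absurd h6 (h5.1 ▸ lt_irrefl _)]
  obtain ⟨w, hw, h6⟩ := hT.norm c hc e h1 _ (h4 (x ∪ {f | f = b ∧ P}) (by
    rintro f (hf | hf)
    exacts [(hx' hf).trans he, hf.1 ▸ he]) h5)
  refine ⟨w, hw, by rw [← inter_Iio he.le, h6, h5], fun h7 => ?_, fun h7 => ?_⟩
  · rcases h6.le ⟨h7, he⟩ with h8 | h8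
    exacts [absurd (hx' h8) (lt_irrefl b), h8.2]
  · exact (h6.ge (Or.inr ⟨rfl, h7⟩)).1

omit [LinearOrder K] [WellFoundedLT K] in
/-- A branch that codes a given set along a ladder. -/
theorem Nice.coded (hT : Nice K N T a) (hN : ∀ σ ∈ N, 1 < cof (Iio σ)) {I : Type u}
    [LinearOrder I] [WellFoundedLT I] {γ : I → A} (hγ : StrictMono γ) (h1 : ∀ i, γ i < a)
    (h2 : ∀ b < a, ∃ i, b ≤ γ i) (h3 : ∀ i : I, ∃ j, i < j)
    (hL : ∀ σ < a, Lim (range γ) σ → σ ∉ N) {ξ : A} (hξ : ξ < a) {x : Set A} (hx : x ∈ T ξ)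
    (X : Set I) : ∃ s ∈ Br T a, s ∩ Iio ξ = x ∧ ∀ i, ξ ≤ γ i → (γ i ∈ s ↔ i ∈ X) := by
  obtain ⟨y, h4, h5⟩ := hT.climbR hγ h1 hL hx
    fun i w => ∀ j, (∀ k, k < i ↔ k ≤ j) → (γ j ∈ w ↔ j ∈ X)
  obtain ⟨h6, h7, h8⟩ := hT.top h1 h2 hξ hx h4
  refine ⟨_, h6, h7, fun j hj => ?_⟩
  obtain ⟨j', hj'⟩ := h3 j
  obtain ⟨i, hi, hi'⟩ := exists_succ hj'
  obtain ⟨w, hw, h9, h10⟩ := hT.bit hN (hγ hi) (h1 i) (h4 j).1 (j ∈ X)
  have hx' := (hT.sub _ hx).1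
  have h11 := h5 i w hw (fun k hk => by
      have h11 := (hi' k).1 hk
      rw [← inter_Iio (hγ.monotone h11), h9, (h4 j).2.1 k h11])
    (by rw [← inter_Iio hj, h9, (h4 j).2.2, inter_eq_left.2 (hx'.trans (Iio_subset_Iio hj)),
      inter_eq_left.2 (hx'.trans (Iio_subset_Iio (hj.trans (hγ hi).le)))])
    (fun k hk => by
      obtain rfl : k = j := le_antisymm ((hi' k).1 ((hk k).2 le_rfl)) ((hk j).1 hi)
      exact h10) j hi'
  rw [← h11, ← h8 i]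
  exact ⟨fun h => ⟨h, hγ hi⟩, fun h => h.1⟩

omit [WellFoundedLT A] [WellFoundedLT K] in
theorem Setup.ladder_lim (h : Setup A K m) {γ : K → A} (hl : Ladder γ a) {σ : A} (hσ : σ < a)
    (h3 : Lim (range γ) σ) : cof (Iio σ) ≠ #K := fun h4 => by
  obtain ⟨i, hi⟩ := hl.cof σ hσ
  refine h.lt.not_ge ((Eq.ge h4).trans (h3.cof_le.trans (le_trans ?_ (h.segK i))))
  refine (mk_le_mk_of_subset (t := γ '' Iio i) ?_).trans mk_image_le
  rintro _ ⟨⟨j, rfl⟩, hj⟩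
  exact ⟨j, hl.mono.lt_iff_lt.1 (lt_of_lt_of_le hj hi), rfl⟩

/-- If diamond fails, some branch evades small sets of nodes on a club. -/
theorem Setup.evade (h : Setup A K m)
    (hW : ∀ W : K → Set K, ∃ X, ¬ IsStationary {d : K | cof (Iio d) = m ∧ X ∩ Iio d = W d})
    (hT : Nice K {a | cof (Iio a) = #K} T a) {γ : K → A} (hl : Ladder γ a)
    (W : K → Set (Set A)) (hc : ∀ d, #(W d) ≤ m) {ξ : A} (hξ : ξ < a) {x : Set A} (hx : x ∈ T ξ) :
    ∃ s ∈ Br T a, ¬ IsStationary {d : K | cof (Iio d) = m ∧ s ∩ Iio (γ d) ∈ W d} ∧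
      s ∩ Iio ξ = x := by
  obtain ⟨i0, hi0⟩ := hl.cof ξ hξ
  obtain ⟨r, hr⟩ := exists_rec (I := K) (β := K) (fun i r x => i0 < x ∧ ∀ j, r j < x) fun i r => by
    obtain ⟨b, hb⟩ := bdd_of_small (s := range r)
      (mk_range_le.trans_lt (by rw [h.cofK]; exact (h.segK i).trans_lt (lt_succ m)))
    obtain ⟨c, hc⟩ := h.exists_gtK i0
    exact ⟨max b c, lt_max_of_lt_right hc, fun j => lt_max_of_lt_left (hb _ ⟨j, rfl⟩)⟩
  have h1 : StrictMono r := fun i j hij => (hr j).2 ⟨i, hij⟩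
  obtain ⟨X, hX⟩ := h.kunen hW (fun d => (fun w => {j | j < d ∧ γ (r j) ∈ w}) '' W d)
    fun d => mk_image_le.trans (hc d)
  obtain ⟨s, h2, h3, h4⟩ := hT.coded (fun σ hσ => (one_lt_aleph0.trans h.inf).trans_eq (Eq.symm hσ))
    hl.mono hl.lt hl.cof h.exists_gtK (fun σ hσ h3 => h.ladder_lim hl hσ h3) hξ hx (r '' X)
  refine ⟨s, h2, fun hs => hX fun D hD => ?_, h3⟩
  obtain ⟨d, ⟨h5, h6⟩, h7, h8⟩ := hs ((h.clubK r).inter h.neK0 hD)
  refine ⟨d, ⟨h5, _, h6, Set.ext fun j => ?_⟩, h8⟩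
  have h9 := h4 (r j) (hi0.trans (hl.mono (hr j).1).le)
  rw [h1.injective.mem_set_image] at h9
  exact ⟨fun h => ⟨h9.1 h.2.1, h.1⟩, fun h => ⟨h.2, h9.2 h.1, hl.mono (h7 j h.2)⟩⟩

end Pool.Agent.Lib.MP_a0c85e_lc
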