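import Pool.Agent.Lib.MP_a0c85e_lc.H36Evade

/-! A tree whose branches leave the guessed preimages of the threads of a given tree. -/

open Cardinal Set Order

namespace Pool.Agent.Lib.MP_a0c85e_lc

universe u

variable {A K : Type u} [LinearOrder A]

/-- The guess at `b` sends the restrictions of `s` into the thread `J`. -/
def Mt (q : K × K → K) (G : A → A → Set K) (T : A → Set (Set A)) (J : A → Set K) (b : A)
    (s : Set A) : Prop :=
  s ⊆ Iio b ∧ ∀ c < b, (G b c).Nonempty →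
    ∃ k, ∃ k' ∈ J c, en K (T c) k = s ∩ Iio c ∧ q (k, k') ∈ G b c

/-- The only set that matches, if there is exactly one. -/
def Bad (q : K × K → K) (G : A → A → Set K) (T : A → Set (Set A)) (J : A → Set K) (b : A) :
    Set (Set A) := {s | Mt q G T J b s ∧ ∀ s', Mt q G T J b s' → s' = s}

variable {q : K × K → K} {G : A → A → Set K} {Θ : A → K → A → Set K}

theorem Bad.congr {T T' : A → Set (Set A)} {J J' : A → Set K} {b : A}
    (e : ∀ c < b, T c = T' c) (e' : ∀ c < b, J c = J' c) : Bad q G T J b = Bad q G T' J' b := by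
  have : Mt q G T J b = Mt q G T' J' b := funext fun s => propext (and_congr_right fun _ =>
    forall₂_congr fun c hc => by rw [e c hc, e' c hc])
  simp only [Bad, this]

theorem card_bad {m : Cardinal.{u}} (T : A → Set (Set A)) (J : K → A → Set K)
    (b : A) {V : Set K} (hV : #V ≤ m) : #{s | ∃ j ∈ V, s ∈ Bad q G T (J j) b} ≤ m := by
  have h1 : ∀ s : {s | ∃ j ∈ V, s ∈ Bad q G T (J j) b}, ∃ j : V, s.1 ∈ Bad q G T (J j) b :=
    fun s => by
      obtain ⟨j, h1, h2⟩ := s.2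
      exact ⟨⟨j, h1⟩, h2⟩
  choose f hf using h1
  refine (mk_le_of_injective (f := f) fun s t e => Subtype.ext ?_).trans hV
  exact (hf t).2 _ (e ▸ (hf s).1)

/-- Every node of a suitable level leaves the guessed preimage of every thread. -/
def Ev (q : K × K → K) (G : A → A → Set K) (Θ : A → K → A → Set K) (T : A → Set (Set A)) : Prop :=
  ∀ (F : A → Set K) (C : Set A), IsClub C → ∃ a ∈ C, ∀ s ∈ T a, ∀ j, ∃ b < a,
    (∀ c < b, G b c = F c) ∧ Lim C b ∧ s ∩ Iio b ∉ Bad q G T (Θ a j) b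

variable [LinearOrder K] [WellFoundedLT A] {m : Cardinal.{u}}

omit [WellFoundedLT A] in
theorem Setup.neA0 (h : Setup A K m) : cof A ≠ ℵ₀ := (h.inf.trans h.cofA).ne'

theorem Setup.stat_lim (h : Setup A K m) {S C : Set A} (hS : IsStationary S)
    (hC : IsCofinal C) : IsStationary (S ∩ {b | Lim C b}) := fun D hD => by
  have h1 : ∀ b, ∃ c ∈ C, b < c := fun b => by
    obtain ⟨c, hc⟩ := h.exists_gt b
    obtain ⟨d, h1, h2⟩ := hC c
    exact ⟨d, h1, hc.trans_le h2⟩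
  choose g hg hg' using h1
  obtain ⟨z⟩ := h.neA
  obtain ⟨b, h2, ⟨h3, h4⟩, h5⟩ := hS (((h.club g).inter h.neA0 (t := Ici (g z))
    ⟨fun s hs ⟨e, he⟩ _ x hx => (hs he).trans (hx.1 he),
      fun e => ⟨max e (g z), le_max_right _ _, le_max_left _ _⟩⟩).inter h.neA0 hD)
  exact ⟨b, ⟨h2, ⟨z, (hg' z).trans_le h4⟩, fun c hc => ⟨g c, hg c, hg' c, h3 c hc⟩⟩, h5⟩

variable [WellFoundedLT K]

/-- The case of reflection. -/
theorem Setup.farB (h : Setup A K m) (q : K × K → K) (Θ : A → K → A → Set K)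
    {γ : A → K → A} (hγ : ∀ a, cof (Iio a) = #K → Ladder (γ a) a)
    (hr : ∀ S : Set A, IsStationary S → (∀ b ∈ S, cof (Iio b) = m) →
      ∃ a, cof (Iio a) = #K ∧ IsStationary {d : K | cof (Iio d) = m ∧ γ a d ∈ S})
    (hW : ∀ W : K → Set K, ∃ X, ¬ IsStationary {d : K | cof (Iio d) = m ∧ X ∩ Iio d = W d}) :
    ∃ G T, (∀ a, Nice K {a | cof (Iio a) = #K} T a) ∧ Ev q G Θ T := by
  obtain ⟨G, hG⟩ := h.diamond (stat_cof h.reg (h.lt.trans h.cofA)) fun b hb => hb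
  obtain ⟨T, h3, h4⟩ := h.exists_treeP (N := {a | cof (Iio a) = #K}) (fun a ha => h.cof_le ha)
    (fun a ha => h.lt.le.trans (Eq.ge ha))
    (fun T a s => ¬ IsStationary {d : K | cof (Iio d) = m ∧ γ a d < a ∧
      ∃ j ∈ Iio d, s ∩ Iio (γ a d) ∈ Bad q G T (Θ a j) (γ a d)})
    (fun T T' a e => funext fun s => congrArg (fun X => ¬ IsStationary X) (Set.ext fun d =>
      and_congr_right fun _ => and_congr_right fun h5 => exists_congr fun j => by
        rw [Bad.congr (fun c hc => e c (hc.trans h5)) fun _ _ => rfl]))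
    fun T a hT ha ξ hξ x hx => by
      obtain ⟨s, h3, h4, h5⟩ := h.evade hW hT (hγ a ha) _
        (fun d => card_bad (q := q) (G := G) T (Θ a) (γ a d) (h.segK d)) hξ hx
      exact ⟨s, h3, fun h6 => h4 (h6.mono fun d hd => ⟨hd.1, hd.2.2⟩), h5⟩
  refine ⟨G, T, h3, fun F C hC => ?_⟩
  obtain ⟨a, h5, h6⟩ := hr _ (h.stat_lim (hG F) hC.isCofinal) fun b hb => hb.1.1
  have hl := hγ a h5
  have h7 : ∀ j, IsStationary ({d : K | cof (Iio d) = m ∧ γ a d ∈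
      {b | cof (Iio b) = m ∧ ∀ c < b, G b c = F c} ∩ {b | Lim C b}} ∩ Ioi j) := fun j D hD => by
    obtain ⟨d, h7, h8, h9⟩ := h6 ((h.club_Ioi j).inter h.neK0 hD)
    exact ⟨d, ⟨h7, h8⟩, h9⟩
  obtain ⟨j0⟩ := h.neK
  refine ⟨a, Lim.mem ⟨⟨_, hl.lt j0⟩, fun b hb => ?_⟩ hC, fun s hs j => ?_⟩
  · obtain ⟨i, hi⟩ := hl.cof b hb
    obtain ⟨d, h8, h9⟩ := (h7 i).nonempty
    obtain ⟨c, h10, h11, h12⟩ := h8.2.2.2 b (hi.trans_lt (hl.mono h9))
    exact ⟨c, h10, h11, h12.trans (hl.lt d)⟩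
  by_contra! h8
  exact h4 a h5 s hs ((h7 j).mono fun d hd =>
    ⟨hd.1.1, hl.lt d, j, hd.2, h8 _ (hl.lt d) hd.1.2.1.2 hd.1.2.2⟩)

omit [WellFoundedLT A] in
/-- Limit points of the image of a club that misses the trace of `S`. -/
theorem lim_avoid {S : Set A} (hm : ∀ b ∈ S, cof (Iio b) = m) {a : A}
    {γ : K → A} (hl : Ladder γ a) {D : Set K} (hD : IsClub D)
    (hD' : Disjoint {d : K | cof (Iio d) = m ∧ γ d ∈ S} D) {σ : A} (hσ : σ < a)
    (h3 : Lim (γ '' D) σ) : σ ∉ S := fun h4 => by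
  obtain ⟨i, hi⟩ := hl.cof σ hσ
  obtain ⟨d, hd⟩ := exists_lub (s := {j | γ j < σ}) (b := i)
    fun j hj => (hl.mono.lt_iff_lt.1 (lt_of_lt_of_le hj hi)).le
  have h5 : ∀ j, γ j < σ → ∃ e ∈ D, j < e ∧ γ e < σ := fun j hj => by
    obtain ⟨_, ⟨e, h5, rfl⟩, h6, h7⟩ := h3.2 _ hj
    exact ⟨e, h5, hl.mono.lt_iff_lt.1 h6, h7⟩
  have h6 : ¬ γ d < σ := fun h6 => by
    obtain ⟨e, -, h7, h8⟩ := h5 d h6
    exact (hd.1 h8).not_gt h7
  obtain ⟨b, hb⟩ := h3.1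
  obtain ⟨_, ⟨e, -, rfl⟩, -, he⟩ := h3.2 b hb
  have h7 := lim_of_lub hd h6 ⟨e, he⟩
  have h8 : Lim D d := ⟨h7.1, fun j hj => by
    obtain ⟨k, h8, h9, -⟩ := h7.2 j hj
    obtain ⟨e, h10, h11, h12⟩ := h5 k h8
    exact ⟨e, h10, h9.trans h11, (hd.1 h12).lt_of_ne fun e' => h6 (e' ▸ h12)⟩⟩
  have h9 : Lim univ d := ⟨h7.1, fun j hj => by
    obtain ⟨k, -, h9⟩ := h7.2 j hj
    exact ⟨k, mem_univ _, h9⟩⟩
  have h10 : γ d = σ := le_antisymm (not_lt.1 fun h10 => by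
    obtain ⟨j, h11, h12⟩ := hl.cont d h9 σ h10
    obtain ⟨k, h13, h14, -⟩ := h7.2 j h11
    exact (h12.trans (hl.mono h14)).not_gt h13) (not_lt.1 h6)
  have h11 := hl.cof_eq h9
  rw [h10] at h11
  exact disjoint_left.1 hD' ⟨h11.symm.trans (hm σ h4), h10 ▸ h4⟩ (h8.mem hD)

end Pool.Agent.Lib.MP_a0c85e_lc
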