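import Pool.Agent.Lib.MP_a0c85e_lc.H36Far

/-! The case of a stationary set that does not reflect. -/

open Cardinal Set Order

namespace Pool.Agent.Lib.MP_a0c85e_lc

universe u

variable {A K : Type u} [LinearOrder A] [LinearOrder K] [WellFoundedLT A] {m : Cardinal.{u}}

theorem Setup.exists_treeQ (h : Setup A K m) (N : Set A) (P : (A → Set (Set A)) → A → Set A → Prop)
    (Q : (A → Set (Set A)) → A → A → K → Set A → Prop)
    (hP : ∀ T T' a, (∀ b < a, T b = T' b) → P T a = P T' a)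
    (hQ : ∀ T T' a, (∀ b < a, T b = T' b) → Q T a = Q T' a) :
    ∃ T : A → Set (Set A), ∀ a, T a ⊆ Br T a ∧ (a ∉ N → Br T a ⊆ T a) ∧ (a ∈ N → #(T a) ≤ #K) ∧
      (a ∈ N → ∀ s ∈ T a, P T a s) ∧ (a ∈ N → ∀ b < a, ∀ k n,
        (∃ s ∈ Br T a, P T a s ∧ Q T a b n s ∧ s ∩ Iio b = en K (T b) k) →
        ∃ s ∈ T a, Q T a b n s ∧ s ∩ Iio b = en K (T b) k) := by
  classical
  let R : (A → Set (Set A)) → A → Set (Set A) → Prop := fun T a X =>
    X ⊆ Br T a ∧ (a ∉ N → Br T a ⊆ X) ∧ (a ∈ N → #X ≤ #K) ∧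
      (a ∈ N → ∀ s ∈ X, P T a s) ∧ (a ∈ N → ∀ b < a, ∀ k n,
        (∃ s ∈ Br T a, P T a s ∧ Q T a b n s ∧ s ∩ Iio b = en K (T b) k) →
        ∃ s ∈ X, Q T a b n s ∧ s ∩ Iio b = en K (T b) k)
  have h1 : ∀ T a, ∃ X, R T a X := fun T a => by
    by_cases ha : a ∈ N
    swap
    · exact ⟨Br T a, Subset.rfl, fun _ => Subset.rfl, fun h => absurd h ha, fun h => absurd h ha,
        fun h => absurd h ha⟩
    let Z : Iio a × K × K → Set A → Prop := fun p s =>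
      s ∈ Br T a ∧ P T a s ∧ Q T a p.1 p.2.2 s ∧ s ∩ Iio p.1.1 = en K (T p.1) p.2.1
    refine ⟨(fun p => Classical.epsilon (Z p)) '' {p | ∃ s, Z p s}, ?_, fun h => absurd ha h,
      fun _ => mk_image_le.trans ((mk_set_le _).trans ?_), fun _ => ?_, fun _ b hb k n hs => ?_⟩
    · rintro _ ⟨p, hp, rfl⟩
      exact (Classical.epsilon_spec hp).1
    · rw [← mul_def, ← mul_def, mul_eq_self h.inf.le]
      exact (mul_le_mul_left (h.segA a) _).trans_eq (mul_eq_self h.inf.le)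
    · rintro _ ⟨p, hp, rfl⟩
      exact (Classical.epsilon_spec hp).2.1
    · exact ⟨_, ⟨(⟨b, hb⟩, k, n), hs, rfl⟩,
        (Classical.epsilon_spec (p := Z (⟨b, hb⟩, k, n)) hs).2.2⟩
  obtain ⟨T, hT⟩ := exists_rec (I := A) (β := Set (Set A))
    (fun a T X => R (fun b => if hb : b < a then T ⟨b, hb⟩ else ∅) a X) fun a T => h1 _ a
  refine ⟨T, fun a => ?_⟩
  have e : ∀ b < a, (fun b => if hb : b < a then T b else ∅) b = T b := fun b hb => dif_pos hb
  have e1 : Br (fun b => if hb : b < a then T b else ∅) a = Br T a := Set.ext fun s =>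
    and_congr_right fun _ => forall₂_congr fun b hb => by rw [e b hb]
  obtain ⟨h2, h3, h4, h5, h6⟩ := hT a
  rw [e1] at h2 h3 h6
  rw [hP _ T a e] at h5 h6
  rw [hQ _ T a e] at h6
  refine ⟨h2, h3, h4, h5, fun ha b hb k n => ?_⟩
  have := h6 ha b hb k n
  rwa [e b hb] at this

variable {q : K × K → K} {G : A → A → Set K} {Θ : A → K → A → Set K} {S N : Set A}
  {T : A → Set (Set A)} {a : A}

/-- Above `b`, up to `c`, the set `s` leaves the bad sets of the threads in `V`. -/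
def Av (q : K × K → K) (G : A → A → Set K) (Θ : A → K → A → Set K) (S : Set A)
    (T : A → Set (Set A)) (a : A) (V : A → Set K) (b c : A) (s : Set A) : Prop :=
  ∀ β ∈ S, b < β → β ≤ c → ∀ j ∈ V β, s ∩ Iio β ∉ Bad q G T (Θ a j) β

/-- The inductive hypothesis. -/
def IH (m : Cardinal.{u}) (q : K × K → K) (G : A → A → Set K) (Θ : A → K → A → Set K) (S : Set A)
    (T : A → Set (Set A)) (c : A) : Prop :=
  ∀ V : Set K, #V ≤ m → ∀ b ≤ c, ∀ x ∈ T b, ∃ s ∈ T c, s ∩ Iio b = x ∧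
    Av q G Θ S T c (fun _ => V) b c s

omit [LinearOrder K] [WellFoundedLT A] in
theorem Nice.avoid (hT : Nice K N T a) (ih : ∀ c < a, IH m q G Θ S T c)
    (coh : ∀ c < a, ∀ j, ∃ j', ∀ e < c, Θ a j e = Θ c j' e) {V : A → Set K}
    (hV : ∀ c < a, ∃ V' : Set K, #V' ≤ m ∧ ∀ β ≤ c, V β ⊆ V') (b : A) :
    Nice K (N ∪ S) (fun c => {s ∈ T c | Av q G Θ S T a V b c s}) a := by
  refine ⟨fun c s hs => ⟨(hT.sub c hs.1).1, fun e he => ⟨(hT.sub c hs.1).2 e he,
      fun β h1 h2 h3 j hj => ?_⟩⟩, fun c hc s hs => ⟨hT.full c (fun h => hc (Or.inl h))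
      ⟨hs.1, fun e he => (hs.2 e he).1⟩, fun β h1 h2 h3 j hj => ?_⟩,
    fun c hc => (mk_le_mk_of_subset (sep_subset _ _)).trans (hT.card c hc),
    fun c hc e he x hx => ?_⟩
  · rw [inter_Iio h3]
    exact hs.2 β h1 h2 (h3.trans he.le) j hj
  · have h4 : β < c := h3.lt_of_ne fun e => hc (Or.inr (e ▸ h1))
    have := (hs.2 β h4).2 β h1 h2 le_rfl j hj
    rwa [inter_Iio le_rfl] at this
  · obtain ⟨V', h1, h2⟩ := hV c hc
    choose f hf using coh c hc
    obtain ⟨s, h3, h4, h5⟩ := ih c hc (f '' V') (mk_image_le.trans h1) e he x hx.1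
    refine ⟨s, ⟨h3, fun β h6 h7 h8 j hj => ?_⟩, h4⟩
    rcases le_or_gt β e with h9 | h9
    · rw [← inter_Iio h9, h4]
      exact hx.2 β h6 h7 h9 j hj
    · rw [Bad.congr (fun _ _ => rfl) fun e he => hf j e (he.trans_le h8)]
      exact h5 β h6 h9 h8 _ ⟨j, h2 β h8 hj, rfl⟩

omit [LinearOrder K] [WellFoundedLT A] in
theorem br_avoid {V : A → Set K} {b : A} {s : Set A}
    (hs : s ∈ Br (fun c => {s ∈ T c | Av q G Θ S T a V b c s}) a) :
    s ∈ Br T a ∧ ∀ β ∈ S, b < β → β < a → ∀ j ∈ V β, s ∩ Iio β ∉ Bad q G T (Θ a j) β := by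
  refine ⟨⟨hs.1, fun e he => (hs.2 e he).1⟩, fun β h1 h2 h3 j hj => ?_⟩
  have := (hs.2 β h3).2 β h1 h2 le_rfl j hj
  rwa [inter_Iio le_rfl] at this

/-- The step at points of small cofinality. -/
theorem Setup.ih_small (h : Setup A K m) (hm : ∀ b ∈ S, cof (Iio b) = m)
    (hT : Nice K {a | cof (Iio a) = #K} T a) (ih : ∀ c < a, IH m q G Θ S T c)
    (coh : ∀ c < a, ∀ j, ∃ j', ∀ e < c, Θ a j e = Θ c j' e) (ha : cof (Iio a) ≠ #K) :
    IH m q G Θ S T a := fun V hV b hb x hx => by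
  have := h.neK
  rcases hb.eq_or_lt with rfl | hb
  · exact ⟨x, hx, inter_eq_left.2 (hT.sub _ hx).1, fun β _ h1 h2 => absurd h1 h2.not_gt⟩
  have h1 := hT.avoid ih coh (V := fun _ => V) (fun c _ => ⟨V, hV, fun _ _ => Subset.rfl⟩) b
  have h2 : ∀ σ ∈ {a : A | cof (Iio a) = #K} ∪ S, m ≤ cof (Iio σ) := by
    rintro σ (h2 | h2)
    exacts [h.lt.le.trans (Eq.ge h2), (hm σ h2).ge]
  have hx' : x ∈ {s ∈ T b | Av q G Θ S T a (fun _ => V) b b s} :=
    ⟨hx, fun β _ h1 h2 => absurd h1 h2.not_gt⟩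
  by_cases haS : a ∈ S
  swap
  · obtain ⟨s, h3, h4⟩ := h1.branch' (fun σ hσ => (h.cof_le ha).trans (h2 σ hσ)) hb hx'
    obtain ⟨h5, h6⟩ := br_avoid h3
    exact ⟨s, hT.full a ha h5, h4,
      fun β h7 h8 h9 => h6 β h7 h8 (h9.lt_of_ne fun e => haS (e ▸ h7))⟩
  obtain ⟨C, h3, h4, h5, h6⟩ := exists_thin a
  have hlim : ∀ c < a, ∃ d ∈ C, c < d := fun c hc => by
    obtain ⟨d, hd, h7⟩ := bdd_below (s := {c}) (a := a) (singleton_subset_iff.2 hc)
      (by rw [mk_singleton, hm a haS]; exact one_lt_aleph0.trans_le h.reg.aleph0_le)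
    obtain ⟨e, he, h8⟩ := h4 d hd
    exact ⟨e, he, (h7 c rfl).trans_le h8⟩
  choose s h7 h8 h9 using fun X : Set C => h1.coded
    (fun σ hσ => (one_lt_aleph0.trans_le h.reg.aleph0_le).trans_le (h2 σ hσ))
    (γ := Subtype.val) (Subtype.strictMono_coe _) (fun c => h3 c.2)
    (fun c hc => by
      obtain ⟨d, h7, h8⟩ := h4 c hc
      exact ⟨⟨d, h7⟩, h8⟩)
    (fun c => by
      obtain ⟨d, h7, h8⟩ := hlim c (h3 c.2)
      exact ⟨⟨d, h7⟩, h8⟩)
    (fun σ hσ h7 h8 => by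
      rw [Subtype.range_coe] at h7
      exact ((hm a haS).trans_le ((h2 σ h8).trans h7.cof_le)).not_gt (h6 σ hσ)) hb hx' X
  have h10 : m ≤ #{c : C | b ≤ c.1} := by
    rw [← hm a haS]
    refine (cof_Iio_le (s := C ∩ Ici b) fun c hc => ?_).trans
      (mk_le_of_injective (f := fun c => ⟨⟨c.1, c.2.1.1⟩, c.2.1.2⟩) fun c d e => ?_)
    · obtain ⟨d, h10, h11⟩ := h4 (max c b) (max_lt hc hb)
      exact ⟨d, ⟨h10, (le_max_right _ _).trans h11⟩, (le_max_left _ _).trans h11, h3 h10⟩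
    · exact Subtype.ext (congrArg (·.1.1) e)
  have h11 : ∃ X, s X ∉ {s | ∃ j ∈ V, s ∈ Bad q G T (Θ a j) a} := by
    by_contra! h11
    refine (cantor m).not_ge (((power_le_power_left two_ne_zero h10).trans ?_).trans
      (card_bad (q := q) (G := G) T (Θ a) a hV))
    rw [← mk_set]
    refine mk_le_of_injective (f := fun X => ⟨s (Subtype.val '' X), h11 _⟩) fun X Y e => ?_
    refine Set.ext fun c => ?_
    rw [← Subtype.val_injective.mem_set_image (s := X), ← Subtype.val_injective.mem_set_image (s := Y),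
      ← h9 _ c.1 c.2, ← h9 _ c.1 c.2, Subtype.mk.inj e]
  obtain ⟨X, hX⟩ := h11
  obtain ⟨h12, h13⟩ := br_avoid (h7 X)
  refine ⟨s X, hT.full a ha h12, h8 X, fun β h14 h15 h16 j hj => ?_⟩
  rcases h16.eq_or_lt with rfl | h16
  · rw [inter_eq_left.2 h12.1]
    exact fun h17 => hX ⟨j, hj, h17⟩
  · exact h13 β h14 h15 h16 j hj

variable [WellFoundedLT K]

theorem Setup.farA (h : Setup A K m) (q : K × K → K) (Θ : A → K → A → Set K)
    (coh : ∀ a, ∀ c < a, ∀ j, ∃ j', ∀ e < c, Θ a j e = Θ c j' e)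
    (hS : IsStationary S) (hm : ∀ b ∈ S, cof (Iio b) = m) {γ : A → K → A}
    (hγ : ∀ a, cof (Iio a) = #K → Ladder (γ a) a)
    (hn : ∀ a, cof (Iio a) = #K → ¬ IsStationary {d : K | cof (Iio d) = m ∧ γ a d ∈ S}) :
    ∃ G T, (∀ a, Nice K {a | cof (Iio a) = #K} T a) ∧ Ev q G Θ T := by
  have := h.neK
  obtain ⟨G, hG⟩ := h.diamond hS hm
  obtain ⟨v, hv⟩ := exists_surj (X := K) (Y := m.out → K) (by
    rw [← power_def, mk_out]
    exact h.pow_le le_rfl le_rfl)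
  have hv' : ∀ V : Set K, #V ≤ m → ∃ n, V ⊆ range (v n) := fun V hV => by
    rcases V.eq_empty_or_nonempty with rfl | ⟨j, hj⟩
    · exact ⟨Classical.arbitrary K, empty_subset _⟩
    have : Nonempty V := ⟨⟨j, hj⟩⟩
    obtain ⟨e, he⟩ := exists_surj (X := m.out) (Y := V) (by rwa [mk_out])
    obtain ⟨n, hn⟩ := hv fun i => e i
    refine ⟨n, fun k hk => ?_⟩
    obtain ⟨i, hi⟩ := he ⟨k, hk⟩
    exact ⟨i, by simp only [hn, hi]⟩
  obtain ⟨T, hT⟩ := h.exists_treeQ {a | cof (Iio a) = #K}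
    (fun T a s => ∀ j, ∃ b < a, Av q G Θ S T a (fun _ => {j}) b a s)
    (fun T a b n s => Av q G Θ S T a (fun _ => range (v n)) b a s)
    (fun T T' a e => funext fun s => propext (forall_congr' fun j => exists_congr fun b =>
      and_congr_right fun _ => forall₄_congr fun β _ _ h1 => forall₂_congr fun j _ => by
        rw [Bad.congr (fun c hc => e c (hc.trans_le h1)) fun _ _ => rfl]))
    (fun T T' a e => funext₃ fun b n s => propext (forall₄_congr fun β _ _ h1 =>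
      forall₂_congr fun j _ => by
        rw [Bad.congr (fun c hc => e c (hc.trans_le h1)) fun _ _ => rfl]))
  have key : ∀ a, #(T a) ≤ #K ∧ IH m q G Θ S T a := fun a => by
    induction a using WellFoundedLT.induction with
    | ind a ih =>
      have hn' : Nice K {a | cof (Iio a) = #K} T a := ⟨fun b => (hT b).1, fun b => (hT b).2.1,
        fun b hb => (ih b hb).1, fun c hc b hb x hx => by
          obtain ⟨s, h1, h2, -⟩ := (ih c hc).2 ∅ (by simp) b hb x hx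
          exact ⟨s, h1, h2⟩⟩
      by_cases ha : cof (Iio a) = #K
      swap
      · exact ⟨(mk_le_mk_of_subset (hT a).1).trans (h.card_br hn'.card (h.cof_le ha)),
          h.ih_small hm hn' (fun c hc => (ih c hc).2) (coh a) ha⟩
      refine ⟨(hT a).2.2.1 ha, fun V hV b hb x hx => ?_⟩
      rcases hb.eq_or_lt with rfl | hb
      · exact ⟨x, hx, inter_eq_left.2 (hn'.sub _ hx).1, fun β _ h1 h2 => absurd h1 h2.not_gt⟩
      obtain ⟨n, hn1⟩ := hv' V hV
      obtain ⟨k, rfl⟩ := en_spec (hn'.card b hb) hx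
      have hl := hγ a ha
      have haS : a ∉ S := fun h1 => h.lt.ne ((hm a h1).symm.trans ha)
      obtain ⟨D, hD, hD'⟩ := not_isStationary_iff.1 (hn a ha)
      have h1 := hn'.avoid (fun c hc => (ih c hc).2) (coh a)
        (V := fun β => range (v n) ∪ {j | γ a j < β}) (fun c hc => by
          obtain ⟨i, hi⟩ := hl.cof c hc
          refine ⟨range (v n) ∪ Iio i, (mk_union_le _ _).trans ((add_le_add
            (mk_range_le.trans_eq (mk_out m)) (h.segK i)).trans_eq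
            (add_eq_self h.reg.aleph0_le)), fun β hβ => union_subset_union_right _ fun j hj =>
              hl.mono.lt_iff_lt.1 (lt_of_lt_of_le hj (hβ.trans hi))⟩) b
      obtain ⟨s, h3, h4⟩ := h1.branch (C := γ a '' D) (by rintro _ ⟨d, -, rfl⟩; exact hl.lt d)
        (fun c hc => by
          obtain ⟨i, hi⟩ := hl.cof c hc
          obtain ⟨d, h3, h4⟩ := hD.isCofinal i
          exact ⟨_, ⟨d, h3, rfl⟩, hi.trans (hl.mono.monotone h4)⟩)
        (fun σ hσ h3 h4 => by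
          rcases h4 with h4 | h4
          · refine h.ladder_lim hl hσ ⟨h3.1, fun c hc => ?_⟩ h4
            obtain ⟨_, ⟨d, -, rfl⟩, h5⟩ := h3.2 c hc
            exact ⟨_, ⟨d, rfl⟩, h5⟩
          · exact lim_avoid hm hl hD hD' hσ h3 h4)
        hb ⟨hx, fun β _ h1 h2 => absurd h1 h2.not_gt⟩
      obtain ⟨h5, h6⟩ := br_avoid h3
      obtain ⟨t, h7, h8, h9⟩ := (hT a).2.2.2.2 ha b hb k n ⟨s, h5, fun j =>
        ⟨max b (γ a j), max_lt hb (hl.lt j), fun β h7 h8 h9 i hi =>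
          h6 β h7 ((le_max_left _ _).trans_lt h8) (h9.lt_of_ne fun e => haS (e ▸ h7)) i
            (Or.inr (hi ▸ (le_max_right _ _).trans_lt h8))⟩,
        fun β h7 h8 h9 i hi => h6 β h7 h8 (h9.lt_of_ne fun e => haS (e ▸ h7)) i (Or.inl hi), h4⟩
      exact ⟨t, h7, h9, fun β h10 h11 h12 j hj => h8 β h10 h11 h12 j (hn1 hj)⟩
  refine ⟨G, T, fun a => ⟨fun b => (hT b).1, fun b => (hT b).2.1, fun b _ => (key b).1,
    fun c _ b hb x hx => ?_⟩, fun F C hC => ?_⟩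
  · obtain ⟨s, h1, h2, -⟩ := (key c).2 ∅ (by simp) b hb x hx
    exact ⟨s, h1, h2⟩
  have h1 := h.stat_lim (hG F) hC.isCofinal
  have h2 : ∀ b, ∃ β ∈ {b | b ∈ S ∧ ∀ c < b, G b c = F c} ∩ {b | Lim C b}, b < β := fun b => by
    obtain ⟨c, hc⟩ := h.exists_gt b
    obtain ⟨β, h2, h3⟩ := h1 (t := Ici c) ⟨fun s hs ⟨e, he⟩ _ x hx => (hs he).trans (hx.1 he),
      fun e => ⟨max e c, le_max_right _ _, le_max_left _ _⟩⟩
    exact ⟨β, h2, hc.trans_le h3⟩
  choose g hg hg' using h2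
  obtain ⟨a, h3, h4, h5⟩ := stat_cof (A := A) (m := #K)
    (h.cardK ▸ isRegular_succ h.reg.aleph0_le) h.cofA ((h.club g).inter h.neA0 hC)
  refine ⟨a, h5, fun s hs j => ?_⟩
  obtain ⟨b, hb, h6⟩ := (hT a).2.2.2.1 h3 s hs j
  exact ⟨g b, h4 b hb, (hg b).1.2, (hg b).2, h6 _ (hg b).1.1 (hg' b) (h4 b hb).le j rfl⟩

theorem Setup.far (h : Setup A K m) (q : K × K → K) (Θ : A → K → A → Set K)
    (coh : ∀ a, ∀ c < a, ∀ j, ∃ j', ∀ e < c, Θ a j e = Θ c j' e)
    (hW : ∀ W : K → Set K, ∃ X, ¬ IsStationary {d : K | cof (Iio d) = m ∧ X ∩ Iio d = W d}) :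
    ∃ G T, (∀ a, Nice K {a | cof (Iio a) = #K} T a) ∧ Ev q G Θ T := by
  have h1 : ∀ a : A, ∃ γ : K → A, cof (Iio a) = #K → Ladder γ a := fun a => by
    by_cases ha : cof (Iio a) = #K
    · obtain ⟨γ, hγ⟩ := exists_ladder h.inf.le (fun i => (h.segK i).trans_lt h.lt) ha
      exact ⟨γ, fun _ => hγ⟩
    · exact ⟨fun _ => a, fun h => absurd h ha⟩
  choose γ hγ using h1
  by_cases hr : ∀ S : Set A, IsStationary S → (∀ b ∈ S, cof (Iio b) = m) →
      ∃ a, cof (Iio a) = #K ∧ IsStationary {d : K | cof (Iio d) = m ∧ γ a d ∈ S}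
  · exact h.farB q Θ hγ hr hW
  · push Not at hr
    obtain ⟨S, h2, h3, h4⟩ := hr
    exact h.farA q Θ coh h2 h3 hγ h4

end Pool.Agent.Lib.MP_a0c85e_lc
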