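import Pool.Agent.Lib.MP_a0c85e_lc.H36Greg
import Pool.Agent.Lib.MP_a0c85e_lc.H36Defs

/-! The tree of nodes is normal, closed, Aronszajn and far from the given tree. -/

open Cardinal Set Order

namespace Pool.Agent.Lib.MP_a0c85e_lc

universe u

variable {A K : Type u} [LinearOrder A] {m : Cardinal.{u}} {q : K × K → K} {G : A → A → Set K}
  {Θ : A → K → A → Set K} {T : A → Set (Set A)}

theorem Ev.false (ev : Ev q G Θ T) (hq : Function.Injective q) (hc : ∀ a, #(T a) ≤ #K)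
    {C : Set A} (hC : IsClub C) (U : A → Set (Set A)) (R : A → Set A → K → Prop)
    (h1 : ∀ a, U a ⊆ T a) (h2 : ∀ a ∈ C, ∃ s ∈ U a, ∃ j, ∀ c ∈ C, c < a →
      (s ∩ Iio c ∈ U c ∧ ∃ k ∈ Θ a j c, R c (s ∩ Iio c) k) ∧
      ∀ s' ∈ U c, ∀ k ∈ Θ a j c, R c s' k → s' = s ∩ Iio c) : False := by
  obtain ⟨a, ha, h3⟩ := ev
    (fun c => {p | ∃ k k', q (k, k') = p ∧ c ∈ C ∧ en K (T c) k ∈ U c ∧ R c (en K (T c) k) k'}) C hC
  obtain ⟨s, hs, j, h4⟩ := h2 a ha
  obtain ⟨b, hb, h5, h6, h7⟩ := h3 s (h1 a hs) j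
  have h8 : ∀ c ∈ C, c < b →
      ∃ k, ∃ k' ∈ Θ a j c, en K (T c) k = s ∩ Iio b ∩ Iio c ∧ q (k, k') ∈ G b c := fun c h8 h9 => by
    obtain ⟨⟨h10, k', h11, h12⟩, -⟩ := h4 c h8 (h9.trans hb)
    obtain ⟨k, hk⟩ := en_spec (hc c) (h1 c h10)
    refine ⟨k, k', h11, by rw [inter_Iio h9.le, hk], ?_⟩
    rw [h5 c h9]
    exact ⟨k, k', rfl, h8, hk ▸ h10, hk ▸ h12⟩
  refine h7 ⟨⟨inter_subset_right, fun c h9 h10 => ?_⟩, fun s' h9 => ?_⟩
  · rw [h5 c h9] at h10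
    obtain ⟨_, _, _, -, h10, -⟩ := h10
    exact h8 c h10 h9
  have h10 : ∀ c ∈ C, c < b → s' ∩ Iio c = s ∩ Iio c := fun c h10 h11 => by
    obtain ⟨_, _, -, -, h12⟩ := h8 c h10 h11
    obtain ⟨k, k', h13, h14, h15⟩ := h9.2 c h11 ⟨_, h12⟩
    rw [h5 c h11] at h15
    obtain ⟨k1, k2, h16, -, h17, h18⟩ := h15
    obtain ⟨rfl, rfl⟩ := Prod.mk.inj (hq h16)
    rw [← h14]
    exact (h4 c h10 (h11.trans hb)).2 _ h17 _ h13 h18
  refine Set.ext fun e => ⟨fun he => ?_, fun he => ?_⟩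
  · obtain ⟨c, h11, h12, h13⟩ := h6.2 e (h9.1 he)
    exact ⟨((h10 c h11 h13).le ⟨he, h12⟩).1, h9.1 he⟩
  · obtain ⟨c, h11, h12, h13⟩ := h6.2 e he.2
    exact ((h10 c h11 h13).ge ⟨he.1, h12⟩).1

section Height

variable {X : Type u} [PartialOrder X] [WellFoundedLT X]

theorem height_lt_of_lt {s t : X} (h : s < t) : height s < height t :=
  IsWellFounded.rank_lt_of_rel h

theorem exists_pred (t : X) : ∀ o < height t, ∃ s < t, height s = o := by
  induction t using WellFoundedLT.induction with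
  | ind t ih =>
    intro o ho
    rw [height, IsWellFounded.rank_eq] at ho
    obtain ⟨s, hs⟩ := (Ordinal.lt_iSup_iff).1 ho
    rcases (lt_succ_iff.1 hs).eq_or_lt with e | e
    · exact ⟨s, s.2, e.symm⟩
    · obtain ⟨r, h1, h2⟩ := ih s s.2 o e
      exact ⟨r, h1.trans s.2, h2⟩

theorem le_of_height (tr : ∀ t : X, IsChain (· ≤ ·) (Iio t)) {r s t : X} (h1 : r < t) (h2 : s < t)
    (h : height r ≤ height s) : r ≤ s := by
  rcases (tr t).total h1 h2 with h3 | h3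
  · exact h3
  · rcases h3.eq_or_lt with e | e
    exacts [e.ge, absurd (height_lt_of_lt e) h.not_gt]

end Height

variable [WellFoundedLT A]

theorem height_lin (a : A) : height a = Ordinal.typein (α := A) (· < ·) a :=
  congrFun (IsWellFounded.rank_eq_typein (α := A) (· < ·)) a

theorem height_node' (h : ∀ b, T b ⊆ Br T b) (p : Node T) : height p = height p.1.1 := by
  rw [height_node h, height_lin]

theorem height_inj {a b : A} (h : height a = height b) : a = b := by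
  rcases lt_trichotomy a b with e | e | e
  exacts [absurd h (height_lt_of_lt e).ne, e, absurd h (height_lt_of_lt e).ne']

variable [LinearOrder K]

theorem Setup.closedAronszajn (h : Setup A K m)
    (ht : Ordinal.type (α := A) (· < ·) = (succ #K).ord)
    (hT : ∀ a, Nice K {a | cof (Iio a) = #K} T a)
    (hB : ∀ s : Set A, ¬ ∀ a, s ∩ Iio a ∈ T a) : IsClosedAronszajn #K (Node T) := by
  have := h.neA
  have hs := (hT (Classical.arbitrary A)).sub
  have hfull := (hT (Classical.arbitrary A)).full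
  have hN : ∀ σ ∈ {a : A | cof (Iio a) = #K}, 1 < cof (Iio σ) := fun σ hσ =>
    (one_lt_aleph0.trans h.inf).trans_eq (Eq.symm hσ)
  have hcard : ∀ a, #(T a) ≤ #K := fun a => by
    obtain ⟨b, hb⟩ := h.exists_gt a
    exact (hT b).card a hb
  have hsmall : ∀ (X : Set (Node T)) (a : A), (∀ p ∈ X, p.1.1 ≤ a) → #X ≤ #K := fun X a hX => by
    obtain ⟨b, hb⟩ := h.exists_gt a
    refine (mk_le_of_injective (f := fun p : X =>
      (⟨⟨p.1.1.1, (hX _ p.2).trans_lt hb⟩, ⟨p.1.1.2, p.1.2⟩⟩ : Σ c : Iio b, T c)) ?_).trans ?_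
    · rintro ⟨⟨⟨c, s⟩, _⟩, _⟩ ⟨⟨⟨d, t⟩, _⟩, _⟩ e
      obtain ⟨e1, e2⟩ := Sigma.mk.inj_iff.1 e
      obtain rfl : c = d := congrArg Subtype.val e1
      obtain rfl : s = t := congrArg Subtype.val (eq_of_heq e2)
      rfl
    · rw [mk_sigma]
      refine (sum_le_sum _ (fun _ => #K) fun c : Iio b => hcard c).trans ?_
      rw [sum_const']
      exact (mul_le_mul_left (h.segA b) _).trans_eq (mul_eq_self h.inf.le)
  have hch : ∀ {C : Set (Node T)}, IsChain (· ≤ ·) C → ∀ p ∈ C, ∀ r ∈ C, p.1.1 ≤ r.1.1 →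
      r.1.2 ∩ Iio p.1.1 = p.1.2 := fun hC p hp r hr h1 => by
    rcases hC.total hp hr with h2 | h2
    · exact ((Node.le_iff hs).1 h2).2
    · have h3 := (Node.le_iff hs).1 h2
      rw [← h3.2, le_antisymm h3.1 h1, inter_Iio le_rfl, inter_eq_left.2 (hs _ p.2).1]
  have hun : ∀ {C : Set (Node T)}, IsChain (· ≤ ·) C → ∀ p ∈ C,
      (⋃ r ∈ C, r.1.2) ∩ Iio p.1.1 = p.1.2 := fun {C} hC p hp => by
    refine Subset.antisymm ?_ fun e he => ⟨mem_biUnion hp he, (hs _ p.2).1 he⟩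
    rintro e ⟨h1, h2⟩
    obtain ⟨r, hr, h3⟩ := mem_iUnion₂.1 h1
    rcases le_total p.1.1 r.1.1 with h4 | h4
    · exact (hch hC p hp r hr h4).le ⟨h3, h2⟩
    · exact ((hch hC r hr p hp h4).ge h3).1
  obtain ⟨z, -, hz⟩ := wellFounded_lt.has_min (univ : Set A) univ_nonempty
  have hz' : ∀ a, z ≤ a := fun a => not_lt.1 (hz a (mem_univ _))
  have hroot : (∅ : Set A) ∈ T z := hfull z (fun h3 => by
      have : IsEmpty (Iio z) := ⟨fun b => hz b (mem_univ _) b.2⟩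
      have h4 := hN z h3
      rw [cof_eq_zero] at h4
      exact h4.not_ge zero_le_one)
    ⟨empty_subset _, fun c hc => absurd hc (hz c (mem_univ _))⟩
  have hpred : ∀ (p : Node T) (b : A), b < p.1.1 → ∃ r < p, r.1.1 = b := fun p b hb =>
    ⟨⟨(b, p.1.2 ∩ Iio b), (hs _ p.2).2 b hb⟩,
      lt_of_le_of_ne ((Node.le_iff hs).2 ⟨hb.le, rfl⟩) fun e => hb.ne (congrArg (·.1.1) e), rfl⟩
  refine ⟨fun t p hp q hq _ => ?_, fun t => ?_, fun o => ?_, fun C hC e => ?_,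
    ⟨⟨(z, ∅), hroot⟩, fun t => ?_⟩, fun t o h1 h2 => ?_, fun t => ?_, fun s t e h1 => ?_,
    fun C hC h1 => ?_⟩
  · have h3 := (Node.le_iff hs).1 (le_of_lt hp)
    have h4 := (Node.le_iff hs).1 (le_of_lt hq)
    rcases le_total p.1.1 q.1.1 with h5 | h5
    · exact Or.inl ((Node.le_iff hs).2 ⟨h5, by rw [← h4.2, inter_Iio h5, h3.2]⟩)
    · exact Or.inr ((Node.le_iff hs).2 ⟨h5, by rw [← h3.2, inter_Iio h5, h4.2]⟩)
  · rw [height_node hs, ← ht]
    exact Ordinal.typein_lt_type _ _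
  · rcases eq_empty_or_nonempty {t : Node T | height t = o} with e | ⟨p, hp⟩
    · simp [e]
    refine hsmall _ p.1.1 fun r hr => le_of_eq (height_inj ?_)
    rw [← height_node' hs, ← height_node' hs, hp, hr]
  · refine hB (⋃ r ∈ C, r.1.2) fun a => ?_
    by_contra h1
    refine (lt_succ #K).not_ge (e ▸ hsmall C a fun p hp => not_lt.1 fun h2 => h1 ?_)
    rw [← inter_Iio h2.le, hun hC p hp]
    exact down hs h2.le p.2
  · exact (Node.le_iff hs).2 ⟨hz' _, eq_empty_of_forall_notMem fun e he => (hz' e).not_gt he.2⟩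
  · obtain ⟨a, rfl⟩ := Ordinal.typein_surj (α := A) (· < ·) (ht ▸ h2)
    obtain ⟨b, hb⟩ := h.exists_gt a
    have h3 : t.1.1 ≤ a := not_lt.1 fun h3 => by
      rw [← height_lin, height_node' hs] at h1
      exact h1.not_gt (height_lt_of_lt h3)
    obtain ⟨y, hy, h4⟩ := (hT b).norm a hb _ h3 _ t.2
    exact ⟨⟨(a, y), hy⟩, (Node.le_iff hs).2 ⟨h3, h4⟩, height_node hs _⟩
  · obtain ⟨d, hd⟩ := h.exists_gt t.1.1
    obtain ⟨c, hc, hc'⟩ := exists_succ hd
    obtain ⟨a, ha⟩ := h.exists_gt c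
    have h1 : ∀ w (hw : w ∈ T c), w ∩ Iio t.1.1 = t.1.2 → t ⋖ ⟨(c, w), hw⟩ := fun w hw e =>
      ⟨lt_of_le_of_ne ((Node.le_iff hs).2 ⟨hc.le, e⟩) fun e => hc.ne (congrArg (·.1.1) e),
        fun r h1 h2 => ((hc' _).1 (Node.lt_lev h2)).not_gt (Node.lt_lev h1)⟩
    obtain ⟨w, hw, h2, h3⟩ := (hT a).bit hN hc ha t.2 True
    obtain ⟨w', hw', h4, h5⟩ := (hT a).bit hN hc ha t.2 False
    exact ⟨_, _, h1 w hw h2, h1 w' hw' h4, fun e =>
      h5.1 ((congrArg (·.1.2) e : w = w') ▸ h3.2 trivial)⟩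
  · have h2 : ∀ s t : Node T, Iio s = Iio t → s.1.1 ≤ t.1.1 := fun s t e => not_lt.1 fun h2 => by
      obtain ⟨r, h3, h4⟩ := hpred s _ h2
      exact (Node.lt_lev (show r ∈ Iio t from e ▸ h3)).ne h4
    have h3 := le_antisymm (h2 s t e) (h2 t s e.symm)
    have h4 : ∀ b < s.1.1, b ∈ s.1.2 ↔ b ∈ t.1.2 := fun b hb => by
      obtain ⟨p, h4, rfl⟩ := hpred s b hb
      obtain ⟨r, h5, h6⟩ := h1 p h4
      have h7 := ((Node.le_iff hs).1 h6.le).2
      have h8 := ((Node.le_iff hs).1 (le_of_lt (show r ∈ Iio t from e ▸ h6))).2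
      exact ⟨fun h9 => ((h7.trans h8.symm).le ⟨h9, Node.lt_lev h5⟩).1,
        fun h9 => ((h7.trans h8.symm).ge ⟨h9, Node.lt_lev h5⟩).1⟩
    exact Subtype.ext (Prod.ext h3 (Set.ext fun b => ⟨fun hb => (h4 b ((hs _ s.2).1 hb)).1 hb,
      fun hb => (h4 b (h3 ▸ (hs _ t.2).1 hb)).2 hb⟩))
  · obtain ⟨b, hb⟩ := bdd_of_small (s := (fun p : Node T => p.1.1) '' C)
      (mk_image_le.trans_lt (h1.trans h.cofA))
    obtain ⟨σ, hσ⟩ := exists_lub fun c hc => (hb c hc).le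
    have h2 : ∀ p ∈ C, p.1.1 ≤ σ := fun p hp => hσ.1 ⟨p, hp, rfl⟩
    have h3 : (⋃ r ∈ C, r.1.2) ∈ T σ := by
      by_cases h3 : σ ∈ (fun p : Node T => p.1.1) '' C
      · obtain ⟨p, hp, rfl⟩ := h3
        rw [← inter_eq_left.2 (iUnion₂_subset fun r hr =>
          (hs _ r.2).1.trans (Iio_subset_Iio (h2 r hr))), hun hC p hp]
        exact p.2
      have h4 : ∀ c < σ, ∃ p ∈ C, c < p.1.1 ∧ p.1.1 < σ := fun c hc => by
        obtain ⟨_, ⟨p, hp, rfl⟩, h4⟩ := (lt_isLUB_iff hσ).1 hc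
        exact ⟨p, hp, h4, (h2 p hp).lt_of_ne fun e => h3 ⟨p, hp, e⟩⟩
      refine hfull σ (fun h5 => ?_) ⟨iUnion₂_subset fun r hr =>
        (hs _ r.2).1.trans (Iio_subset_Iio (h2 r hr)), fun c hc => ?_⟩
      · refine h1.not_ge ((Eq.ge h5).trans ((cof_Iio_le (s := (fun p : Node T => p.1.1) '' C)
          fun c hc => ?_).trans ((mk_le_mk_of_subset inter_subset_left).trans mk_image_le)))
        obtain ⟨p, hp, h6, h7⟩ := h4 c hc
        exact ⟨_, ⟨p, hp, rfl⟩, h6.le, h7⟩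
      · obtain ⟨p, hp, h6, -⟩ := h4 c hc
        rw [← inter_Iio h6.le, hun hC p hp]
        exact down hs h6.le p.2
    exact ⟨⟨(σ, _), h3⟩, fun p hp => (Node.le_iff hs).2 ⟨h2 p hp, hun hC p hp⟩⟩

variable [WellFoundedLT K]

theorem Setup.main_far (h : Setup A K m) (ht : Ordinal.type (α := A) (· < ·) = (succ #K).ord)
    (hW : ∀ W : K → Set K, ∃ X, ¬ IsStationary {d : K | cof (Iio d) = m ∧ X ∩ Iio d = W d})
    {ι : Type u} (ρ : ι ↪ A) (X : ι → Type u) [∀ i, PartialOrder (X i)] [∀ i, WellFoundedLT (X i)]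
    (tr : ∀ i (t : X i), IsChain (· ≤ ·) (Iio t))
    (lev : ∀ i o, #{t : X i | height t = o} ≤ #K) :
    ∃ T : A → Set (Set A), IsClosedAronszajn #K (Node T) ∧ ∀ i (U : Set (Node T)), IsLowerSet U →
      (∀ o < (succ #K).ord, ∃ t ∈ U, height t = o) → ∀ (C : Set A) (f : Node T → X i), IsClub C →
      InjOn f {t ∈ U | ∃ c ∈ C, height t = height c} →
      StrictMonoOn f {t ∈ U | ∃ c ∈ C, height t = height c} →
      ¬ ∀ t ∈ U, (∃ c ∈ C, height t = height c) → height (f t) = height t := by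
  have h1 : ∀ a : A, ∃ e : K → Option (Σ i, X i), (∃ j, e j = none) ∧
      (∀ i (t : X i), ρ i < a → height t = height a → ∃ j, e j = some ⟨i, t⟩) ∧
      ∀ j i t, e j = some ⟨i, t⟩ → height t = height a := fun a => by
    obtain ⟨e, he⟩ := exists_surj (X := K)
      (Y := Option (Σ i : {i | ρ i < a}, {t : X i | height t = height a})) (by
      rw [mk_option, mk_sigma]
      refine (add_le_add ((sum_le_sum _ (fun _ => #K) fun i => lev _ _).trans ?_)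
        (one_le_aleph0.trans h.inf.le)).trans_eq (add_eq_self h.inf.le)
      rw [sum_const']
      exact (mul_le_mul_left ((mk_preimage_of_injective ρ (Iio a) ρ.injective).trans (h.segA a))
        _).trans_eq (mul_eq_self h.inf.le))
    refine ⟨fun j => (e j).map fun p => ⟨p.1, p.2⟩, ?_, fun i t hi ht => ?_, fun j i t ht => ?_⟩
    · obtain ⟨j, hj⟩ := he none
      exact ⟨j, by simp only [hj, Option.map_none]⟩
    · obtain ⟨j, hj⟩ := he (some ⟨⟨i, hi⟩, t, ht⟩)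
      exact ⟨j, by simp only [hj, Option.map_some]⟩
    · obtain ⟨s, -, hs⟩ := Option.map_eq_some_iff.1 ht
      obtain ⟨rfl, h1⟩ := Sigma.mk.inj_iff.1 hs
      exact eq_of_heq h1 ▸ s.2.2
  choose e e1 e2 e3 using h1
  obtain ⟨q⟩ : Nonempty (K × K ↪ K) := by
    rw [← Cardinal.le_def, ← mul_def]
    exact (mul_eq_self h.inf.le).le
  have inj : ∀ {i} {s t : X i}, some (⟨i, s⟩ : Σ i, X i) = some ⟨i, t⟩ → s = t := fun e =>
    eq_of_heq (Sigma.mk.inj_iff.1 (Option.some.inj e)).2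
  obtain ⟨G, T, hT, ev⟩ := h.far q
    (fun a j c => {k | ∀ i t, e a j = some ⟨i, t⟩ → ρ i < c → ∃ s, e c k = some ⟨i, s⟩ ∧ s < t})
    (fun a c hc j => by
      obtain ⟨j0, hj0⟩ := e1 c
      rcases hj : e a j with _ | ⟨i, t⟩
      · exact ⟨j0, fun b _ => by simp only [hj0]⟩
      by_cases hi : ρ i < c
      swap
      · refine ⟨j0, fun b hb => Set.ext fun k => ⟨fun _ _ _ h1 => ?_, fun _ i' t' h1 h2 => ?_⟩⟩
        · rw [hj0] at h1
          exact absurd h1 (by simp)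
        · obtain ⟨rfl, -⟩ := Sigma.mk.inj_iff.1 (Option.some.inj h1)
          exact absurd (h2.trans hb) hi
      obtain ⟨r, h1, h2⟩ := exists_pred t (height c) (e3 a j i t hj ▸ height_lt_of_lt hc)
      obtain ⟨j', hj'⟩ := e2 c i r hi h2
      refine ⟨j', fun b hb => Set.ext fun k => ⟨fun h3 i' t' h4 h5 => ?_, fun h3 i' t' h4 h5 => ?_⟩⟩
      · rw [hj'] at h4
        obtain ⟨rfl, -⟩ := Sigma.mk.inj_iff.1 (Option.some.inj h4)
        obtain rfl := inj h4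
        obtain ⟨s, h6, h7⟩ := h3 i t rfl h5
        have h8 : height s < height r := by
          rw [e3 b k i s h6, h2]
          exact height_lt_of_lt hb
        exact ⟨s, h6, (le_of_height (tr i) h7 h1 h8.le).lt_of_ne fun e => h8.ne (by rw [e])⟩
      · obtain ⟨rfl, -⟩ := Sigma.mk.inj_iff.1 (Option.some.inj h4)
        obtain rfl := inj h4
        obtain ⟨s, h6, h7⟩ := h3 i r hj' h5
        exact ⟨s, h6, h7.trans h1⟩) hW
  have := h.neA
  have := h.neK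
  have hs := (hT (Classical.arbitrary A)).sub
  have hcard : ∀ a, #(T a) ≤ #K := fun a => by
    obtain ⟨b, hb⟩ := h.exists_gt a
    exact (hT b).card a hb
  refine ⟨T, h.closedAronszajn ht hT fun s h1 => ?_, fun i U hU h1 C f hC h2 h3 h4 => ?_⟩
  · refine ev.false q.injective hcard IsClub.univ (fun a => {s ∩ Iio a}) (fun _ _ _ => True)
      (fun a => singleton_subset_iff.2 (h1 a)) fun a _ => ?_
    obtain ⟨j, hj⟩ := e1 a
    refine ⟨_, rfl, j, fun c _ hc => ⟨⟨inter_Iio hc.le, Classical.arbitrary K, fun i t ht => ?_,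
      trivial⟩, fun s' h2 _ _ _ => h2.trans (inter_Iio hc.le).symm⟩⟩
    rw [hj] at ht
    exact absurd ht (by simp)
  obtain ⟨z, hz⟩ := h.exists_gt (ρ i)
  refine ev.false q.injective hcard (hC.inter h.neA0 (t := Ici z)
      ⟨fun s hs ⟨e, he⟩ _ x hx => (hs he).trans (hx.1 he),
        fun e => ⟨max e z, le_max_right _ _, le_max_left _ _⟩⟩) (fun a => {s | ∃ p ∈ U, p.1 = (a, s)})
    (fun a s k => ∃ p : Node T, p.1 = (a, s) ∧ e a k = some ⟨i, f p⟩) (fun a s hs => ?_)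
    fun a ha => ?_
  · obtain ⟨⟨_, hp⟩, -, rfl⟩ := hs
    exact hp
  obtain ⟨⟨⟨a', s⟩, hp⟩, h5, h6⟩ := h1 (height a) (by
    rw [height_lin, ← ht]
    exact Ordinal.typein_lt_type _ _)
  obtain rfl : a' = a := height_inj ((height_node' hs _).symm.trans h6)
  obtain ⟨j, hj⟩ := e2 a' i _ (hz.trans_le ha.2) ((h4 _ h5 ⟨a', ha.1, h6⟩).trans h6)
  refine ⟨s, ⟨_, h5, rfl⟩, j, fun c ⟨hc, hc'⟩ hca => ?_⟩
  let r : Node T := ⟨(c, s ∩ Iio c), (hs _ hp).2 c hca⟩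
  have h7 : r < ⟨(a', s), hp⟩ :=
    lt_of_le_of_ne ((Node.le_iff hs).2 ⟨hca.le, rfl⟩) fun e => hca.ne (congrArg (·.1.1) e)
  have h8 : r ∈ U := hU h7.le h5
  have h9 : height r = height c := height_node' hs r
  have h10 := h3 ⟨h8, c, hc, h9⟩ ⟨h5, a', ha.1, h6⟩ h7
  have h11 := (h4 r h8 ⟨c, hc, h9⟩).trans h9
  obtain ⟨k, hk⟩ := e2 c i _ (hz.trans_le hc') h11
  refine ⟨⟨⟨r, h8, rfl⟩, k, fun i' t ht _ => ?_, r, rfl, hk⟩, ?_⟩
  · rw [hj] at ht
    obtain ⟨rfl, -⟩ := Sigma.mk.inj_iff.1 (Option.some.inj ht)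
    exact ⟨_, hk, inj ht ▸ h10⟩
  rintro s' ⟨p, h12, h13⟩ k' h14 ⟨p', h15, h16⟩
  obtain rfl : p = p' := Subtype.ext (h13.trans h15.symm)
  obtain ⟨t, h17, h18⟩ := h14 _ _ hj (hz.trans_le hc')
  obtain rfl : t = f p := inj (h17.symm.trans h16)
  have h19 : height p = height c := by rw [height_node' hs, h13]
  have h20 := (h4 p h12 ⟨c, hc, h19⟩).trans h19
  have h21 : p = r := h2 ⟨h12, c, hc, h19⟩ ⟨h8, c, hc, h9⟩ (le_antisymm
    (le_of_height (tr i) h18 h10 (h20.trans h11.symm).le)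
    (le_of_height (tr i) h10 h18 (h11.trans h20.symm).le))
  rw [h21] at h13
  exact (congrArg Prod.snd h13).symm

end Pool.Agent.Lib.MP_a0c85e_lc
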