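import Pool.Agent.Lib.MP_a0c85e_lc.H40Tree

/-! The two cases: a stationary set that reflects at no point of cofinality `#K`, and reflection
without guessing. -/

open Cardinal Set Order

namespace Pool.Agent.Lib.MP_a0c85e_lc

universe u

variable {A K : Type u} [LinearOrder A] [LinearOrder K] [WellFoundedLT A] [WellFoundedLT K]

omit [WellFoundedLT A] in
theorem Set2.clubK (h : Set2 A K) (g : K → K) : IsClub {b | ∀ a < b, g a < b} :=
  club_closure (h.cofK ▸ h.inf) (fun a => h.cofK ▸ h.segK a) g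

omit [WellFoundedLT A] in
/-- No guessed club is almost contained in a suitable club. -/
theorem Set2.tail (h : Set2 A K) {Z : K → Prop}
    (hW : ∀ W : K → Set K, ∃ D, IsClub D ∧ ∀ C ⊆ D, IsClub C →
      ¬ IsStationary {d : K | Z d ∧ C ∩ Iio d = W d}) (W : K → Set K) :
    ∃ D, IsClub D ∧ ∀ C, IsClub C → IsStationary {d : K | Z d ∧ C ∩ Iio d = W d} →
      ∀ i, ∃ c ∈ C, i < c ∧ c ∉ D := by
  choose D hD hD' using fun i => hW fun d => W d ∩ Ioi i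
  have h1 : ∀ j : K, ∃ g, ∀ i ≤ j, ∃ c ∈ D i, j < c ∧ c < g := fun j => by
    obtain ⟨j', hj'⟩ := h.exists_gtK j
    choose c hc hc' using fun i => (hD i).isCofinal j'
    obtain ⟨g, hg⟩ := bdd_of_small (s := c '' Iio j') (mk_image_le.trans_lt (h.cofK ▸ h.segK j'))
    exact ⟨g, fun i hi => ⟨c i, hc i, hj'.trans_le (hc' i), hg _ ⟨i, hi.trans_lt hj', rfl⟩⟩⟩
  choose g hg using h1
  refine ⟨_, h.clubK g, fun C hC hs i => ?_⟩
  by_contra! h2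
  refine hD' i (C ∩ Ioi i) (fun c hc => Lim.mem ⟨⟨i, hc.2⟩, fun b hb => ?_⟩ (hD i))
    (hC.inter h.neK0 (club_Ioi' h.exists_gtK i))
    (hs.mono fun d hd => ⟨hd.1, by rw [inter_right_comm, hd.2]⟩)
  obtain ⟨e, h3, h4, h5⟩ := hg (max b i) i (le_max_right _ _)
  exact ⟨e, h3, (le_max_left _ _).trans_lt h4, h5.trans (h2 c hc.1 hc.2 _ (max_lt hb hc.2))⟩

omit [WellFoundedLT A] in
theorem Ladder.lim_mem {γ : K → A} {a σ : A} (hl : Ladder γ a) {D : Set K} (hD : IsClub D)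
    (hσ : σ < a) (h3 : Lim (γ '' D) σ) : ∃ d ∈ D, γ d = σ := by
  obtain ⟨i, hi⟩ := hl.cof σ hσ
  obtain ⟨d, hd⟩ := exists_lub (s := {j | γ j < σ}) (b := i)
    fun j hj => (hl.mono.lt_iff_lt.1 (lt_of_lt_of_le hj hi)).le
  have h5 : ∀ j, γ j < σ → ∃ e ∈ D, j < e ∧ γ e < σ := fun j hj => by
    obtain ⟨_, ⟨e, h5, rfl⟩, h6, h7⟩ := h3.2 _ hj
    exact ⟨e, h5, hl.mono.lt_iff_lt.1 h6, h7⟩
  have h6 : ¬ γ d < σ := fun h6 => by
    obtain ⟨e, -, h7, h8⟩ := h5 d h6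
    exact (hd.1 h8).not_gt h7
  obtain ⟨b, hb⟩ := h3.1
  obtain ⟨_, ⟨e, -, rfl⟩, -, he⟩ := h3.2 b hb
  have h7 := lim_of_lub hd h6 ⟨e, he⟩
  have h8 : Lim D d := ⟨h7.1, fun j hj => by
    obtain ⟨k, h8, h9, -⟩ := h7.2 j hj
    obtain ⟨e, h10, h11, h12⟩ := h5 k h8
    exact ⟨e, h10, h9.trans h11, (hd.1 h12).lt_of_ne fun e' => h6 (e' ▸ h12)⟩⟩
  refine ⟨d, h8.mem hD, le_antisymm (not_lt.1 fun h10 => ?_) (not_lt.1 h6)⟩
  obtain ⟨j, h11, h12⟩ := hl.cont d (h7.mono (subset_univ _)) σ h10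
  obtain ⟨k, h13, h14, -⟩ := h7.2 j h11
  exact (h12.trans (hl.mono h14)).not_gt h13

omit [WellFoundedLT A] [WellFoundedLT K] in
theorem Set2.ladder_club (h : Set2 A K) {γ : K → A} {a : A} (hl : Ladder γ a) {D : Set K}
    (hD : IsClub D) : γ '' D ⊆ Iio a ∧ (∀ b < a, ∃ c ∈ γ '' D, b ≤ c) ∧
      ∀ b < a, #(γ '' D ∩ Iio b : Set A) < #K := by
  refine ⟨by rintro _ ⟨d, -, rfl⟩; exact hl.lt d, fun b hb => ?_, fun b hb => ?_⟩
  · obtain ⟨i, hi⟩ := hl.cof b hb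
    obtain ⟨d, h3, h4⟩ := hD.isCofinal i
    exact ⟨_, ⟨d, h3, rfl⟩, hi.trans (hl.mono.monotone h4)⟩
  · obtain ⟨i, hi⟩ := hl.cof b hb
    refine lt_of_le_of_lt ((mk_le_mk_of_subset (t := γ '' Iio i) ?_).trans mk_image_le) (h.segK i)
    rintro _ ⟨⟨j, -, rfl⟩, hj⟩
    exact ⟨j, hl.mono.lt_iff_lt.1 (lt_of_lt_of_le hj hi), rfl⟩

/-- The indices below which elements of `X` are enumerated cofinally. -/
def Clo1 (γ E : K → A) (X : Set A) : Set K :=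
  {i | ∀ j < i, ∃ k < i, ∃ j' < i, E k ∈ X ∧ γ j < E k ∧ E k < γ j'}

theorem Set2.main (h : Set2 A K) (ht : Ordinal.type (α := A) (· < ·) = (succ #K).ord)
    {S : Set A} (hS : IsStationary S) (hm : ∀ b ∈ S, cof (Iio b) < #K)
    (hW : ∀ (a : A) (γ : K → A), Ladder γ a → ∀ W : K → Set K, ∃ D, IsClub D ∧ ∀ C ⊆ D,
      IsClub C → ¬ IsStationary {d : K | γ d ∈ S ∧ C ∩ Iio d = W d}) :
    ∃ T : A → Set (Set A), IsSouslin #K (Node T) := by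
  classical
  have h1 : ∀ a : A, ∃ γ : K → A, cof (Iio a) = #K → Ladder γ a := fun a => by
    by_cases ha : cof (Iio a) = #K
    · obtain ⟨γ, hγ⟩ := exists_ladder h.inf.le h.segK ha
      exact ⟨γ, fun _ => hγ⟩
    · exact ⟨fun _ => a, fun h => absurd h ha⟩
  choose γ hγ using h1
  have h0 : (0 : Cardinal.{u}) < #K := aleph0_pos.trans h.inf
  by_cases hr : ∀ S' ⊆ S, IsStationary S' →
      ∃ a, cof (Iio a) = #K ∧ IsStationary {d : K | γ a d ∈ S'}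
  swap
  · push Not at hr
    obtain ⟨S', h2, h3, h4⟩ := hr
    obtain ⟨G, hG⟩ := h.diamond h3 fun b hb => hm b (h2 hb)
    choose! D hD hD' using fun a ha => not_isStationary_iff.1 (h4 a ha)
    refine h.tree ht (fun b hb => hm b (h2 hb)) G (fun a => γ a '' D a) (fun _ => ∅)
      (fun a ha => ?_) fun F C hC => ?_
    · obtain ⟨e1, e2, e3⟩ := h.ladder_club (hγ a ha) (hD a ha)
      refine ⟨e1, e2, e3, fun σ e4 e5 e6 => ?_, fun b _ => by simpa using h0, fun y hy => hy.elim⟩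
      obtain ⟨d, e7, rfl⟩ := (hγ a ha).lim_mem (hD a ha) e4 e5
      exact disjoint_left.1 (hD' a ha) e6 e7
    · obtain ⟨b, e1, e2⟩ := hG F hC
      exact Or.inl ⟨b, ⟨e1.1, e2⟩, e1.2⟩
  obtain ⟨G, hG⟩ := h.diamond hS hm
  obtain ⟨k0⟩ := h.neK
  have h2 : ∀ a : A, ∃ E : K → A, ∀ y < a, ∃ k, E k = y := fun a => by
    by_cases hne : Nonempty (Iio a)
    · obtain ⟨e, he⟩ := exists_surj (h.segA a)
      refine ⟨fun k => e k, fun y hy => ?_⟩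
      obtain ⟨k, hk⟩ := he ⟨y, hy⟩
      exact ⟨k, by simp only [hk]⟩
    · exact ⟨fun _ => a, fun y hy => absurd ⟨⟨y, hy⟩⟩ hne⟩
  choose E hE using h2
  choose! D hD hD' using fun a ha => h.tail (hW a _ (hγ a ha)) fun d =>
    Clo1 (γ a) (E a) {b | k0 ∈ G (γ a d) b} ∩ Iio d
  refine h.tree ht (S := ∅) (fun b hb => hb.elim) G (fun a => γ a '' D a)
    (fun a => {y | ∃ j, γ a j < y ∧ ∀ d ∈ D a, j < d → y < γ a d ∧ ∃ k < d, E a k = y})
    (fun a ha => ?_) fun F C hC => Or.inr ?_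
  · obtain ⟨e1, e2, e3⟩ := h.ladder_club (hγ a ha) (hD a ha)
    refine ⟨e1, e2, e3, fun σ _ _ e => e.elim, fun b hb => ?_, ?_⟩
    · obtain ⟨i, hi⟩ := (hγ a ha).cof b hb
      obtain ⟨d, e4, e5⟩ := (hD a ha).isCofinal i
      refine lt_of_le_of_lt ((mk_le_mk_of_subset (t := E a '' Iio d) ?_).trans mk_image_le)
        (h.segK d)
      rintro y ⟨⟨j, e6, e7⟩, e8⟩
      exact (e7 d e4 (((hγ a ha).mono.lt_iff_lt.1 (e6.trans (lt_of_lt_of_le e8 hi))).trans_le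
        e5)).2
    · rintro y ⟨j, e4, e5⟩ e6
      obtain ⟨_, ⟨d, e7, rfl⟩, e8, e9⟩ := e6.2 _ e4
      exact (e5 d e7 ((hγ a ha).mono.lt_iff_lt.1 e8)).1.not_gt e9
  obtain ⟨X, hX⟩ : ∃ X : Set A, X = {y ∈ C | ∀ c < y, G y c = F c} := ⟨_, rfl⟩
  obtain ⟨L, hL, h3⟩ := h.club_lim (X := X) fun b => by
    obtain ⟨y, e1, e2, e3⟩ := hG F (hC.inter h.neA0 (club_Ioi' h.exists_gt b))
    exact ⟨y, hX ▸ ⟨e2, e1.2⟩, le_of_lt e3⟩
  obtain ⟨a, ha, hs⟩ := hr ({b | b ∈ S ∧ ∀ c < b, G b c = {_k | c ∈ X}} ∩ L) (fun b hb => hb.1.1)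
    fun C' hC' => by
      obtain ⟨b, e1, e2, e3⟩ := hG (fun c => {_k | c ∈ X}) (hL.inter h.neA0 hC')
      exact ⟨b, ⟨e1, e2⟩, e3⟩
  have hl := hγ a ha
  have h4 : ∀ j, ∃ q, ∃ k < q, ∃ j' < q, E a k ∈ X ∧ γ a j < E a k ∧ E a k < γ a j' := fun j => by
    obtain ⟨d, e1, e2⟩ := hs (club_Ioi' h.exists_gtK j)
    obtain ⟨y, e3, e4, e5⟩ := (h3 _ e1.2).2 _ (hl.mono e2)
    obtain ⟨k, rfl⟩ := hE a y (e5.trans (hl.lt d))
    obtain ⟨q, hq⟩ := h.exists_gtK (max k d)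
    exact ⟨q, k, (le_max_left _ _).trans_lt hq, d, (le_max_right _ _).trans_lt hq, e3, e4, e5⟩
  choose q hq using h4
  have h5 : IsClub (Clo1 (γ a) (E a) X) := ⟨fun t ht _ _ x hx j hj => by
      obtain ⟨c, h5, h6⟩ := (lt_isLUB_iff hx).1 hj
      obtain ⟨k, h7, j', h8, h9⟩ := ht h5 j h6
      exact ⟨k, h7.trans_le (hx.1 h5), j', h8.trans_le (hx.1 h5), h9⟩,
    fun i => by
      obtain ⟨c, h5, h6⟩ := (h.clubK q).isCofinal i
      refine ⟨c, fun j hj => ?_, h6⟩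
      obtain ⟨k, h7, j', h8, h9⟩ := hq j
      exact ⟨k, h7.trans (h5 j hj), j', h8.trans (h5 j hj), h9⟩⟩
  have h6 := hD' a ha _ h5 (hs.mono fun d hd => ⟨hd.1.1, Set.ext fun i => and_congr_left fun hi =>
    forall₂_congr fun j _ => exists_congr fun k => and_congr_right fun _ => exists_congr fun j' =>
      and_congr_right fun hj' => and_congr_left fun h5 => by
        rw [mem_ofPred_eq, hd.1.2 _ (h5.2.trans (hl.mono (hj'.trans hi))), mem_ofPred_eq]⟩)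
  refine ⟨a, ha, fun e he => ?_⟩
  obtain ⟨i₀, h7⟩ := hl.cof e he
  obtain ⟨i₁, h8, h9⟩ := (hD a ha).isCofinal i₀
  obtain ⟨c, h10, h11, h12⟩ := h6 i₁
  obtain ⟨j, hj⟩ := exists_lub (s := D a ∩ Iio c) (b := c) fun d hd => le_of_lt hd.2
  have h13 : j ∈ D a := (hD a ha).isLUB_mem inter_subset_left ⟨i₁, h8, h11⟩ hj
  have h14 : j < c := (hj.2 fun d hd => le_of_lt hd.2).lt_of_ne fun e => h12 (e ▸ h13)
  obtain ⟨k, h15, j', h16, h17, h18, h19⟩ := h10 j h14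
  rw [hX] at h17
  refine ⟨E a k, ⟨⟨j, h18, fun d e1 e2 => ?_⟩, h17.1⟩,
    (h7.trans (hl.mono.monotone (h9.trans (hj.1 ⟨h8, h11⟩)))).trans_lt h18,
    h19.trans (hl.lt j'), h17.2⟩
  have e3 : c ≤ d := not_lt.1 fun e3 => (hj.1 ⟨e1, e3⟩).not_gt e2
  exact ⟨h19.trans (hl.mono (h16.trans_le e3)), k, h15.trans_le e3, rfl⟩

theorem set2 {k : Cardinal.{u}} (h0 : ℵ₀ < k) (h1 : k ^< k = k) (h2 : 2 ^ k = succ k) :
    Set2 (succ k).ord.ToType k.ord.ToType := by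
  have h3 : k.IsRegular := ⟨h0.le, not_lt.1 fun h3 =>
    (lt_power_cof_ord h0.le).not_ge ((le_powerlt k h3).trans h1.le)⟩
  have h4 := isRegular_succ h0.le
  refine ⟨by rwa [mk_ord_toType], by rwa [mk_ord_toType],
    by rw [Ordinal.cof_toType, h3.cof_ord, mk_ord_toType],
    fun i => mk_Iio_lt i (by rw [mk_ord_toType, Ordinal.type_toType]),
    fun n hn => ?_, by rw [mk_ord_toType, mk_ord_toType, h2], ?_, fun a => ?_⟩
  · rw [mk_ord_toType] at hn ⊢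
    exact (le_powerlt k hn).trans h1.le
  · rw [Ordinal.cof_toType, h4.cof_ord, mk_ord_toType]
    exact lt_succ _
  · have h5 := mk_Iio_lt a (by rw [mk_ord_toType, Ordinal.type_toType])
    rw [mk_ord_toType] at h5 ⊢
    exact lt_succ_iff.1 h5

omit [WellFoundedLT A] [WellFoundedLT K] in
theorem Ladder.isNormal {γ : K → A} {a : A} (h : Ladder γ a) : IsNormal γ :=
  isNormal_iff.2 ⟨h.mono, fun o ho b hb => not_lt.1 fun e => by
    obtain ⟨j, h1, h2⟩ := h.cont o ⟨not_isMin_iff.1 ho.not_isMin, fun c hc => by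
      obtain ⟨d, h1, h2⟩ := exists_lt_lt_of_not_covBy hc (ho.isSuccPrelimit c)
      exact ⟨d, mem_univ _, h1, h2⟩⟩ b e
    exact (hb j h1).not_gt h2⟩

end Pool.Agent.Lib.MP_a0c85e_lc
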