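import Pool.Agent.Lib.MP_a0c85e_lc.H1Tree

/-! The setting of a regular uncountable cardinal `k` with `k ^ n ≤ k` for all `n < k`. -/

open Cardinal Set Order

namespace Pool.Agent.Lib.MP_a0c85e_lc

universe u

/-- The cardinal arithmetic of the index orders. -/
structure Set2 (A K : Type u) [LinearOrder A] [LinearOrder K] : Prop where
  inf : ℵ₀ < #K
  reg : (#K).IsRegular
  cofK : cof K = #K
  segK : ∀ i : K, #(Iio i) < #K
  pow : ∀ n < #K, #K ^ n ≤ #K
  cardA : #A = 2 ^ #K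
  cofA : #K < cof A
  segA : ∀ a : A, #(Iio a) ≤ #K

variable {A K : Type u} [LinearOrder A] [LinearOrder K]

theorem Set2.pow_le (h : Set2 A K) {n c : Cardinal.{u}} (hn : n < #K) (hc : c ≤ #K) :
    c ^ n ≤ #K := (power_le_power_right hc).trans (h.pow n hn)

theorem Set2.pow_le' (h : Set2 A K) {n c : Cardinal.{u}} (hn : n ≤ #K) (hc : c ≤ #A) :
    c ^ n ≤ #A := by
  have h0 : #A ≠ 0 := by
    rw [h.cardA]
    exact power_ne_zero _ two_ne_zero
  refine (power_le_power_right hc).trans ((power_le_power_left h0 hn).trans_eq ?_)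
  rw [h.cardA, ← power_mul, mul_eq_self h.inf.le]

theorem Set2.neK (h : Set2 A K) : Nonempty K := mk_ne_zero_iff.1 (aleph0_pos.trans h.inf).ne'

theorem Set2.neA (h : Set2 A K) : Nonempty A :=
  cof_ne_zero_iff.1 (aleph0_pos.trans (h.inf.trans h.cofA)).ne'

theorem Set2.exists_gt (h : Set2 A K) (a : A) : ∃ b, a < b := by
  obtain ⟨b, hb⟩ := bdd_of_small (s := {a})
    (by rw [mk_singleton]; exact one_lt_aleph0.trans (h.inf.trans h.cofA))
  exact ⟨b, hb a rfl⟩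

theorem Set2.exists_gtK (h : Set2 A K) (a : K) : ∃ b, a < b := by
  obtain ⟨b, hb⟩ := bdd_of_small (s := {a})
    (by rw [mk_singleton, h.cofK]; exact one_lt_aleph0.trans h.inf)
  exact ⟨b, hb a rfl⟩

theorem Set2.neA0 (h : Set2 A K) : cof A ≠ ℵ₀ := (h.inf.trans h.cofA).ne'

theorem Set2.neK0 (h : Set2 A K) : cof K ≠ ℵ₀ := h.cofK ▸ h.inf.ne'

theorem Set2.cof_lt (h : Set2 A K) {a : A} (ha : cof (Iio a) ≠ #K) : cof (Iio a) < #K :=
  ((cof_le_cardinalMk _).trans (h.segA a)).lt_of_ne ha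

theorem club_Ioi' {B : Type u} [LinearOrder B] (h : ∀ a : B, ∃ b, a < b) (i : B) :
    IsClub (Ioi i) :=
  ⟨fun s hs ⟨e, he⟩ _ x hx => (hs he).trans_le (hx.1 he), fun e => by
    obtain ⟨j, hj⟩ := h i
    exact ⟨max e j, hj.trans_le (le_max_right _ _), le_max_left _ _⟩⟩

theorem lim_of_cof {a : A} (ha : 1 < cof (Iio a)) : Lim univ a := by
  have : Nonempty (Iio a) := cof_ne_zero_iff.1 (zero_lt_one.trans ha).ne'
  refine ⟨⟨_, (Classical.arbitrary (Iio a)).2⟩, fun b hb => ?_⟩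
  obtain ⟨c, h1, h2⟩ := bdd_below (s := {b}) (a := a) (singleton_subset_iff.2 hb)
    (by rwa [mk_singleton])
  exact ⟨c, mem_univ _, h2 b rfl, h1⟩

variable [WellFoundedLT A]

theorem Set2.club (h : Set2 A K) (g : A → A) : IsClub {b | ∀ a < b, g a < b} :=
  club_closure (h.inf.trans h.cofA) (fun a => (h.segA a).trans_lt h.cofA) g

/-- The limits of a cofinal set contain a club. -/
theorem Set2.club_lim (h : Set2 A K) {X : Set A} (hX : IsCofinal X) :
    ∃ C, IsClub C ∧ ∀ b ∈ C, Lim X b := by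
  have h1 : ∀ a, ∃ g, ∃ c ∈ X, a < c ∧ c < g := fun a => by
    obtain ⟨b, hb⟩ := h.exists_gt a
    obtain ⟨c, h1, h2⟩ := hX b
    obtain ⟨g, hg⟩ := h.exists_gt c
    exact ⟨g, c, h1, hb.trans_le h2, hg⟩
  choose g hg using h1
  obtain ⟨z⟩ := h.neA
  refine ⟨_, (h.club g).inter h.neA0 (club_Ioi' h.exists_gt z), fun b hb =>
    ⟨⟨z, hb.2⟩, fun a ha => ?_⟩⟩
  obtain ⟨c, h1, h2, h3⟩ := hg a
  exact ⟨c, h1, h2, h3.trans (hb.1 a ha)⟩

theorem Set2.diamond (h : Set2 A K) {S : Set A} (hS : IsStationary S)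
    (hm : ∀ b ∈ S, cof (Iio b) < #K) :
    ∃ G : A → A → Set K, ∀ F : A → Set K, IsStationary {b | b ∈ S ∧ ∀ a < b, G b a = F a} := by
  classical
  have := h.neA
  have := h.neK
  have hA : ℵ₀ ≤ #A := (h.inf.trans h.cofA).le.trans (cof_le_cardinalMk A)
  have h1 : #(K → Set K) ≤ #A := by
    rw [← power_def]
    exact h.pow_le' le_rfl (by rw [mk_set, h.cardA])
  have h2 : #(Σ a : A, (Iio a → K → Set K)) ≤ #A := by
    rw [mk_sigma]
    refine (sum_le_sum _ (fun _ => #A) fun a => ?_).trans ?_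
    · rw [← power_def]
      exact h.pow_le' (h.segA a) h1
    · rw [sum_const', mul_eq_self hA]
  have : Nonempty (Σ a : A, (Iio a → K → Set K)) := ⟨⟨Classical.arbitrary A, fun _ _ => ∅⟩⟩
  obtain ⟨e, he⟩ := exists_surj h2
  let x : A → A → K → Set K := fun η a => if ha : a < (e η).1 then (e η).2 ⟨a, ha⟩ else fun _ => ∅
  have hx : ∀ (F : A → K → Set K) (c : A), ∃ η, ∀ a < c, x η a = F a := fun F c => by
    obtain ⟨η, hη⟩ := he ⟨c, fun a => F a⟩
    refine ⟨η, fun a ha => ?_⟩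
    simp only [x]
    generalize e η = p at hη
    subst hη
    exact dif_pos ha
  have h3 : ∀ b : A, ∃ P : K → A → K → Set K, b ∈ S → Lim univ b →
      ∀ (F : A → K → Set K) (η : A → A),
      (∀ c, ∀ a < c, x (η c) a = F a) → (∀ c < b, η c < b) → ∃ j, ∀ a < b, P j a = F a := by
    intro b
    by_cases hb : b ∈ S ∧ Lim univ b
    swap
    · exact ⟨fun _ _ _ => ∅, fun h h' => absurd ⟨h, h'⟩ hb⟩
    obtain ⟨C, hC, hC1, hC2, -⟩ := exists_thin b
    have h4 : #(C → Iio b) ≤ #K := by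
      rw [← power_def]
      exact h.pow_le (hC2.trans_lt (hm b hb.1)) (h.segA b)
    have : Nonempty (C → Iio b) := ⟨fun c => ⟨c, hC c.2⟩⟩
    obtain ⟨q, hq⟩ := exists_surj h4
    have h5 : ∀ a, ∃ c : C, a < b → a < c := fun a => by
      have h6 : ∀ a < b, ∃ c : C, a < c := fun a ha => by
        obtain ⟨d, -, h7, hd⟩ := hb.2.2 a ha
        obtain ⟨c, hc, h8⟩ := hC1 d hd
        exact ⟨⟨c, hc⟩, h7.trans_le h8⟩
      by_cases ha : a < b
      · obtain ⟨c, hc⟩ := h6 a ha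
        exact ⟨c, fun _ => hc⟩
      · obtain ⟨d, hd⟩ := hb.2.1
        obtain ⟨c, -⟩ := h6 d hd
        exact ⟨c, fun h => absurd h ha⟩
    choose c hc using h5
    refine ⟨fun j a => x (q j (c a)) a, fun _ _ F η h6 h7 => ?_⟩
    obtain ⟨j, hj⟩ := hq fun d => ⟨η d, h7 d (hC d.2)⟩
    exact ⟨j, fun a ha => by simp only [hj]; exact h6 _ a (hc a ha)⟩
  choose P hP using h3
  by_contra! hcon
  choose F hF using fun j => hcon fun b a => P b j a j
  choose D hD hD' using fun j => not_isStationary_iff.1 (hF j)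
  choose η hη using hx fun a j => F j a
  obtain ⟨L, hL, hL'⟩ := h.club_lim (X := univ) IsCofinal.univ
  obtain ⟨b, hb, ⟨h6, h7⟩, h8⟩ := hS (((h.club η).inter h.neA0
    (IsClub.iInter h.neA0 (by simpa using h.cofA) hD)).inter h.neA0 hL)
  obtain ⟨j, hj⟩ := hP b hb (hL' b h8) _ η hη h6
  exact disjoint_left.1 (hD' j) ⟨hb, fun a ha => congrFun (hj a ha) j⟩ (mem_iInter.1 h7 j)

theorem Set2.card_br (h : Set2 A K) {T : A → Set (Set A)} {a : A}
    (hT : ∀ b < a, #(T b) ≤ #K) (ha : cof (Iio a) < #K) : #(Br T a) ≤ #K := by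
  obtain ⟨C, h1, h2, h3, -⟩ := exists_thin a
  have h4 : ∀ (s : Br T a) (c : C), ∃ k, en K (T c) k = s.1 ∩ Iio c.1 := fun s c =>
    en_spec (hT c (h1 c.2)) (s.2.2 c (h1 c.2))
  choose q hq using h4
  have h5 : Function.Injective fun (s : Br T a) (c : C) => (q s c, ULift.up.{u} (c.1 ∈ s.1)) := by
    have key : ∀ s t : Br T a, (∀ c : C, q s c = q t c ∧ (c.1 ∈ s.1 ↔ c.1 ∈ t.1)) →
        s.1 ⊆ t.1 := fun s t h5 b hb => by
      obtain ⟨c, hc, h6⟩ := h2 b (s.2.1 hb)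
      rcases h6.eq_or_lt with rfl | h6
      · exact (h5 ⟨b, hc⟩).2.1 hb
      · have h7 := hq s ⟨c, hc⟩
        rw [(h5 ⟨c, hc⟩).1, hq t] at h7
        exact (h7.ge ⟨hb, h6⟩).1
    intro s t hst
    have h6 : ∀ c : C, q s c = q t c ∧ (c.1 ∈ s.1 ↔ c.1 ∈ t.1) := fun c => by
      simpa using congrFun hst c
    exact Subtype.ext (Subset.antisymm (key s t h6) (key t s fun c => ⟨(h6 c).1.symm, (h6 c).2.symm⟩))
  refine (mk_le_of_injective h5).trans ?_
  rw [← power_def]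
  refine h.pow_le (h3.trans_lt ha) ?_
  rw [← mul_def]
  refine (mul_le_mul_right (?_ : _ ≤ #K) _).trans_eq (mul_eq_self h.inf.le)
  exact (mk_le_aleph0).trans h.inf.le

theorem Set2.souslin (h : Set2 A K) {N : Set A} (ht : Ordinal.type (α := A) (· < ·) = (succ #K).ord)
    (h2 : ∀ a ∈ N, Lim univ a) {T : A → Set (Set A)} (hT : ∀ a, Nice K N T a)
    (hU : ∀ U, DC U → (∀ b, ∀ x ∈ T b, ∃ c, b ≤ c ∧ ∃ w ∈ T c, w ∩ Iio b = x ∧ w ∉ U c) →
      ∃ a, ∀ s ∈ T a, s ∉ U a) : IsSouslin #K (Node T) := by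
  have := h.neA
  have hs := (hT (Classical.arbitrary A)).sub
  have hcard : ∀ a, #(T a) ≤ #K := fun a => by
    obtain ⟨b, hb⟩ := h.exists_gt a
    exact (hT b).card a hb
  have hsmall : ∀ (X : Set (Node T)) (a : A), (∀ p ∈ X, p.1.1 ≤ a) → #X ≤ #K := fun X a hX => by
    obtain ⟨b, hb⟩ := h.exists_gt a
    refine (mk_le_of_injective (f := fun p : X =>
      (⟨⟨p.1.1.1, (hX _ p.2).trans_lt hb⟩, ⟨p.1.1.2, p.1.2⟩⟩ : Σ c : Iio b, T c)) ?_).trans ?_
    · rintro ⟨⟨⟨c, s⟩, _⟩, _⟩ ⟨⟨⟨d, t⟩, _⟩, _⟩ e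
      obtain ⟨e1, e2⟩ := Sigma.mk.inj_iff.1 e
      obtain rfl : c = d := congrArg Subtype.val e1
      obtain rfl : s = t := congrArg Subtype.val (eq_of_heq e2)
      rfl
    · rw [mk_sigma]
      refine (sum_le_sum _ (fun _ => #K) fun c : Iio b => hcard c).trans ?_
      rw [sum_const']
      exact (mul_le_mul_left (h.segA b) _).trans_eq (mul_eq_self h.inf.le)
  let U : Set (Node T) → A → Set (Set A) := fun X a => {s | ∃ p ∈ X, a < p.1.1 ∧ p.1.2 ∩ Iio a = s}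
  have main : ∀ X : Set (Node T),
      (∀ b, ∀ x ∈ T b, ∃ c, b ≤ c ∧ ∃ w ∈ T c, w ∩ Iio b = x ∧ w ∉ U X c) → #X ≠ succ #K := by
    intro X hX e
    obtain ⟨a, ha⟩ := hU (U X) (by
      rintro a b hab _ ⟨p, h3, h4, rfl⟩
      exact ⟨p, h3, hab.trans_lt h4, (inter_Iio hab).symm⟩) hX
    refine (lt_succ #K).not_ge (e ▸ hsmall X a fun p hp => not_lt.1 fun h3 => ?_)
    exact ha _ (down hs h3.le p.2) ⟨p, hp, h3, rfl⟩
  refine ⟨fun t p hp q hq _ => ?_, fun t => ?_, fun o ho => ?_, fun o => ?_, fun C hC => ?_,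
    fun X hX => ?_⟩
  · have h3 := (Node.le_iff hs).1 (le_of_lt hp)
    have h4 := (Node.le_iff hs).1 (le_of_lt hq)
    rcases le_total p.1.1 q.1.1 with h5 | h5
    · exact Or.inl ((Node.le_iff hs).2 ⟨h5, by rw [← h4.2, inter_Iio h5, h3.2]⟩)
    · exact Or.inr ((Node.le_iff hs).2 ⟨h5, by rw [← h3.2, inter_Iio h5, h4.2]⟩)
  · rw [height_node hs, ← ht]
    exact Ordinal.typein_lt_type _ _
  · obtain ⟨a, rfl⟩ := Ordinal.typein_surj (α := A) (· < ·) (ht ▸ ho)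
    obtain ⟨z, -, hz⟩ := wellFounded_lt.has_min (univ : Set A) univ_nonempty
    have h3 : z ∉ N := fun h3 => by
      obtain ⟨b, hb⟩ := (h2 z h3).1
      exact hz b (mem_univ _) hb
    obtain ⟨b, hb⟩ := h.exists_gt a
    obtain ⟨y, hy, -⟩ := (hT b).norm a hb z (not_lt.1 (hz a (mem_univ _))) ∅
      ((hT b).full z h3 ⟨empty_subset _, fun c hc => absurd hc (hz c (mem_univ _))⟩)
    exact ⟨⟨(a, y), hy⟩, height_node hs _⟩
  · rcases eq_empty_or_nonempty {t : Node T | height t = o} with e | ⟨p, hp⟩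
    · simp [e]
    refine hsmall _ p.1.1 fun q hq => not_lt.1 fun h3 => ?_
    have h4 := (Ordinal.typein_lt_typein (α := A) (· < ·)).2 h3
    rw [← height_node hs, ← height_node hs, hp, hq] at h4
    exact h4.false
  · refine main C fun b x hx => ?_
    obtain ⟨d, hd⟩ := h.exists_gt b
    obtain ⟨c, hc, hc'⟩ := exists_succ hd
    have h3 : c ∉ N := fun h3 => by
      obtain ⟨e, -, h4, h5⟩ := (h2 c h3).2 b hc
      exact ((hc' e).1 h5).not_gt h4
    have hx' := (hs _ hx).1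
    have h4 : ∀ w : Set A, w ⊆ Iio c → w ∩ Iio b = x → w ∈ T c := fun w h4 h5 =>
      (hT b).full c h3 ⟨h4, fun e he => by
        rw [← inter_Iio ((hc' e).1 he), h5]
        exact down hs ((hc' e).1 he) hx⟩
    have h5 : x ∩ Iio b = x := inter_eq_left.2 hx'
    have h6 : insert b x ∩ Iio b = x := by
      rw [insert_inter_of_notMem (show b ∉ Iio b from lt_irrefl b), h5]
    by_contra! h7
    obtain ⟨p, hp, h8, h9⟩ := h7 c hc.le x (h4 x (hx'.trans (Iio_subset_Iio hc.le)) h5) h5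
    obtain ⟨q, hq, h10, h11⟩ := h7 c hc.le (insert b x)
      (h4 _ (insert_subset hc (hx'.trans (Iio_subset_Iio hc.le))) h6) h6
    have h12 : p.1.2 ∩ Iio c = q.1.2 ∩ Iio c := by
      rcases hC.total hp hq with h12 | h12
      · rw [← ((Node.le_iff hs).1 h12).2, inter_Iio h8.le]
      · rw [← ((Node.le_iff hs).1 h12).2, inter_Iio h10.le]
    rw [h9, h11] at h12
    exact lt_irrefl b (hx' (h12.ge (mem_insert _ _)))
  · refine main X fun b x hx => ?_
    by_cases h3 : x ∈ U X b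
    swap
    · exact ⟨b, le_rfl, x, hx, inter_eq_left.2 (hs _ hx).1, h3⟩
    obtain ⟨p, hp, h4, h5⟩ := h3
    refine ⟨p.1.1, h4.le, p.1.2, p.2, h5, ?_⟩
    rintro ⟨q, hq, h6, h7⟩
    exact hX hp hq (fun e => h6.ne (by rw [e])) ((Node.le_iff hs).2 ⟨h6.le, h7⟩)

end Pool.Agent.Lib.MP_a0c85e_lc
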