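import Pool.Agent.Lib.MP_a0c85e_lc.H40Set

/-! Branches that leave fewer than `#K` nowhere dense sets, each below a point of cofinality `#K`. -/

open Cardinal Set Order

namespace Pool.Agent.Lib.MP_a0c85e_lc

universe u

variable {A : Type u} [LinearOrder A]

/-- `s` leaves the set `t.2` below the level `t.1`. -/
def Esc (t : A × (A → Set (Set A))) (s : Set A) : Prop := ∃ e < t.1, s ∩ Iio e ∉ t.2 e

theorem Esc.up {t : A × (A → Set (Set A))} {s y : Set A} {b : A} (h : Esc t y) (hb : t.1 ≤ b)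
    (e : s ∩ Iio b = y) : Esc t s := by
  obtain ⟨c, h1, h2⟩ := h
  exact ⟨c, h1, by rwa [← inter_Iio (h1.le.trans hb), e]⟩

theorem Esc.mono {U : A → Set (Set A)} {s : Set A} {b c : A} (h : Esc (b, U) s) (hb : b ≤ c) :
    Esc (c, U) s := by
  obtain ⟨e, h1, h2⟩ := h
  exact ⟨e, lt_of_lt_of_le h1 hb, h2⟩

/-- Every node extends to the level `b` and can leave any small family of nowhere dense sets. -/
def Ext (K : Type u) (T : A → Set (Set A)) (b : A) : Prop :=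
  ∀ ξ ≤ b, ∀ x ∈ T ξ, ∀ Θ : Set (A × (A → Set (Set A))), #Θ < #K →
    (∀ t ∈ Θ, ξ < t.1 ∧ t.1 ≤ b ∧ cof (Iio t.1) = #K ∧ NWD T t.2 t.1) →
    ∃ y ∈ T b, y ∩ Iio ξ = x ∧ ∀ t ∈ Θ, Esc t y

theorem Lim.mono {s t : Set A} {x : A} (h : Lim s x) (e : s ⊆ t) : Lim t x :=
  ⟨h.1, fun a ha => by
    obtain ⟨c, h1, h2⟩ := h.2 a ha
    exact ⟨c, e h1, h2⟩⟩

theorem Lim.cof_le_range {J : Type u} {γ : J → A} {x : A} (h : Lim (range γ) x) :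
    cof (Iio x) ≤ #J :=
  h.cof_le.trans ((mk_le_mk_of_subset inter_subset_left).trans mk_range_le)

theorem exists_chain [Nonempty A] {I : Type u} [LinearOrder I] [WellFoundedLT I]
    (Q : I → A → Set A → Prop) (hQ : ∀ i c w, Q i c w → w ⊆ Iio c)
    (step : ∀ (i : I) (γ : Iio i → A) (y : Iio i → Set A), StrictMono γ →
      (∀ j : Iio i, Q j (γ j) (y j)) → (∀ j j', j ≤ j' → y j' ∩ Iio (γ j) = y j) →
      ∃ c w, Q i c w ∧ ∀ j, γ j < c ∧ w ∩ Iio (γ j) = y j) :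
    ∃ (γ : I → A) (y : I → Set A), StrictMono γ ∧ (∀ i, Q i (γ i) (y i)) ∧
      ∀ j j', j ≤ j' → y j' ∩ Iio (γ j) = y j := by
  obtain ⟨f, hf⟩ := exists_rec (I := I) (β := A × Set A)
    (fun i f p => ((StrictMono fun j => (f j).1) ∧ (∀ j : Iio i, Q j (f j).1 (f j).2) ∧
      ∀ j j', j ≤ j' → (f j').2 ∩ Iio (f j).1 = (f j).2) →
      Q i p.1 p.2 ∧ ∀ j, (f j).1 < p.1 ∧ p.2 ∩ Iio (f j).1 = (f j).2) fun i f => by
      by_cases h : (StrictMono fun j => (f j).1) ∧ (∀ j : Iio i, Q j (f j).1 (f j).2) ∧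
        ∀ j j', j ≤ j' → (f j').2 ∩ Iio (f j).1 = (f j).2
      · obtain ⟨c, w, h1⟩ := step i _ (fun j => (f j).2) h.1 h.2.1 h.2.2
        exact ⟨(c, w), fun _ => h1⟩
      · exact ⟨(Classical.arbitrary A, ∅), fun h' => absurd h' h⟩
  have key : ∀ i, Q i (f i).1 (f i).2 ∧
      ∀ j : Iio i, (f j).1 < (f i).1 ∧ (f i).2 ∩ Iio (f j).1 = (f j).2 := fun i => by
    induction i using WellFoundedLT.induction with
    | ind i ih =>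
      refine hf i ⟨fun j k hjk => ((ih k k.2).2 ⟨j, hjk⟩).1, fun j => (ih j j.2).1,
        fun j k hjk => ?_⟩
      rcases hjk.eq_or_lt with rfl | hjk
      · exact inter_eq_left.2 (hQ _ _ _ (ih j j.2).1)
      · exact ((ih k k.2).2 ⟨j, hjk⟩).2
  refine ⟨fun i => (f i).1, fun i => (f i).2, fun j k hjk => ((key k).2 ⟨j, hjk⟩).1,
    fun i => (key i).1, fun j k hjk => ?_⟩
  rcases hjk.eq_or_lt with rfl | hjk
  · exact inter_eq_left.2 (hQ _ _ _ (key j).1)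
  · exact ((key k).2 ⟨j, hjk⟩).2

variable [WellFoundedLT A] {T : A → Set (Set A)}

theorem exists_base (hs : ∀ b, T b ⊆ Br T b) {J : Type u} [LinearOrder J] {γ : J → A}
    {y : J → Set A} (hγ : StrictMono γ) {ξ b : A} {x : Set A} (hx : x ∈ T ξ) (hb : ξ ≤ b)
    (h1 : ∀ j, y j ∈ T (γ j) ∧ ξ ≤ γ j ∧ y j ∩ Iio ξ = x ∧ γ j ≤ b)
    (hc : ∀ j j', j ≤ j' → y j' ∩ Iio (γ j) = y j)
    (hf : ∀ σ ≤ b, ξ < σ → Lim (range γ) σ → ∀ s ∈ Br T σ, (∀ j, s ∩ Iio (γ j) = y j) → s ∈ T σ) :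
    ∃ σ ≤ b, ξ ≤ σ ∧ ∃ z ∈ T σ, z ∩ Iio ξ = x ∧ (∀ j, γ j ≤ σ ∧ z ∩ Iio (γ j) = y j) ∧
      ∀ c, ξ < c → c ≤ σ → cof (Iio c) ≤ #J ∨ ∃ j, c ≤ γ j := by
  rcases isEmpty_or_nonempty J with hJ | ⟨⟨j0⟩⟩
  · exact ⟨ξ, hb, le_rfl, x, hx, inter_eq_left.2 (hs _ hx).1, fun j => isEmptyElim j,
      fun c h2 h3 => absurd h2 h3.not_gt⟩
  obtain ⟨σ, hσ⟩ := exists_lub (s := range γ) (b := b) (by rintro _ ⟨j, rfl⟩; exact (h1 j).2.2.2)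
  have h2 : σ ≤ b := hσ.2 (by rintro _ ⟨j, rfl⟩; exact (h1 j).2.2.2)
  have h3 : ∀ j, γ j ≤ σ := fun j => hσ.1 ⟨j, rfl⟩
  by_cases h4 : σ ∈ range γ
  · obtain ⟨j1, rfl⟩ := h4
    exact ⟨_, h2, (h1 j1).2.1, y j1, (h1 j1).1, (h1 j1).2.2.1,
      fun j => ⟨h3 j, hc j j1 (hγ.le_iff_le.1 (h3 j))⟩, fun c _ h5 => Or.inr ⟨j1, h5⟩⟩
  have h5 := lim_of_lub hσ h4 ⟨_, j0, rfl⟩
  have h6 : ξ < σ := (h1 j0).2.1.trans_lt ((h3 j0).lt_of_ne fun e => h4 ⟨j0, e⟩)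
  have h7 := union_br hs (fun j => (h1 j).1) hc (a := σ) h3 fun c hc => by
    obtain ⟨_, ⟨j, rfl⟩, h7, -⟩ := h5.2 c hc
    exact ⟨j, h7.le⟩
  refine ⟨σ, h2, h6.le, _, hf σ h2 h6 h5 _ h7 (union_coh hc), ?_,
    fun j => ⟨h3 j, union_coh hc j⟩, fun c _ h8 => ?_⟩
  · rw [← inter_Iio (h1 j0).2.1, union_coh hc, (h1 j0).2.2.1]
  · rcases h8.eq_or_lt with rfl | h8
    · exact Or.inl h5.cof_le_range
    · obtain ⟨_, ⟨j, rfl⟩, h9, -⟩ := h5.2 c h8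
      exact Or.inr ⟨j, h9.le⟩

variable {K : Type u} {R : Set A} {V : A → A → Set (Set A)} {a ξ : A} {x : Set A} {C : Set A}
  {Θ : Set (A × (A → Set (Set A)))}

/-- Climbing along a cofinal set, every task being done at its own point. -/
theorem climb_tasks (hs : ∀ b, T b ⊆ Br T b)
    (hf : ∀ b, cof (Iio b) < #K → ∀ s ∈ Br T b, (b ∈ R → Esc (b, V b) s) → s ∈ T b)
    (ih : ∀ b < a, Ext K T b) (h1 : C ⊆ Iio a) (h2 : ∀ b < a, ∃ c ∈ C, b ≤ c)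
    (h3 : ∀ b < a, #(C ∩ Iio b : Set A) < #K) (hξ : ξ < a) (hx : x ∈ T ξ)
    (h4 : ∀ t ∈ Θ, ξ < t.1 ∧ t.1 < a ∧ cof (Iio t.1) = #K ∧ NWD T t.2 t.1)
    (h5 : ∀ b < a, #{t ∈ Θ | t.1 ≤ b} < #K)
    (h6 : ∀ σ < a, ξ < σ → Lim C σ → σ ∈ R → ∃ c < σ, (c, V σ) ∈ Θ) :
    ∃ s ∈ Br T a, s ∩ Iio ξ = x ∧ ∀ t ∈ Θ, Esc t s := by
  have : Nonempty A := ⟨a⟩
  obtain ⟨γ, y, -, h7, h8⟩ := exists_chain (I := (C ∩ Ici ξ : Set A))
    (fun i c w => c = i.1 ∧ w ∈ T c ∧ w ∩ Iio ξ = x ∧ ∀ t ∈ Θ, t.1 ≤ c → Esc t w)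
    (fun i c w h => (hs _ h.2.1).1) fun i γ y hγ hy hc => by
      have e1 : ∀ j, γ j < i.1 := fun j => (hy j).1 ▸ j.2
      have e2 : ∀ j, γ j ∈ C ∩ Ici ξ := fun j => (hy j).1 ▸ j.1.2
      have e3 : i.1 < a := h1 i.2.1
      have e4 : #(Iio i) < #K := lt_of_le_of_lt (mk_le_of_injective
        (f := fun j : Iio i => (⟨γ j, (e2 j).1, e1 j⟩ : (C ∩ Iio i.1 : Set A)))
        fun j k e => hγ.injective (congrArg Subtype.val e)) (h3 _ e3)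
      obtain ⟨σ, e5, e6, z, hz, e7, e8, e9⟩ := exists_base hs hγ hx i.2.2
        (fun j => ⟨(hy j).2.1, (e2 j).2, (hy j).2.2.1, (e1 j).le⟩) hc
        fun σ e5 e6 e7 s e8 e9 => hf σ (e7.cof_le_range.trans_lt e4) s e8 fun hR => by
          obtain ⟨c, hc1, hc2⟩ := h6 σ (e5.trans_lt e3) e6
            (e7.mono (by rintro _ ⟨j, rfl⟩; exact (e2 j).1)) hR
          obtain ⟨_, ⟨j, rfl⟩, e10, -⟩ := e7.2 c hc1
          exact (((hy j).2.2.2 _ hc2 e10.le).up e10.le (e9 j)).mono hc1.le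
      obtain ⟨w, hw, e10, e11⟩ := ih _ e3 σ e5 z hz {t ∈ Θ | σ < t.1 ∧ t.1 ≤ i.1}
        ((mk_le_mk_of_subset (t := {t ∈ Θ | t.1 ≤ i.1}) fun t ht => ⟨ht.1, ht.2.2⟩).trans_lt
          (h5 _ e3))
        fun t ht => ⟨ht.2.1, ht.2.2, (h4 t ht.1).2.2⟩
      have e12 : ∀ j, w ∩ Iio (γ j) = y j := fun j => by
        rw [← inter_Iio (e8 j).1, e10, (e8 j).2]
      refine ⟨i.1, w, ⟨rfl, hw, by rw [← inter_Iio e6, e10, e7], fun t ht e13 => ?_⟩,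
        fun j => ⟨e1 j, e12 j⟩⟩
      rcases lt_or_ge σ t.1 with e14 | e14
      · exact e11 t ⟨ht, e14, e13⟩
      rcases e9 _ (h4 t ht).1 e14 with e15 | ⟨j, e15⟩
      · exact absurd ((h4 t ht).2.2.1 ▸ e15) e4.not_ge
      · exact ((hy j).2.2.2 t ht e15).up e15 (e12 j)
  have h9 : ∀ b < a, ∃ j, b ≤ γ j := fun b hb => by
    obtain ⟨c, e1, e2⟩ := h2 _ (max_lt hb hξ)
    exact ⟨⟨c, e1, (le_max_right _ _).trans e2⟩, (h7 _).1 ▸ (le_max_left _ _).trans e2⟩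
  refine ⟨_, union_br hs (fun j => (h7 j).2.1) h8 (fun j => (h7 j).1 ▸ le_of_lt (h1 j.2.1)) h9,
    ?_, fun t ht => ?_⟩
  · obtain ⟨j, hj⟩ := h9 ξ hξ
    rw [← inter_Iio hj, union_coh h8, (h7 j).2.2.1]
  · obtain ⟨j, hj⟩ := h9 _ (h4 t ht).2.1
    exact ((h7 j).2.2.2 t ht hj).up hj (union_coh h8 j)

/-- Fewer than `#K` tasks are done below a point of cofinality `#K`. -/
theorem do_tasks (h0 : ℵ₀ < #K) (hs : ∀ b, T b ⊆ Br T b)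
    (hf : ∀ b, cof (Iio b) < #K → ∀ s ∈ Br T b, (b ∈ R → Esc (b, V b) s) → s ∈ T b)
    (ih : ∀ b < a, Ext K T b) (ha : cof (Iio a) = #K) (h1 : C ⊆ Iio a)
    (h2 : ∀ b < a, ∃ c ∈ C, b ≤ c) (h3 : ∀ σ < a, Lim C σ → σ ∉ R) (hξ : ξ < a) (hx : x ∈ T ξ)
    (h4 : ∀ t ∈ Θ, NWD T t.2 a) (h5 : #Θ < #K) :
    ∃ c < a, ξ ≤ c ∧ ∃ w ∈ T c, w ∩ Iio ξ = x ∧ ∀ t ∈ Θ, Esc (c, t.2) w := by
  have : Nonempty A := ⟨a⟩
  obtain ⟨e⟩ := Cardinal.eq.1 (mk_ord_toType #Θ)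
  have hl : Lim univ a := lim_of_cof (ha ▸ one_lt_aleph0.trans h0)
  have base : ∀ {J : Type u} [LinearOrder J] {γ : J → A} {y : J → Set A}, #J < #K → StrictMono γ →
      (∀ j, γ j ∈ C ∧ y j ∈ T (γ j) ∧ ξ ≤ γ j ∧ y j ∩ Iio ξ = x) →
      (∀ j j', j ≤ j' → y j' ∩ Iio (γ j) = y j) → ∃ σ < a, ξ ≤ σ ∧ ∃ z ∈ T σ, z ∩ Iio ξ = x ∧
        ∀ j, γ j ≤ σ ∧ z ∩ Iio (γ j) = y j := by
    intro J _ γ y e1 hγ hy hc
    obtain ⟨b, hb, e2⟩ := bdd_below (s := insert ξ (range γ)) (a := a)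
      (insert_subset hξ (by rintro _ ⟨j, rfl⟩; exact h1 (hy j).1))
      (by
        rw [ha]
        exact mk_insert_le.trans_lt
          (add_lt_of_lt h0.le (mk_range_le.trans_lt e1) (one_lt_aleph0.trans h0)))
    obtain ⟨σ, e3, e4, z, hz, e5, e6, -⟩ := exists_base hs hγ hx (e2 ξ (by simp)).le
      (fun j => ⟨(hy j).2.1, (hy j).2.2.1, (hy j).2.2.2, (e2 _ (by simp)).le⟩) hc
      fun σ e3 _ e4 s e5 _ => hf σ (e4.cof_le_range.trans_lt e1) s e5 fun hR =>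
        absurd hR (h3 σ (e3.trans_lt hb) (e4.mono (by rintro _ ⟨j, rfl⟩; exact (hy j).1)))
    exact ⟨σ, e3.trans_lt hb, e4, z, hz, e5, e6⟩
  have hI : #(#Θ).ord.ToType < #K := by rwa [mk_ord_toType]
  obtain ⟨γ, y, h6, h7, h8⟩ := exists_chain (I := (#Θ).ord.ToType)
    (fun i c w => (c ∈ C ∧ w ∈ T c ∧ ξ ≤ c ∧ w ∩ Iio ξ = x) ∧ Esc (c, (e i).1.2) w)
    (fun i c w h => (hs _ h.1.2.1).1) fun i γ y hγ hy hc => by
      obtain ⟨σ, e1, e2, z, hz, e3, e4⟩ := base ((mk_set_le _).trans_lt hI) hγ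
        (fun j => (hy j).1) hc
      obtain ⟨c, e5, e6, w, hw, e7, e8⟩ := h4 _ (e i).2 σ e1 z hz
      obtain ⟨c', -, e9, e10⟩ := hl.2 c e5
      obtain ⟨d, hd, e11⟩ := h2 c' e10
      have e12 : c < d := e9.trans_le e11
      obtain ⟨v, hv, e13, -⟩ := ih d (h1 hd) c e12.le w hw ∅ (by simpa using aleph0_pos.trans h0)
        fun t ht => ht.elim
      refine ⟨d, v, ⟨⟨hd, hv, (e2.trans e6).trans e12.le, ?_⟩, c, e12, by rwa [e13]⟩, fun j =>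
        ⟨((e4 j).1.trans e6).trans_lt e12, ?_⟩⟩
      · rw [← inter_Iio (e2.trans e6), e13, ← inter_Iio e2, e7, e3]
      · rw [← inter_Iio ((e4 j).1.trans e6), e13, ← inter_Iio (e4 j).1, e7, (e4 j).2]
  obtain ⟨σ, e1, e2, z, hz, e3, e4⟩ := base hI h6 (fun j => (h7 j).1) h8
  refine ⟨σ, e1, e2, z, hz, e3, fun t ht => ?_⟩
  obtain ⟨i, hi⟩ := e.surjective ⟨t, ht⟩
  have := ((h7 i).2.up le_rfl (e4 i).2).mono (e4 i).1
  rwa [hi] at this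

theorem card_lim (h2 : ∀ b < a, ∃ c ∈ C, b ≤ c) :
    #{σ | σ < a ∧ Lim C σ} ≤ #C := by
  have h1 : ∀ σ : {σ | σ < a ∧ Lim C σ}, ∃ d : C, σ.1 ≤ d ∧ ∀ c ∈ C, σ.1 ≤ c → d.1 ≤ c := fun σ => by
    obtain ⟨c, e1, e2⟩ := h2 _ σ.2.1
    obtain ⟨d, e3, e4⟩ := wellFounded_lt.has_min {c | c ∈ C ∧ σ.1 ≤ c} ⟨c, e1, e2⟩
    exact ⟨⟨d, e3.1⟩, e3.2, fun c e5 e6 => not_lt.1 (e4 c ⟨e5, e6⟩)⟩
  choose d hd hd' using h1
  have key : ∀ σ τ, d σ = d τ → ¬ σ.1 < τ.1 := fun σ τ e hlt => by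
    obtain ⟨c, e1, e2, e3⟩ := τ.2.2.2 _ hlt
    exact (hd' σ c e1 e2.le).not_gt (e3.trans_le (e ▸ hd τ))
  exact mk_le_of_injective (f := d) fun σ τ e =>
    Subtype.ext (le_antisymm (not_lt.1 (key τ σ e.symm)) (not_lt.1 (key σ τ e)))

end Pool.Agent.Lib.MP_a0c85e_lc
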