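import Pool.Agent.Lib.MP_a0c85e_lc.H40Task

/-! The tree: sealed on a set that does not reflect at points of cofinality `#K`, and along small
sets at the points of cofinality `#K`. -/

open Cardinal Set Order

namespace Pool.Agent.Lib.MP_a0c85e_lc

universe u

variable {A : Type u} [LinearOrder A]

/-- The set of nodes guessed at `b`. -/
def Vg (K : Type u) (G : A → A → Set K) (T : A → Set (Set A)) (b c : A) : Set (Set A) :=
  en K (T c) '' G b c

/-- The guess at `b` is nowhere dense below cofinally many points of cofinality `#K`. -/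
def Rich (K : Type u) (G : A → A → Set K) (T : A → Set (Set A)) (b : A) : Prop :=
  (∃ e, e < b) ∧ ∀ e < b, ∃ c, e < c ∧ c < b ∧ cof (Iio c) = #K ∧ NWD T (Vg K G T b) c

variable {K : Type u} {G : A → A → Set K} {T T' : A → Set (Set A)} {a : A}

theorem NWD.imp {U U' : A → Set (Set A)} (h : NWD T U a) (e : ∀ b < a, T b = T' b)
    (e' : ∀ b < a, U' b ⊆ U b) : NWD T' U' a := fun b hb x hx => by
  obtain ⟨c, h1, h2, w, h3, h4, h5⟩ := h b hb x (e b hb ▸ hx)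
  exact ⟨c, h1, h2, w, e c h1 ▸ h3, h4, fun h6 => h5 (e' c h1 h6)⟩

theorem Rich.congr (e : ∀ b < a, T b = T' b) : Rich K G T a ↔ Rich K G T' a := by
  have key : ∀ {T T' : A → Set (Set A)}, (∀ b < a, T b = T' b) → Rich K G T a → Rich K G T' a :=
    fun e h => ⟨h.1, fun d hd => by
      obtain ⟨c, h1, h2, h3, h4⟩ := h.2 d hd
      exact ⟨c, h1, h2, h3, h4.imp (fun b hb => e b (hb.trans h2))
        fun b hb => by rw [Vg, Vg, e b (hb.trans h2)]⟩⟩
  exact ⟨key e, key fun b hb => (e b hb).symm⟩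

theorem Esc.congr (e : ∀ b < a, T b = T' b) {s : Set A} :
    Esc (a, Vg K G T a) s ↔ Esc (a, Vg K G T' a) s :=
  exists_congr fun c => and_congr_right fun hc => by simp only [Vg, e c hc]

theorem Rich.lim (h : Rich K G T a) : Lim univ a :=
  ⟨h.1, fun e he => by
    obtain ⟨c, h1, h2, -⟩ := h.2 e he
    exact ⟨c, mem_univ _, h1, h2⟩⟩

variable [LinearOrder K]

theorem Set2.exists_ruleP (h : Set2 A K) (P : Set A → Prop) (T : A → Set (Set A)) (a : A) :
    ∃ X, RuleP K univ P T a X := by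
  let Q : Iio a × K → Set A → Prop := fun p s =>
    s ∈ Br T a ∧ P s ∧ s ∩ Iio p.1.1 = en K (T p.1) p.2
  refine ⟨(fun p => Classical.epsilon (Q p)) '' {p | ∃ s, Q p s}, ?_,
    fun h => absurd (mem_univ _) h,
    fun _ => mk_image_le.trans ((mk_set_le _).trans ?_), fun _ => ?_, fun _ b hb k hs => ?_⟩
  · rintro _ ⟨p, hp, rfl⟩
    exact (Classical.epsilon_spec hp).1
  · rw [← mul_def]
    exact (mul_le_mul_left (h.segA a) _).trans_eq (mul_eq_self h.inf.le)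
  · rintro _ ⟨p, hp, rfl⟩
    exact (Classical.epsilon_spec hp).2.1
  · exact ⟨_, ⟨(⟨b, hb⟩, k), hs, rfl⟩, (Classical.epsilon_spec (p := Q (⟨b, hb⟩, k)) hs).2.2⟩

variable [WellFoundedLT A]

theorem Set2.tree (h : Set2 A K) (ht : Ordinal.type (α := A) (· < ·) = (succ #K).ord)
    {S : Set A} (hS : ∀ b ∈ S, cof (Iio b) < #K) (G : A → A → Set K) (D Y : A → Set A)
    (hD : ∀ a, cof (Iio a) = #K → D a ⊆ Iio a ∧ (∀ b < a, ∃ c ∈ D a, b ≤ c) ∧
      (∀ b < a, #(D a ∩ Iio b : Set A) < #K) ∧ (∀ σ < a, Lim (D a) σ → σ ∉ S) ∧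
      (∀ b < a, #(Y a ∩ Iio b : Set A) < #K) ∧ ∀ y ∈ Y a, ¬ Lim (D a) y)
    (hit : ∀ (F : A → Set K) (C : Set A), IsClub C → (∃ b ∈ S ∩ C, ∀ c < b, G b c = F c) ∨
      ∃ a, cof (Iio a) = #K ∧ ∀ e < a, ∃ y ∈ Y a ∩ C, e < y ∧ y < a ∧ ∀ c < y, G y c = F c) :
    ∃ T : A → Set (Set A), IsSouslin #K (Node T) := by
  classical
  let P : (A → Set (Set A)) → A → Set A → Prop := fun T a s =>
    ∃ b < a, ∀ y ∈ Y a, b < y → y < a → Rich K G T y → Esc (y, Vg K G T y) s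
  let Φ : (A → Set (Set A)) → A → Set (Set A) → Prop := fun T a X =>
    (cof (Iio a) = #K → RuleP K univ (P T a) T a X) ∧ (cof (Iio a) ≠ #K →
      X = {s ∈ Br T a | a ∈ S ∧ Rich K G T a → Esc (a, Vg K G T a) s})
  have hΦ : ∀ T T' a X, (∀ b < a, T b = T' b) → Φ T a X → Φ T' a X := fun T T' a X e hX => by
    have e1 : P T a = P T' a := funext fun s => propext (exists_congr fun b =>
      and_congr_right fun _ => forall₂_congr fun y _ => forall₂_congr fun _ hy => by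
        rw [Rich.congr fun c hc => e c (hc.trans hy), Esc.congr fun c hc => e c (hc.trans hy)])
    have e2 : Br T a = Br T' a := Set.ext fun s =>
      and_congr_right fun _ => forall₂_congr fun b hb => by rw [e b hb]
    refine ⟨fun ha => e1 ▸ (hX.1 ha).congr e, fun ha => ?_⟩
    rw [hX.2 ha, e2, Rich.congr e]
    simp only [Esc.congr e]
  obtain ⟨T, hT⟩ := exists_rec (I := A) (β := Set (Set A))
    (fun a T X => Φ (fun b => if hb : b < a then T ⟨b, hb⟩ else ∅) a X) fun a T => by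
      by_cases ha : cof (Iio a) = #K
      · obtain ⟨X, hX⟩ := h.exists_ruleP (P (fun b => if hb : b < a then T ⟨b, hb⟩ else ∅) a)
          (fun b => if hb : b < a then T ⟨b, hb⟩ else ∅) a
        exact ⟨X, fun _ => hX, fun h => absurd ha h⟩
      · exact ⟨_, fun h => absurd h ha, fun _ => rfl⟩
  have hR : ∀ a, Φ T a (T a) := fun a => hΦ _ _ _ _ (fun b hb => dif_pos hb) (hT a)
  have hs : ∀ b, T b ⊆ Br T b := fun b => by
    by_cases hb : cof (Iio b) = #K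
    · exact ((hR b).1 hb).sub
    · exact ((hR b).2 hb).le.trans (sep_subset _ _)
  have hf : ∀ b, cof (Iio b) < #K → ∀ s ∈ Br T b,
      (b ∈ {b | b ∈ S ∧ Rich K G T b} → Esc (b, Vg K G T b) s) → s ∈ T b :=
    fun b hb s h1 h2 => ((hR b).2 hb.ne).ge ⟨h1, h2⟩
  have h1K : 1 < #K := one_lt_aleph0.trans h.inf
  have key : ∀ a, #(T a) ≤ #K ∧ Ext K T a := fun a => by
    induction a using WellFoundedLT.induction with
    | ind a ih =>
      suffices #(T a) ≤ #K ∧ ∀ ξ < a, ∀ x ∈ T ξ, ∀ Θ : Set (A × (A → Set (Set A))), #Θ < #K →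
          (∀ t ∈ Θ, ξ < t.1 ∧ t.1 ≤ a ∧ cof (Iio t.1) = #K ∧ NWD T t.2 t.1) →
          ∃ y ∈ T a, y ∩ Iio ξ = x ∧ ∀ t ∈ Θ, Esc t y by
        refine ⟨this.1, fun ξ hξ x hx Θ h1 h2 => ?_⟩
        rcases hξ.eq_or_lt with rfl | hξ
        · exact ⟨x, hx, inter_eq_left.2 (hs _ hx).1,
            fun t ht => absurd (h2 t ht).1 (h2 t ht).2.1.not_gt⟩
        · exact this.2 ξ hξ x hx Θ h1 h2
      have ih2 : ∀ b < a, Ext K T b := fun b hb => (ih b hb).2
      by_cases ha : cof (Iio a) = #K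
      · obtain ⟨d1, d2, d3, d4, d5, d6⟩ := hD a ha
        have hl : Lim univ a := lim_of_cof (ha ▸ h1K)
        have norm : ∀ ξ < a, ∀ x ∈ T ξ, ∃ y ∈ T a, y ∩ Iio ξ = x := fun ξ hξ x hx => by
          have h1 : ∀ y, ∃ c, y ∈ Y a ∧ ξ < y ∧ y < a ∧ Rich K G T y → (ξ < c ∧ c < y ∧
              cof (Iio c) = #K ∧ NWD T (Vg K G T y) c) ∧ ∀ d ∈ D a, c < d → y ≤ d := fun y => by
            by_cases hy : y ∈ Y a ∧ ξ < y ∧ y < a ∧ Rich K G T y
            swap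
            · exact ⟨y, fun h => absurd h hy⟩
            have h1 := d6 y hy.1
            rw [Lim, not_and] at h1
            have h2 := h1 ⟨ξ, hy.2.1⟩
            push Not at h2
            obtain ⟨e, h2, h3⟩ := h2
            obtain ⟨c, h4, h5⟩ := hy.2.2.2.2 _ (max_lt hy.2.1 h2)
            exact ⟨c, fun _ => ⟨⟨(le_max_left _ _).trans_lt h4, h5⟩, fun d hd h6 =>
              h3 d hd (((le_max_right _ _).trans_lt h4).trans h6)⟩⟩
          choose c hc using h1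
          obtain ⟨s, h2, h3, h4⟩ := climb_tasks (Θ := (fun y => (c y, Vg K G T y)) ''
              {y | y ∈ Y a ∧ ξ < y ∧ y < a ∧ Rich K G T y}) hs hf ih2 d1 d2 d3 hξ hx
            (by
              rintro _ ⟨y, hy, rfl⟩
              exact ⟨(hc y hy).1.1, (hc y hy).1.2.1.trans hy.2.2.1, (hc y hy).1.2.2⟩)
            (fun b hb => by
              obtain ⟨b1, -, e1, e2⟩ := hl.2 b hb
              obtain ⟨d, e3, e4⟩ := d2 b1 e2
              obtain ⟨b2, -, e5, e6⟩ := hl.2 d (d1 e3)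
              refine lt_of_le_of_lt ((mk_le_mk_of_subset (t := (fun y => (c y, Vg K G T y)) ''
                (Y a ∩ Iio b2)) ?_).trans mk_image_le) (d5 b2 e6)
              rintro _ ⟨⟨y, hy, rfl⟩, e7⟩
              exact ⟨y, ⟨hy.1, ((hc y hy).2 d e3 (lt_of_le_of_lt e7 (e1.trans_le e4))).trans_lt e5⟩,
                rfl⟩)
            fun σ e1 _ e2 e3 => absurd e3.1 (d4 σ e1 e2)
          obtain ⟨k, rfl⟩ := en_spec (ih ξ hξ).1 hx
          exact ((hR a).1 ha).ext (mem_univ _) ξ hξ k ⟨s, h2, ⟨ξ, hξ, fun y e1 e2 e3 e4 =>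
            (h4 _ ⟨y, ⟨e1, e2, e3, e4⟩, rfl⟩).mono (hc y ⟨e1, e2, e3, e4⟩).1.2.1.le⟩, h3⟩
        refine ⟨((hR a).1 ha).card (mem_univ _), fun ξ hξ x hx Θ h1 h2 => ?_⟩
        have h3 : ∀ p : A × (A → Set (Set A)) → Prop, #{t ∈ Θ | p t} < #K := fun p =>
          (mk_le_mk_of_subset (sep_subset _ _)).trans_lt h1
        obtain ⟨b, hb, h4⟩ := bdd_below (s := insert ξ (Prod.fst '' {t ∈ Θ | t.1 < a})) (a := a)
          (insert_subset hξ (by rintro _ ⟨t, ht, rfl⟩; exact ht.2))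
          (by
            rw [ha]
            exact mk_insert_le.trans_lt (add_lt_of_lt h.inf.le (mk_image_le.trans_lt (h3 _)) h1K))
        have h5 : ξ ≤ b := (h4 ξ (mem_insert _ _)).le
        have h6 : ∀ t ∈ Θ, t.1 < a → t.1 ≤ b := fun t e1 e2 =>
          (h4 _ (mem_insert_of_mem _ ⟨t, ⟨e1, e2⟩, rfl⟩)).le
        obtain ⟨z, hz, h7, h8⟩ := ih2 b hb ξ h5 x hx {t ∈ Θ | t.1 < a} (h3 _)
          fun t ht => ⟨(h2 t ht.1).1, h6 t ht.1 ht.2, (h2 t ht.1).2.2⟩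
        obtain ⟨c, e1, e2, w, hw, e3, e4⟩ := do_tasks (Θ := {t ∈ Θ | t.1 = a}) h.inf hs hf ih2 ha
          d1 d2 (fun σ e1 e2 e3 => d4 σ e1 e2 e3.1) hb hz
          (fun t ht => ht.2 ▸ (h2 t ht.1).2.2.2) (h3 _)
        obtain ⟨y, hy, e5⟩ := norm c e1 w hw
        have e6 : y ∩ Iio b = z := by rw [← inter_Iio e2, e5, e3]
        refine ⟨y, hy, by rw [← inter_Iio h5, e6, h7], fun t ht => ?_⟩
        rcases (h2 t ht).2.1.eq_or_lt with e7 | e7
        · exact ((e4 t ⟨ht, e7⟩).up le_rfl e5).mono (e1.le.trans e7.ge)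
        · exact (h8 t ⟨ht, e7⟩).up (h6 t ht e7) e6
      · have ha' := h.cof_lt ha
        refine ⟨(mk_le_mk_of_subset (hs a)).trans (h.card_br (fun b hb => (ih b hb).1) ha'),
          fun ξ hξ x hx Θ h1 h2 => ?_⟩
        obtain ⟨C, c1, c2, c3, -⟩ := exists_thin a
        have h3 : ∀ y, ∃ c, ξ < y ∧ Rich K G T y → ξ < c ∧ c < y ∧
            cof (Iio c) = #K ∧ NWD T (Vg K G T y) c := fun y => by
          by_cases hy : ξ < y ∧ Rich K G T y
          · obtain ⟨c, h3⟩ := hy.2.2 ξ hy.1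
            exact ⟨c, fun _ => h3⟩
          · exact ⟨y, fun h => absurd h hy⟩
        choose c hc using h3
        have h4 : #(Θ ∪ (fun y => (c y, Vg K G T y)) '' {y ∈ insert a {σ | σ < a ∧ Lim C σ} |
            ξ < y ∧ Rich K G T y} : Set _) < #K :=
          (mk_union_le _ _).trans_lt (add_lt_of_lt h.inf.le h1 (mk_image_le.trans_lt
            ((mk_le_mk_of_subset (sep_subset _ _)).trans_lt (mk_insert_le.trans_lt
              (add_lt_of_lt h.inf.le ((card_lim c2).trans_lt (c3.trans_lt ha')) h1K)))))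
        obtain ⟨s, h5, h6, h7⟩ := climb_tasks (Θ := Θ ∪ (fun y => (c y, Vg K G T y)) ''
            {y ∈ insert a {σ | σ < a ∧ Lim C σ} | ξ < y ∧ Rich K G T y}) hs hf ih2 c1 c2
          (fun b _ => (mk_le_mk_of_subset inter_subset_left).trans_lt (c3.trans_lt ha')) hξ hx
          (by
            rintro t (ht | ⟨y, hy, rfl⟩)
            · exact ⟨(h2 t ht).1, (h2 t ht).2.1.lt_of_ne fun e => ha (e ▸ (h2 t ht).2.2.1),
                (h2 t ht).2.2⟩
            · refine ⟨(hc y hy.2).1, (hc y hy.2).2.1.trans_le ?_, (hc y hy.2).2.2⟩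
              rcases hy.1 with rfl | e
              exacts [le_rfl, e.1.le])
          (fun b _ => (mk_le_mk_of_subset (sep_subset _ _)).trans_lt h4)
          fun σ e1 e2 e3 e4 => ⟨c σ, (hc σ ⟨e2, e4.2⟩).2.1,
            Or.inr ⟨σ, ⟨Or.inr ⟨e1, e3⟩, e2, e4.2⟩, rfl⟩⟩
        exact ⟨s, hf a ha' s h5 fun e => (h7 _ (Or.inr ⟨a, ⟨Or.inl rfl, hξ, e.2⟩, rfl⟩)).mono
          (hc a ⟨hξ, e.2⟩).2.1.le, h6, fun t ht => h7 t (Or.inl ht)⟩
  refine ⟨T, h.souslin (N := {b | b ∈ S ∧ Rich K G T b} ∪ {b | cof (Iio b) = #K}) ht ?_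
    (fun a => ⟨hs, fun b hb s h1 => hf b (h.cof_lt fun e => hb (Or.inr e)) s h1
      fun e => absurd (Or.inl e) hb, fun b _ => (key b).1, fun c _ b hb x hx => ?_⟩)
    fun U hU hU' => ?_⟩
  · rintro b (hb | hb)
    exacts [hb.2.lim, lim_of_cof (h1K.trans_eq (Eq.symm hb))]
  · obtain ⟨y, h1, h2, -⟩ := (key c).2 b hb x hx ∅ (by simpa using zero_lt_one.trans h1K)
      fun t ht => ht.elim
    exact ⟨y, h1, h2⟩
  have h3 : ∀ b, ∃ d, ∀ x ∈ T b, ∃ c < d, b ≤ c ∧ ∃ w ∈ T c, w ∩ Iio b = x ∧ w ∉ U c := by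
    intro b
    choose c hc using fun x : T b => hU' b x x.2
    obtain ⟨d, hd⟩ := bdd_of_small (s := range c) (mk_range_le.trans_lt ((key b).1.trans_lt h.cofA))
    exact ⟨d, fun x hx => ⟨c ⟨x, hx⟩, hd _ ⟨_, rfl⟩, hc ⟨x, hx⟩⟩⟩
  choose g hg using h3
  obtain ⟨C, hC, h4⟩ := h.club_lim (X := {c | cof (Iio c) = #K} ∩ {b | ∀ a < b, g a < b})
    fun b => by
      obtain ⟨c, h4, h5, h6⟩ := stat_cof h.reg h.cofA
        ((h.club g).inter h.neA0 (club_Ioi' h.exists_gt b))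
      exact ⟨c, ⟨h4, h5⟩, le_of_lt h6⟩
  have h5 : ∀ y ∈ C, (∀ c < y, G y c = en K (T c) ⁻¹' U c) → Rich K G T y := fun y hy e =>
    ⟨(h4 y hy).1, fun d hd => by
      obtain ⟨c, h5, h6, h7⟩ := (h4 y hy).2 d hd
      refine ⟨c, h6, h7, h5.1, NWD.imp (T := T) (U := U) (fun b hb x hx => ?_) (fun _ _ => rfl)
        fun b hb => ?_⟩
      · obtain ⟨c', h8, h9⟩ := hg b x hx
        exact ⟨c', h8.trans (h5.2 b hb), h9⟩
      · rw [Vg, e b (hb.trans h7)]
        exact image_preimage_subset _ _⟩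
  have h6 : ∀ a y, y ≤ a → (∀ c < y, G y c = en K (T c) ⁻¹' U c) → ∀ s ∈ T a,
      Esc (y, Vg K G T y) s → s ∉ U a := by
    rintro a y e1 e2 s e3 ⟨c, e4, e5⟩ e6
    have e7 : c ≤ a := (le_of_lt e4).trans e1
    obtain ⟨k, hk⟩ := en_spec (key c).1 (down hs e7 e3)
    refine e5 ⟨k, ?_, hk⟩
    rw [e2 c e4, mem_preimage, hk]
    exact hU c a e7 s e6
  rcases hit (fun c => en K (T c) ⁻¹' U c) C hC with ⟨b, hb, e⟩ | ⟨a, ha, e⟩
  · exact ⟨b, fun s e1 => h6 b b le_rfl e s e1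
      ((((hR b).2 (hS b hb.1).ne).le e1).2 ⟨hb.1, h5 b hb.2 e⟩)⟩
  · refine ⟨a, fun s e1 => ?_⟩
    obtain ⟨b, hb, e2⟩ := ((hR a).1 ha).good (mem_univ _) s e1
    obtain ⟨y, hy, e3, e4, e5⟩ := e b hb
    exact h6 a y e4.le e5 s e1 (e2 y hy.1 e3 e4 (h5 y hy.2 e5))

end Pool.Agent.Lib.MP_a0c85e_lc
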