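import Pool.Agent.Results.MP_a0c85e_lc.ReflectDiamond

/-! The earlier hand-in `ClubDiamond`, and the plain reflection statement, follow from
`ReflectDiamond`. -/

open Cardinal Set Order

namespace Pool.Agent.Lib.MP_a0c85e_lc

universe u

/-- Guessing on the points of any regular cofinality below `k`. -/
theorem club_diamond (k l : Cardinal.{u}) (hl : l.IsRegular) (hk : l < k) (h1 : k ^< k = k)
    (h2 : 2 ^ k = succ k)
    (hno : ∀ (T : Type u) [PartialOrder T] [WellFoundedLT T], ¬ IsSouslin k T) :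
    ∃ W : k.ord.ToType → Set k.ord.ToType, ∀ D : Set k.ord.ToType, IsClub D → ∃ C ⊆ D, IsClub C ∧
      IsStationary {d : k.ord.ToType | Order.cof (Iio d) = l ∧ C ∩ Iio d = W d} := by
  have h0 : ℵ₀ < k := hl.aleph0_le.trans_lt hk
  have h := set2 h0 h1 h2
  obtain ⟨γ, h3, W, h4⟩ := Results.MP_a0c85e_lc.ReflectDiamond.result k h0 h1 h2 hno _
    (stat_cof hl (hk.trans ((mk_ord_toType k).ge.trans_lt h.cofA))) fun b hb => hb.trans_lt hk
  refine ⟨W, fun D hD => ?_⟩
  obtain ⟨C, h5, h6, h7⟩ := h4 D hD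
  refine ⟨C, h5, h6, fun E hE => ?_⟩
  choose g hg using fun a => (h.exists_gtK a).imp fun b hb => exists_succ hb
  choose s hs using hg
  obtain ⟨z⟩ := h.neK
  obtain ⟨d, h8, ⟨h9, h10⟩, h11⟩ := h7 (((h.clubK s).inter h.neK0
    (club_Ioi' h.exists_gtK z)).inter h.neK0 hE)
  have h12 : IsSuccLimit d := ⟨not_isMin_of_lt h10, fun c hc =>
    hc.2 (hs c).1 (h9 c hc.1)⟩
  exact ⟨d, ⟨(cof_of_lub (γ := fun j : Iio d => γ j) (fun j k e => h3.strictMono e)
    (fun j => h3.strictMono j.2) (by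
      rw [← image_eq_range]
      exact h3.isLUB_image_Iio_of_isSuccLimit h12)).symm.trans h8.1, h8.2⟩, h11⟩

/-- The earlier hand-in. -/
theorem clubDiamond (l : Cardinal.{u}) (hl : l.IsRegular) (h1 : 2 ^ l = succ l)
    (h2 : 2 ^ succ l = succ (succ l))
    (hno : ∀ (T : Type u) [PartialOrder T] [WellFoundedLT T], ¬ IsSouslin (succ l) T) :
    ∃ W : (succ l).ord.ToType → Set (succ l).ord.ToType,
      ∀ D : Set (succ l).ord.ToType, IsClub D → ∃ C ⊆ D, IsClub C ∧
        IsStationary {d : (succ l).ord.ToType | Order.cof (Iio d) = l ∧ C ∩ Iio d = W d} :=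
  club_diamond _ l hl (lt_succ l) (by
    rw [powerlt_succ (succ_ne_zero l), ← h1, ← power_mul, mul_eq_self hl.aleph0_le]) h2 hno

end Pool.Agent.Lib.MP_a0c85e_lc
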