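import Pool.Agent.Lib.MP_a0c85e_lc.Tree

/-! The two cases: a stationary set that does not reflect, and reflection. -/

open Cardinal Set Order

namespace Pool.Agent.Lib.MP_a0c85e_lc

universe u

variable {A K : Type u} [LinearOrder A] [LinearOrder K] [WellFoundedLT A] [WellFoundedLT K]
  {m : Cardinal.{u}}

omit [WellFoundedLT K] in
theorem res_eq {f g : K → K} {i : K} : res f i = res g i ↔ ∀ j < i, f j = g j :=
  ⟨fun h j hj => congrFun (eq_of_heq (Sigma.mk.inj_iff.1 h).2) ⟨j, hj⟩,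
    fun h => congrArg (Sigma.mk i) (funext fun j => h j j.2)⟩

omit [WellFoundedLT A] [WellFoundedLT K] in
theorem Setup.cof_le (h : Setup A K m) {a : A} (ha : cof (Iio a) ≠ #K) : cof (Iio a) ≤ m := by
  rw [← lt_succ_iff, ← h.cardK]
  exact ((cof_le_cardinalMk _).trans (h.segA a)).lt_of_ne ha

/-- The case of a stationary set that does not reflect. -/
theorem Setup.caseA (h : Setup A K m) (ht : Ordinal.type (α := A) (· < ·) = (succ #K).ord)
    {S : Set A} (hS : IsStationary S) (hm : ∀ b ∈ S, cof (Iio b) = m) {γ : A → K → A}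
    (hγ : ∀ a, cof (Iio a) = #K → Ladder (γ a) a)
    (hn : ∀ a, cof (Iio a) = #K → ¬ IsStationary {d : K | cof (Iio d) = m ∧ γ a d ∈ S}) :
    ∃ T : A → Set (Set A), IsSouslin #K (Node T) := by
  have := h.neK
  obtain ⟨G, hG⟩ := h.diamond hS hm
  have h2 : ∀ a ∈ S ∪ {a | cof (Iio a) = #K}, m ≤ cof (Iio a) := by
    rintro a (ha | ha)
    exacts [(hm a ha).ge, h.lt.le.trans (Eq.ge ha)]
  obtain ⟨T, h3, h4⟩ := h.exists_tree (N := S ∪ {a | cof (Iio a) = #K})
    (Gs := fun a F => a ∈ S ∧ ∀ b : Iio a, G a b = F b)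
    (fun a ha => h.cof_le fun e => ha (Or.inr e)) h2 (fun T a hT ha ξ hξ x hx => by
      by_cases haS : a ∈ S
      · have hb := fun {ξ : A} (hξ : ξ < a) {x : Set A} (hx : x ∈ T ξ) =>
          hT.branch' (fun σ hσ => (hm a haS).trans_le (h2 σ hσ)) hξ hx
        by_cases hU : ∃ U, DC U ∧ NWD T U a ∧ ∀ b : Iio a, G a b = code K T U a b
        swap
        · obtain ⟨s, h3, h4⟩ := hb hξ hx
          exact ⟨s, h3, fun U h5 h6 h7 => absurd ⟨U, h5, h6, h7.2⟩ hU, h4⟩
        obtain ⟨U, -, h3, h4⟩ := hU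
        obtain ⟨c, hc, h5, w, hw, h6, h7⟩ := h3 ξ hξ x hx
        obtain ⟨s, h8, h9⟩ := hb hc hw
        refine ⟨s, h8, fun U' _ _ h10 => ⟨c, hc, fun h11 => h7 ?_⟩,
          by rw [← inter_Iio h5, h9, h6]⟩
        obtain ⟨k, hk⟩ := en_spec (hT.card c hc) hw
        have h12 : k ∈ code K T U' a ⟨c, hc⟩ := by
          simp only [code, mem_preimage, hk]
          exact h9 ▸ h11
        rw [← h10.2, h4] at h12
        simpa only [code, mem_preimage, hk] using h12
      have ha' : cof (Iio a) = #K := ha.resolve_left haS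
      have hl := hγ a ha'
      obtain ⟨D, hD, hD'⟩ := not_isStationary_iff.1 (hn a ha')
      obtain ⟨s, h3, h4⟩ := hT.branch (C := γ a '' D) (by rintro _ ⟨d, -, rfl⟩; exact hl.lt d)
        (fun b hb => by
          obtain ⟨i, hi⟩ := hl.cof b hb
          obtain ⟨d, h3, h4⟩ := hD.isCofinal i
          exact ⟨_, ⟨d, h3, rfl⟩, hi.trans (hl.mono.monotone h4)⟩)
        (fun σ hσ h3 h4 => by
          obtain ⟨i, hi⟩ := hl.cof σ hσ
          obtain ⟨d, hd⟩ := exists_lub (s := {j | γ a j < σ}) (b := i)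
            fun j hj => (hl.mono.lt_iff_lt.1 (lt_of_lt_of_le hj hi)).le
          have h5 : ∀ j, γ a j < σ → ∃ e ∈ D, j < e ∧ γ a e < σ := fun j hj => by
            obtain ⟨_, ⟨e, h5, rfl⟩, h6, h7⟩ := h3.2 _ hj
            exact ⟨e, h5, hl.mono.lt_iff_lt.1 h6, h7⟩
          have h6 : ¬ γ a d < σ := fun h6 => by
            obtain ⟨e, -, h7, h8⟩ := h5 d h6
            exact (hd.1 h8).not_gt h7
          obtain ⟨b, hb⟩ := h3.1
          obtain ⟨_, ⟨e, -, rfl⟩, -, he⟩ := h3.2 b hb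
          have h7 := lim_of_lub hd h6 ⟨e, he⟩
          have h8 : Lim D d := ⟨h7.1, fun j hj => by
            obtain ⟨k, h8, h9, -⟩ := h7.2 j hj
            obtain ⟨e, h10, h11, h12⟩ := h5 k h8
            exact ⟨e, h10, h9.trans h11, (hd.1 h12).lt_of_ne fun e' => h6 (e' ▸ h12)⟩⟩
          have h9 : Lim univ d := ⟨h7.1, fun j hj => by
            obtain ⟨k, -, h9⟩ := h7.2 j hj
            exact ⟨k, mem_univ _, h9⟩⟩
          have h10 : γ a d = σ := le_antisymm (not_lt.1 fun h10 => by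
            obtain ⟨j, h11, h12⟩ := hl.cont d h9 σ h10
            obtain ⟨k, h13, h14, -⟩ := h7.2 j h11
            exact (h12.trans (hl.mono h14)).not_gt h13) (not_lt.1 h6)
          have h11 := hl.cof_eq h9
          rw [h10] at h11
          rcases h4 with h4 | h4
          · exact disjoint_left.1 hD' ⟨h11.symm.trans (hm σ h4), h10 ▸ h4⟩ (h8.mem hD)
          · exact h.lt.not_ge ((Eq.ge h4).trans (h11.le.trans
              ((cof_le_cardinalMk _).trans (h.segK d))))) hξ hx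
      exact ⟨s, h3, fun U _ _ h5 => absurd h5.1 haS, h4⟩)
    fun F g => by
      obtain ⟨a, h3, h4⟩ := hG F (h.club g)
      exact ⟨a, Or.inl h3.1, h4, h3.1, fun b => h3.2 b b.2⟩
  exact ⟨T, h.souslin ht h2 h3 h4⟩

/-- The case of reflection. -/
theorem Setup.caseB (h : Setup A K m) (ht : Ordinal.type (α := A) (· < ·) = (succ #K).ord)
    {γ : A → K → A} (hγ : ∀ a, cof (Iio a) = #K → Ladder (γ a) a)
    (hr : ∀ S : Set A, IsStationary S → (∀ b ∈ S, cof (Iio b) = m) →
      ∃ a, cof (Iio a) = #K ∧ IsStationary {d : K | cof (Iio d) = m ∧ γ a d ∈ S})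
    (hW : ∀ W : K → Set (Seq K), ∃ f : K → K, ∀ U, NowhereDenseTree U → (∀ i, res f i ∈ U) →
      ¬ IsStationary {d : K | cof (Iio d) = m ∧ {s ∈ U | s.1 < d} = W d}) :
    ∃ T : A → Set (Set A), IsSouslin #K (Node T) := by
  classical
  obtain ⟨G, hG⟩ := h.diamond (stat_cof h.reg (h.lt.trans h.cofA)) fun b hb => hb
  have h2 : ∀ a ∈ {a : A | cof (Iio a) = #K}, m ≤ cof (Iio a) := fun a ha =>
    h.lt.le.trans (Eq.ge ha)
  obtain ⟨T, h3, h4⟩ := h.exists_tree (N := {a | cof (Iio a) = #K})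
    (Gs := fun a F => IsStationary
      {d : K | cof (Iio d) = m ∧ ∀ b : Iio a, b.1 < γ a d → G (γ a d) b = F b})
    (fun a ha => h.cof_le ha) h2 (fun T a hT ha ξ hξ x hx => by
      have hl := hγ a ha
      obtain ⟨y, h3, h4, h5⟩ := hT.climb hl.mono hl.lt (fun σ hσ h3 h4 => by
        obtain ⟨i, hi⟩ := hl.cof σ hσ
        refine h.lt.not_ge ((Eq.ge h4).trans (h3.cof_le.trans (le_trans ?_ (h.segK i))))
        refine (mk_le_mk_of_subset (t := γ a '' Iio i) ?_).trans mk_image_le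
        rintro _ ⟨⟨j, rfl⟩, hj⟩
        exact ⟨j, hl.mono.lt_iff_lt.1 (lt_of_lt_of_le hj hi), rfl⟩) hx
      let L : (K → Set (Set A)) → Set (Seq K) := fun V =>
        {s | ∃ f, res f s.1 = s ∧ ∀ j < s.1, y f j ∈ V j}
      have hL : ∀ V f i, res f i ∈ L V ↔ ∀ j < i, y f j ∈ V j := fun V f i => by
        refine ⟨?_, fun h => ⟨f, rfl, h⟩⟩
        rintro ⟨g, h6, h7⟩ j hj
        rw [← h4 g f j fun k hk => res_eq.1 h6 k (hk.trans_lt hj)]
        exact h7 j hj
      obtain ⟨f, hf⟩ := hW fun d =>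
        {s ∈ L fun j => en K (T (γ a j)) '' G (γ a d) (γ a j) | s.1 < d}
      obtain ⟨h6, h7, h8⟩ := hT.top hl.lt hl.cof hξ hx (h3 f)
      refine ⟨_, h6, fun U hU hU' hs => ?_, h7⟩
      by_contra! h9
      refine hf (L fun j => U (γ a j)) ⟨fun g i j hij => ?_, fun g i => ?_⟩
        (fun i => (hL _ _ _).2 fun j _ => h8 j ▸ h9 _ (hl.lt j)) (hs.mono ?_)
      · rw [hL, hL]
        exact fun h k hk => h k (hk.trans_le hij)
      · obtain ⟨i0, h10⟩ := hl.cof ξ hξ
        obtain ⟨i1, h11, h12⟩ : ∃ i1, i ≤ i1 ∧ ξ ≤ γ a i1 :=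
          ⟨max i i0, le_max_left _ _, h10.trans (hl.mono.monotone (le_max_right _ _))⟩
        obtain ⟨c, hc, h13, w, hw, h14, h15⟩ := hU' _ (hl.lt i1) _ (h3 g i1).1
        obtain ⟨i2, h16⟩ := hl.cof c hc
        obtain ⟨z, hz, h17⟩ := hT.norm _ (hl.lt i2) c h16 w hw
        have h18 : i1 ≤ i2 := hl.mono.le_iff_le.1 (h13.trans h16)
        have h19 : ∀ j, ∃ k, j ≤ i2 → en K (T (γ a j)) k = z ∩ Iio (γ a j) := fun j => by
          by_cases hj : j ≤ i2
          · obtain ⟨k, hk⟩ := en_spec (hT.card _ (hl.lt j)) (down hT.sub (hl.mono.monotone hj) hz)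
            exact ⟨k, fun _ => hk⟩
          · exact ⟨j, fun h => absurd h hj⟩
        choose q hq using h19
        have h20 : z ∩ Iio (γ a i1) = y g i1 := by rw [← inter_Iio h13, h17, h14]
        have h21 : z ∩ Iio ξ = x := by
          rw [← inter_Iio h12, h20, (h3 g i1).2.2,
            inter_eq_left.2 ((hT.sub _ hx).1.trans (Iio_subset_Iio h12))]
        have h22 : ∀ j ≤ i2, y (fun j => if j < i then g j else q j) j = z ∩ Iio (γ a j) := by
          intro j
          induction j using WellFoundedLT.induction with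
          | ind j ih =>
            intro hj
            by_cases hji : j < i
            · rw [h4 _ g j fun k hk => if_pos (hk.trans_lt hji),
                ← inter_Iio (hl.mono.monotone (hji.le.trans h11)), h20,
                (h3 g i1).2.1 j (hji.le.trans h11)]
            · refine h5 _ j _ (by rw [if_neg hji, hq j hj]) (down hT.sub (hl.mono.monotone hj) hz)
                (fun k hk => ?_) ?_
              · rw [inter_Iio (hl.mono hk).le, ih k hk (hk.le.trans hj)]
              · rw [inter_right_comm, h21]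
        obtain ⟨i3, h23⟩ := h.exists_gtK i2
        refine ⟨fun j => if j < i then g j else q j, i3, h11.trans (h18.trans h23.le),
          res_eq.2 fun j hj => if_pos hj, fun h24 => h15 ?_⟩
        have h25 := (hL _ _ _).1 h24 i2 h23
        rw [h22 i2 le_rfl] at h25
        have h26 := hU c _ h16 _ h25
        rwa [inter_Iio h16, h17] at h26
      · rintro d ⟨h10, h11⟩
        refine ⟨h10, Set.ext fun s => and_congr_left fun hs => exists_congr fun g =>
          and_congr_right fun _ => forall₂_congr fun j hj => ?_⟩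
        have h14 : G (γ a d) (γ a j) = _ := h11 ⟨γ a j, hl.lt j⟩ (hl.mono (hj.trans hs))
        beta_reduce
        rw [h14]
        refine ⟨fun h12 => ?_, ?_⟩
        · obtain ⟨k, hk⟩ := en_spec (hT.card _ (hl.lt j)) (h3 g j).1
          exact ⟨k, by simpa only [code, mem_preimage, hk] using h12, hk⟩
        · rintro ⟨k, h12, h13⟩
          simpa only [code, mem_preimage, h13] using h12)
    fun F g => by
      have hne : cof A ≠ ℵ₀ := (h.inf.trans h.cofA).ne'
      obtain ⟨a, h3, h4⟩ := hr ({b | cof (Iio b) = m ∧ ∀ c < b, G b c = F c} ∩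
          {b | ∀ c < b, g c < b})
        (fun D hD => by
          obtain ⟨b, h3, h4, h5⟩ := hG F ((h.club g).inter hne hD)
          exact ⟨b, ⟨h3, h4⟩, h5⟩) fun b hb => hb.1.1
      have hl := hγ a h3
      refine ⟨a, h3, fun b hb => ?_, h4.mono fun d hd => ⟨hd.1, fun b hb => hd.2.1.2 b hb⟩⟩
      obtain ⟨i, hi⟩ := hl.cof b hb
      obtain ⟨j, hj⟩ := h.exists_gtK i
      obtain ⟨d, h5, h6⟩ := h4 (t := Ici j) ⟨fun s hs ⟨e, he⟩ _ x hx => (hs he).trans (hx.1 he),
        fun e => ⟨max e j, le_max_right _ _, le_max_left _ _⟩⟩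
      exact (h5.2.2 b (hi.trans_lt (hl.mono (hj.trans_le h6)))).trans (hl.lt d)
  exact ⟨T, h.souslin ht h2 h3 h4⟩

theorem Setup.main (h : Setup A K m) (ht : Ordinal.type (α := A) (· < ·) = (succ #K).ord)
    (hW : ∀ W : K → Set (Seq K), ∃ f : K → K, ∀ U, NowhereDenseTree U → (∀ i, res f i ∈ U) →
      ¬ IsStationary {d : K | cof (Iio d) = m ∧ {s ∈ U | s.1 < d} = W d}) :
    ∃ T : A → Set (Set A), IsSouslin #K (Node T) := by
  have h1 : ∀ a : A, ∃ γ : K → A, cof (Iio a) = #K → Ladder γ a := fun a => by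
    by_cases ha : cof (Iio a) = #K
    · obtain ⟨γ, hγ⟩ := exists_ladder h.inf.le (fun i => (h.segK i).trans_lt h.lt) ha
      exact ⟨γ, fun _ => hγ⟩
    · exact ⟨fun _ => a, fun h => absurd h ha⟩
  choose γ hγ using h1
  by_cases hr : ∀ S : Set A, IsStationary S → (∀ b ∈ S, cof (Iio b) = m) →
      ∃ a, cof (Iio a) = #K ∧ IsStationary {d : K | cof (Iio d) = m ∧ γ a d ∈ S}
  · exact h.caseB ht hγ hr hW
  · push Not at hr
    obtain ⟨S, h2, h3, h4⟩ := hr
    exact h.caseA ht h2 h3 hγ h4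

theorem setup {l : Cardinal.{u}} (hl : l.IsRegular) (h1 : 2 ^ l = succ l)
    (h2 : 2 ^ succ l = succ (succ l)) :
    Setup (succ (succ l)).ord.ToType (succ l).ord.ToType l := by
  have h3 := isRegular_succ hl.aleph0_le
  have h4 := isRegular_succ h3.aleph0_le
  refine ⟨hl, mk_ord_toType _, by rw [Ordinal.cof_toType, h3.cof_ord],
    fun i => lt_succ_iff.1 (mk_Iio_toType_ord_lt i), h1, by rw [mk_ord_toType, mk_ord_toType, h2],
    ?_, fun a => ?_⟩
  · rw [Ordinal.cof_toType, h4.cof_ord, mk_ord_toType]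
    exact lt_succ _
  · rw [mk_ord_toType]
    exact lt_succ_iff.1 (mk_Iio_toType_ord_lt a)

end Pool.Agent.Lib.MP_a0c85e_lc
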