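import Pool.Agent.Lib.MP_a0c85e_lc.Climb

/-! The recursive construction of the tree. -/

open Cardinal Set Order

namespace Pool.Agent.Lib.MP_a0c85e_lc

universe u

variable {A : Type u} [LinearOrder A]

def DC (U : A → Set (Set A)) : Prop := ∀ a b, a ≤ b → ∀ s ∈ U b, s ∩ Iio a ∈ U a

def NWD (T U : A → Set (Set A)) (a : A) : Prop :=
  ∀ b < a, ∀ x ∈ T b, ∃ c < a, b ≤ c ∧ ∃ w ∈ T c, w ∩ Iio b = x ∧ w ∉ U c

def code (K : Type u) (T U : A → Set (Set A)) (a : A) : Iio a → Set K :=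
  fun b => en K (T b) ⁻¹' U b

variable {K : Type u}

def Good (Gs : ∀ a : A, (Iio a → Set K) → Prop) (T : A → Set (Set A)) (a : A) (s : Set A) : Prop :=
  ∀ U, DC U → NWD T U a → Gs a (code K T U a) → ∃ b < a, s ∩ Iio b ∉ U b

structure Rule (N : Set A) (Gs : ∀ a : A, (Iio a → Set K) → Prop) (T : A → Set (Set A)) (a : A)
    (X : Set (Set A)) : Prop where
  sub : X ⊆ Br T a
  full : a ∉ N → Br T a ⊆ X
  card : a ∈ N → #X ≤ #K
  good : a ∈ N → ∀ s ∈ X, Good Gs T a s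
  ext : a ∈ N → ∀ b < a, ∀ k, (∃ s ∈ Br T a, Good Gs T a s ∧ s ∩ Iio b = en K (T b) k) →
    ∃ s ∈ X, s ∩ Iio b = en K (T b) k

variable {N : Set A} {Gs : ∀ a : A, (Iio a → Set K) → Prop}

theorem Rule.congr {T T' : A → Set (Set A)} {a : A} {X : Set (Set A)} (h : Rule N Gs T a X)
    (e : ∀ b < a, T b = T' b) : Rule N Gs T' a X := by
  have e1 : Br T a = Br T' a := Set.ext fun s =>
    and_congr_right fun _ => forall₂_congr fun b hb => by rw [e b hb]
  have e2 : ∀ U, NWD T U a ↔ NWD T' U a := fun U => forall₂_congr fun b hb => by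
    rw [e b hb]
    exact forall₂_congr fun x _ => exists_congr fun c => and_congr_right fun hc => by rw [e c hc]
  have e3 : ∀ U, code K T U a = code K T' U a := fun U => funext fun b => by
    simp only [code, e b b.2]
  have e4 : Good Gs T a = Good Gs T' a := funext fun s => by simp only [Good, e2, e3]
  refine ⟨e1 ▸ h.sub, e1 ▸ h.full, h.card, e4 ▸ h.good, fun ha b hb k => ?_⟩
  rw [← e1, ← e4, ← e b hb]
  exact h.ext ha b hb k

variable [LinearOrder K] {m : Cardinal.{u}}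

theorem Setup.exists_rule (h : Setup A K m) (T : A → Set (Set A)) (a : A) :
    ∃ X, Rule N Gs T a X := by
  by_cases ha : a ∈ N
  swap
  · exact ⟨Br T a, Subset.rfl, fun _ => Subset.rfl, fun h => absurd h ha, fun h => absurd h ha,
      fun h => absurd h ha⟩
  let P : Iio a × K → Set A → Prop := fun p s =>
    s ∈ Br T a ∧ Good Gs T a s ∧ s ∩ Iio p.1.1 = en K (T p.1) p.2
  refine ⟨(fun p => Classical.epsilon (P p)) '' {p | ∃ s, P p s}, ?_, fun h => absurd ha h,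
    fun _ => mk_image_le.trans ((mk_set_le _).trans ?_), fun _ => ?_, fun _ b hb k hs => ?_⟩
  · rintro _ ⟨p, hp, rfl⟩
    exact (Classical.epsilon_spec hp).1
  · rw [← mul_def]
    exact (mul_le_mul_left (h.segA a) _).trans_eq (mul_eq_self h.inf.le)
  · rintro _ ⟨p, hp, rfl⟩
    exact (Classical.epsilon_spec hp).2.1
  · exact ⟨_, ⟨(⟨b, hb⟩, k), hs, rfl⟩, (Classical.epsilon_spec (p := P (⟨b, hb⟩, k)) hs).2.2⟩

variable [WellFoundedLT A]

theorem Setup.card_br (h : Setup A K m) {T : A → Set (Set A)} {a : A}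
    (hT : ∀ b < a, #(T b) ≤ #K) (ha : cof (Iio a) ≤ m) : #(Br T a) ≤ #K := by
  obtain ⟨C, h1, h2, h3, -⟩ := exists_thin a
  have h4 : ∀ (s : Br T a) (c : C), ∃ k, en K (T c) k = s.1 ∩ Iio c.1 := fun s c =>
    en_spec (hT c (h1 c.2)) (s.2.2 c (h1 c.2))
  choose q hq using h4
  have h5 : Function.Injective fun (s : Br T a) (c : C) => (q s c, ULift.up.{u} (c.1 ∈ s.1)) := by
    have key : ∀ s t : Br T a, (∀ c : C, q s c = q t c ∧ (c.1 ∈ s.1 ↔ c.1 ∈ t.1)) →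
        s.1 ⊆ t.1 := fun s t h5 b hb => by
      obtain ⟨c, hc, h6⟩ := h2 b (s.2.1 hb)
      rcases h6.eq_or_lt with rfl | h6
      · exact (h5 ⟨b, hc⟩).2.1 hb
      · have h7 := hq s ⟨c, hc⟩
        rw [(h5 ⟨c, hc⟩).1, hq t] at h7
        exact (h7.ge ⟨hb, h6⟩).1
    intro s t hst
    have h6 : ∀ c : C, q s c = q t c ∧ (c.1 ∈ s.1 ↔ c.1 ∈ t.1) := fun c => by
      simpa using congrFun hst c
    exact Subtype.ext (Subset.antisymm (key s t h6) (key t s fun c => ⟨(h6 c).1.symm, (h6 c).2.symm⟩))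
  refine (mk_le_of_injective h5).trans ?_
  rw [← power_def]
  refine h.pow_le (h3.trans_le ha) ?_
  rw [← mul_def]
  refine (mul_le_mul_right (?_ : _ ≤ #K) _).trans_eq (mul_eq_self h.inf.le)
  exact (mk_le_aleph0).trans h.inf.le

/-- The tree: no nowhere dense subtree meets all levels. -/
theorem Setup.exists_tree (h : Setup A K m) (h1 : ∀ a ∉ N, cof (Iio a) ≤ m)
    (h2 : ∀ a ∈ N, m ≤ cof (Iio a))
    (hex : ∀ T a, Nice K N T a → a ∈ N → ∀ ξ < a, ∀ x ∈ T ξ,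
      ∃ s ∈ Br T a, Good Gs T a s ∧ s ∩ Iio ξ = x)
    (hG : ∀ (F : A → Set K) (g : A → A), ∃ a ∈ N, (∀ b < a, g b < a) ∧ Gs a fun b => F b) :
    ∃ T : A → Set (Set A), (∀ a, Nice K N T a) ∧ ∀ U, DC U →
      (∀ b, ∀ x ∈ T b, ∃ c, b ≤ c ∧ ∃ w ∈ T c, w ∩ Iio b = x ∧ w ∉ U c) →
      ∃ a, ∀ s ∈ T a, s ∉ U a := by
  classical
  have := h.neK
  obtain ⟨T, hT⟩ := exists_rec (I := A) (β := Set (Set A))
    (fun a T X => Rule N Gs (fun b => if hb : b < a then T ⟨b, hb⟩ else ∅) a X)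
    fun a T => h.exists_rule _ a
  have hR : ∀ a, Rule N Gs T a (T a) := fun a => (hT a).congr fun b hb => dif_pos hb
  have key : ∀ c, #(T c) ≤ #K ∧ ∀ b ≤ c, ∀ x ∈ T b, ∃ y ∈ T c, y ∩ Iio b = x := fun c => by
    induction c using WellFoundedLT.induction with
    | ind c ih =>
      have hn : Nice K N T c := ⟨fun b => (hR b).sub, fun b => (hR b).full,
        fun b hb => (ih b hb).1, fun b hb => (ih b hb).2⟩
      refine ⟨?_, fun b hb x hx => ?_⟩
      · by_cases hc : c ∈ N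
        · exact (hR c).card hc
        · exact (mk_le_mk_of_subset (hR c).sub).trans (h.card_br hn.card (h1 c hc))
      rcases hb.eq_or_lt with rfl | hb
      · exact ⟨x, hx, inter_eq_left.2 ((hR b).sub hx).1⟩
      by_cases hc : c ∈ N
      · obtain ⟨k, rfl⟩ := en_spec (hn.card b hb) hx
        exact (hR c).ext hc b hb k (hex T c hn hc b hb _ hx)
      · obtain ⟨s, h3, h4⟩ := hn.branch' (fun σ hσ => (h1 c hc).trans (h2 σ hσ)) hb hx
        exact ⟨s, (hR c).full hc h3, h4⟩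
  refine ⟨T, fun a => ⟨fun b => (hR b).sub, fun b => (hR b).full, fun b _ => (key b).1,
    fun b _ => (key b).2⟩, fun U hU hU' => ?_⟩
  have h3 : ∀ b, ∃ d, ∀ x ∈ T b, ∃ c < d, b ≤ c ∧ ∃ w ∈ T c, w ∩ Iio b = x ∧ w ∉ U c := by
    intro b
    choose c hc using fun x : T b => hU' b x x.2
    obtain ⟨d, hd⟩ := bdd_of_small (s := range c) (mk_range_le.trans_lt ((key b).1.trans_lt h.cofA))
    exact ⟨d, fun x hx => ⟨c ⟨x, hx⟩, hd _ ⟨_, rfl⟩, hc ⟨x, hx⟩⟩⟩
  choose g hg using h3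
  obtain ⟨a, ha, h4, h5⟩ := hG (fun b => en K (T b) ⁻¹' U b) g
  refine ⟨a, fun s hs h6 => ?_⟩
  obtain ⟨b, hb, h7⟩ := (hR a).good ha s hs U hU (fun b hb x hx => by
    obtain ⟨c, h7, h8⟩ := hg b x hx
    exact ⟨c, h7.trans (h4 b hb), h8⟩) h5
  exact h7 (hU b a hb.le s h6)

/-- The nodes. -/
def Node (T : A → Set (Set A)) : Type u := {p : A × Set A // p.2 ∈ T p.1}

instance (T : A → Set (Set A)) : PartialOrder (Node T) where
  le p q := p.1.1 ≤ q.1.1 ∧ (q.1.2 ∩ Iio p.1.1 = p.1.2 ∩ Iio p.1.1 ∧ (q.1.1 ≤ p.1.1 → p = q))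
  le_refl p := ⟨le_rfl, rfl, fun _ => rfl⟩
  le_trans p q r h1 h2 := ⟨h1.1.trans h2.1, by rw [← inter_Iio h1.1, h2.2.1, inter_Iio h1.1, h1.2.1],
    fun h => (h1.2.2 (h2.1.trans h)).trans (h2.2.2 (h.trans h1.1))⟩
  le_antisymm p q h1 h2 := h1.2.2 h2.1

omit [WellFoundedLT A] in
theorem Node.lt_lev {T : A → Set (Set A)} {p q : Node T} (h : p < q) : p.1.1 < q.1.1 :=
  not_le.1 fun h1 => h.ne (h.le.2.2 h1)

instance (T : A → Set (Set A)) : WellFoundedLT (Node T) :=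
  ⟨Subrelation.wf (fun h => Node.lt_lev h) (InvImage.wf (fun p : Node T => p.1.1) wellFounded_lt)⟩

omit [WellFoundedLT A] in
theorem Node.le_iff {T : A → Set (Set A)} (h : ∀ b, T b ⊆ Br T b) {p q : Node T} :
    p ≤ q ↔ p.1.1 ≤ q.1.1 ∧ q.1.2 ∩ Iio p.1.1 = p.1.2 := by
  have e : p.1.2 ∩ Iio p.1.1 = p.1.2 := inter_eq_left.2 (h _ p.2).1
  refine and_congr_right fun h1 => ⟨fun h2 => h2.1.trans e, fun h2 => ⟨h2.trans e.symm, fun h3 => ?_⟩⟩
  have h4 := le_antisymm h1 h3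
  refine Subtype.ext (Prod.ext h4 ?_)
  rw [← h2, h4, inter_eq_left.2 (h _ q.2).1]

theorem height_node {T : A → Set (Set A)} (h : ∀ b, T b ⊆ Br T b) (p : Node T) :
    height p = Ordinal.typein (α := A) (· < ·) p.1.1 := by
  induction p using WellFoundedLT.induction with
  | ind p ih =>
    rw [height, IsWellFounded.rank_eq]
    refine le_antisymm (Ordinal.iSup_le fun q => ?_) (le_of_forall_lt fun o ho => ?_)
    · rw [succ_le_iff, ← height, ih q q.2, Ordinal.typein_lt_typein]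
      exact Node.lt_lev q.2
    · obtain ⟨b, rfl⟩ := Ordinal.typein_surj (α := A) (· < ·) (ho.trans (Ordinal.typein_lt_type _ _))
      have hb : b < p.1.1 := (Ordinal.typein_lt_typein (α := A) (· < ·)).1 ho
      let q : Node T := ⟨(b, p.1.2 ∩ Iio b), (h _ p.2).2 b hb⟩
      have h1 : q < p :=
        lt_of_le_of_ne ((Node.le_iff h).2 ⟨hb.le, rfl⟩) fun e => hb.ne (congrArg (·.1.1) e)
      refine lt_of_lt_of_le ?_ (Ordinal.le_iSup _ ⟨q, h1⟩)
      rw [← height, ih _ h1]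
      exact lt_succ _

theorem Setup.souslin (h : Setup A K m) (ht : Ordinal.type (α := A) (· < ·) = (succ #K).ord)
    (h2 : ∀ a ∈ N, m ≤ cof (Iio a)) {T : A → Set (Set A)} (hT : ∀ a, Nice K N T a)
    (hU : ∀ U, DC U → (∀ b, ∀ x ∈ T b, ∃ c, b ≤ c ∧ ∃ w ∈ T c, w ∩ Iio b = x ∧ w ∉ U c) →
      ∃ a, ∀ s ∈ T a, s ∉ U a) : IsSouslin #K (Node T) := by
  have := h.neA
  have hs := (hT (Classical.arbitrary A)).sub
  have hcard : ∀ a, #(T a) ≤ #K := fun a => by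
    obtain ⟨b, hb⟩ := h.exists_gt a
    exact (hT b).card a hb
  have hsmall : ∀ (X : Set (Node T)) (a : A), (∀ p ∈ X, p.1.1 ≤ a) → #X ≤ #K := fun X a hX => by
    obtain ⟨b, hb⟩ := h.exists_gt a
    refine (mk_le_of_injective (f := fun p : X =>
      (⟨⟨p.1.1.1, (hX _ p.2).trans_lt hb⟩, ⟨p.1.1.2, p.1.2⟩⟩ : Σ c : Iio b, T c)) ?_).trans ?_
    · rintro ⟨⟨⟨c, s⟩, _⟩, _⟩ ⟨⟨⟨d, t⟩, _⟩, _⟩ e
      obtain ⟨e1, e2⟩ := Sigma.mk.inj_iff.1 e
      obtain rfl : c = d := congrArg Subtype.val e1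
      obtain rfl : s = t := congrArg Subtype.val (eq_of_heq e2)
      rfl
    · rw [mk_sigma]
      refine (sum_le_sum _ (fun _ => #K) fun c : Iio b => hcard c).trans ?_
      rw [sum_const']
      exact (mul_le_mul_left (h.segA b) _).trans_eq (mul_eq_self h.inf.le)
  let U : Set (Node T) → A → Set (Set A) := fun X a => {s | ∃ p ∈ X, a < p.1.1 ∧ p.1.2 ∩ Iio a = s}
  have main : ∀ X : Set (Node T),
      (∀ b, ∀ x ∈ T b, ∃ c, b ≤ c ∧ ∃ w ∈ T c, w ∩ Iio b = x ∧ w ∉ U X c) → #X ≠ succ #K := by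
    intro X hX e
    obtain ⟨a, ha⟩ := hU (U X) (by
      rintro a b hab _ ⟨p, h3, h4, rfl⟩
      exact ⟨p, h3, hab.trans_lt h4, (inter_Iio hab).symm⟩) hX
    refine (lt_succ #K).not_ge (e ▸ hsmall X a fun p hp => not_lt.1 fun h3 => ?_)
    exact ha _ (down hs h3.le p.2) ⟨p, hp, h3, rfl⟩
  refine ⟨fun t p hp q hq _ => ?_, fun t => ?_, fun o ho => ?_, fun o => ?_, fun C hC => ?_,
    fun X hX => ?_⟩
  · have h3 := (Node.le_iff hs).1 (le_of_lt hp)
    have h4 := (Node.le_iff hs).1 (le_of_lt hq)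
    rcases le_total p.1.1 q.1.1 with h5 | h5
    · exact Or.inl ((Node.le_iff hs).2 ⟨h5, by rw [← h4.2, inter_Iio h5, h3.2]⟩)
    · exact Or.inr ((Node.le_iff hs).2 ⟨h5, by rw [← h3.2, inter_Iio h5, h4.2]⟩)
  · rw [height_node hs, ← ht]
    exact Ordinal.typein_lt_type _ _
  · obtain ⟨a, rfl⟩ := Ordinal.typein_surj (α := A) (· < ·) (ht ▸ ho)
    obtain ⟨z, -, hz⟩ := wellFounded_lt.has_min (univ : Set A) univ_nonempty
    have h3 : z ∉ N := fun h3 => by
      have : IsEmpty (Iio z) := ⟨fun b => hz b (mem_univ _) b.2⟩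
      have h4 := h2 z h3
      rw [cof_eq_zero] at h4
      exact h4.not_gt h.reg.pos
    obtain ⟨b, hb⟩ := h.exists_gt a
    obtain ⟨y, hy, -⟩ := (hT b).norm a hb z (not_lt.1 (hz a (mem_univ _))) ∅
      ((hT b).full z h3 ⟨empty_subset _, fun c hc => absurd hc (hz c (mem_univ _))⟩)
    exact ⟨⟨(a, y), hy⟩, height_node hs _⟩
  · rcases eq_empty_or_nonempty {t : Node T | height t = o} with e | ⟨p, hp⟩
    · simp [e]
    refine hsmall _ p.1.1 fun q hq => not_lt.1 fun h3 => ?_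
    have h4 := (Ordinal.typein_lt_typein (α := A) (· < ·)).2 h3
    rw [← height_node hs, ← height_node hs, hp, hq] at h4
    exact h4.false
  · refine main C fun b x hx => ?_
    obtain ⟨d, hd⟩ := h.exists_gt b
    obtain ⟨c, hc, hc'⟩ := exists_succ hd
    have h3 : c ∉ N := fun h3 => by
      have h4 := (h2 c h3).trans (cof_Iio_le (s := {b}) fun e he => ⟨b, rfl, (hc' e).1 he, hc⟩)
      have h5 := h4.trans (mk_le_mk_of_subset inter_subset_left)
      rw [mk_singleton] at h5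
      exact h5.not_gt (one_lt_aleph0.trans_le h.reg.aleph0_le)
    have hx' := (hs _ hx).1
    have h4 : ∀ w : Set A, w ⊆ Iio c → w ∩ Iio b = x → w ∈ T c := fun w h4 h5 =>
      (hT b).full c h3 ⟨h4, fun e he => by
        rw [← inter_Iio ((hc' e).1 he), h5]
        exact down hs ((hc' e).1 he) hx⟩
    have h5 : x ∩ Iio b = x := inter_eq_left.2 hx'
    have h6 : insert b x ∩ Iio b = x := by
      rw [insert_inter_of_notMem (show b ∉ Iio b from lt_irrefl b), h5]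
    by_contra! h7
    obtain ⟨p, hp, h8, h9⟩ := h7 c hc.le x (h4 x (hx'.trans (Iio_subset_Iio hc.le)) h5) h5
    obtain ⟨q, hq, h10, h11⟩ := h7 c hc.le (insert b x)
      (h4 _ (insert_subset hc (hx'.trans (Iio_subset_Iio hc.le))) h6) h6
    have h12 : p.1.2 ∩ Iio c = q.1.2 ∩ Iio c := by
      rcases hC.total hp hq with h12 | h12
      · rw [← ((Node.le_iff hs).1 h12).2, inter_Iio h8.le]
      · rw [← ((Node.le_iff hs).1 h12).2, inter_Iio h10.le]
    rw [h9, h11] at h12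
    exact lt_irrefl b (hx' (h12.ge (mem_insert _ _)))
  · refine main X fun b x hx => ?_
    by_cases h3 : x ∈ U X b
    swap
    · exact ⟨b, le_rfl, x, hx, inter_eq_left.2 (hs _ hx).1, h3⟩
    obtain ⟨p, hp, h4, h5⟩ := h3
    refine ⟨p.1.1, h4.le, p.1.2, p.2, h5, ?_⟩
    rintro ⟨q, hq, h6, h7⟩
    exact hX hp hq (fun e => h6.ne (by rw [e])) ((Node.le_iff hs).2 ⟨h6.le, h7⟩)

end Pool.Agent.Lib.MP_a0c85e_lc
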